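import Pool.Agent.Run7.h828.TFW.VAR

/-!
# Radial test functions
-/

set_option autoImplicit false

open MeasureTheory Filter Topology Set
open scoped ENNReal NNReal ContDiff

namespace Pool.Agent.Run7.h828.TFW

open Pool.Agent.TH791.Cl Pool.Agent.TH791.Nw Pool.Agent.R999.Pot Pool.Agent.R999.MinP
open Pool.Agent.R999.Newton Pool.Agent.R999 Pool.Agent.R999.Ex

/-! ### the smooth step -/

/-- smooth step from `0` (for `s ≤ 1/4`) to `1` (for `s ≥ 1`) -/
noncomputable def st (s : ℝ) : ℝ := Real.smoothTransition ((4 * s - 1) / 3)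

lemma st_smooth : ContDiff ℝ ∞ st :=
  Real.smoothTransition.contDiff.comp (((contDiff_const.mul contDiff_id).sub contDiff_const).div_const _)

lemma st_nonneg (s : ℝ) : 0 ≤ st s := Real.smoothTransition.nonneg _
lemma st_le_one (s : ℝ) : st s ≤ 1 := Real.smoothTransition.le_one _
lemma st_zero {s : ℝ} (h : s ≤ 1/4) : st s = 0 :=
  Real.smoothTransition.zero_of_nonpos (by linarith)
lemma st_one {s : ℝ} (h : 1 ≤ s) : st s = 1 :=
  Real.smoothTransition.one_of_one_le (by linarith)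
lemma st_mono : Monotone st := fun a b h =>
  Real.smoothTransition.monotone (by linarith)

/-- derivative of the step -/
noncomputable def sd (s : ℝ) : ℝ := deriv st s

lemma st_der (s : ℝ) : HasDerivAt st (sd s) s :=
  (st_smooth.differentiable (by simp) s).hasDerivAt

lemma sd_nonneg (s : ℝ) : 0 ≤ sd s := st_mono.deriv_nonneg
lemma sd_zero {s : ℝ} (h : s ≤ 1/4) : sd s = 0 := by
  have : IsLocalMin st s := Eventually.of_forall fun y => by rw [st_zero h]; exact st_nonneg y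
  exact this.deriv_eq_zero
lemma sd_one {s : ℝ} (h : 1 ≤ s) : sd s = 0 := by
  have : IsLocalMax st s := Eventually.of_forall fun y => by rw [st_one h]; exact st_le_one y
  exact this.deriv_eq_zero
lemma sd_cont : Continuous sd := st_smooth.continuous_deriv (by simp)

lemma sd_bd : ∃ K : ℝ, 0 < K ∧ ∀ s, sd s ≤ K := by
  obtain ⟨C, hC⟩ := (isCompact_Icc (a := (0:ℝ)) (b := 1)).exists_bound_of_continuousOn
    sd_cont.continuousOn
  refine ⟨|C| + 1, by positivity, fun s => ?_⟩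
  by_cases h : s ∈ Icc (0:ℝ) 1
  · have := hC s h
    rw [Real.norm_of_nonneg (sd_nonneg s)] at this
    have := le_abs_self C
    linarith
  · rw [mem_Icc, not_and_or, not_le, not_le] at h
    rcases h with h | h
    · rw [sd_zero (by linarith)]; positivity
    · rw [sd_one h.le]; positivity

/-- the bound of the derivative -/
noncomputable def K0 : ℝ := sd_bd.choose
lemma K0_pos : 0 < K0 := sd_bd.choose_spec.1
lemma sd_le (s : ℝ) : sd s ≤ K0 := sd_bd.choose_spec.2 s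

/-! ### functions of `‖x‖²` -/

lemma radial_fderiv {H : ℝ → ℝ} {H' : ℝ} {x : E3} (h : HasDerivAt H H' (‖x‖ ^ 2)) :
    HasFDerivAt (fun y : E3 => H (‖y‖ ^ 2)) ((2 * H') • innerSL ℝ x) x := by
  have h1 : HasFDerivAt (fun y : E3 => ‖y‖ ^ 2) (2 • innerSL ℝ x) x :=
    (hasStrictFDerivAt_norm_sq x).hasFDerivAt
  have h2 := h.comp_hasFDerivAt x h1
  refine h2.congr_fderiv ?_
  refine ContinuousLinearMap.ext fun v => ?_
  simp only [smul_apply, smul_eq_mul, nsmul_eq_mul, innerSL_apply_apply, Nat.cast_ofNat]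
  ring

lemma radial_grad {H : ℝ → ℝ} {H' : ℝ} {x : E3} (h : HasDerivAt H H' (‖x‖ ^ 2)) :
    gradient (fun y : E3 => H (‖y‖ ^ 2)) x = (2 * H') • x := by
  have h1 := radial_fderiv h
  have h2 : HasGradientAt (fun y : E3 => H (‖y‖ ^ 2)) ((2 * H') • x) x := by
    rw [hasGradientAt_iff_hasFDerivAt]
    refine h1.congr_fderiv ?_
    refine ContinuousLinearMap.ext fun v => ?_
    simp [innerSL_apply_apply, real_inner_smul_left]
  exact h2.gradient

/-! ### the weight `(1 + s)^{1/4}` -/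

/-- `(1+s)^{1/4}` -/
noncomputable def qq (s : ℝ) : ℝ := (1 + s) ^ (1/4 : ℝ)

lemma qq_pos {s : ℝ} (hs : 0 ≤ s) : 0 < qq s := Real.rpow_pos_of_pos (by linarith) _
lemma qq_four {s : ℝ} (hs : 0 ≤ s) : qq s ^ 4 = 1 + s := by
  unfold qq
  rw [← Real.rpow_natCast, ← Real.rpow_mul (by linarith)]
  norm_num
lemma qq_one {s : ℝ} (hs : 0 ≤ s) : 1 ≤ qq s := by
  by_contra h
  push Not at h
  have h1 := qq_pos hs
  have h2 := qq_four hs
  have h3 : qq s ^ 4 < 1 := pow_lt_one₀ h1.le h (by norm_num)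
  linarith
lemma le_qq {t : ℝ} (ht : 0 ≤ t) : t ≤ qq (t ^ 2) ^ 2 := by
  have h1 := qq_pos (sq_nonneg t)
  have h2 := qq_four (sq_nonneg t)
  have h3 : t ^ 2 ≤ (qq (t ^ 2) ^ 2) ^ 2 := by
    rw [← pow_mul]; norm_num; linarith
  exact (sq_le_sq₀ ht (by positivity)).1 h3
lemma qq_inv {s : ℝ} (hs : 0 ≤ s) : (1 + s) ^ (-(1/4) : ℝ) = (qq s)⁻¹ := by
  unfold qq; rw [Real.rpow_neg (by linarith)]
lemma qq_inv5 {s : ℝ} (hs : 0 ≤ s) : (1 + s) ^ (-(5/4) : ℝ) = (qq s ^ 5)⁻¹ := by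
  unfold qq
  rw [Real.rpow_neg (by linarith), ← Real.rpow_natCast _ 5, ← Real.rpow_mul (by linarith)]
  norm_num

/-- profile of the weight -/
noncomputable def Ho (s : ℝ) : ℝ := (1 + s) ^ (-(1/4) : ℝ)

lemma Ho_der {s : ℝ} (hs : 0 ≤ s) : HasDerivAt Ho (-(1/4) * (qq s ^ 5)⁻¹) s := by
  have h1 : HasDerivAt (fun s : ℝ => 1 + s) 1 s := (hasDerivAt_id s).const_add 1
  have h2 := h1.rpow_const (p := (-(1/4) : ℝ)) (Or.inl (by linarith))
  refine h2.congr_deriv ?_
  rw [← qq_inv5 hs]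
  norm_num

/-- profile of the test function -/
noncomputable def Hs (S s : ℝ) : ℝ := (1 - st (s / (16 * S ^ 2))) * Ho s

/-- its derivative -/
noncomputable def Hd (S s : ℝ) : ℝ :=
  -(sd (s / (16 * S ^ 2)) / (16 * S ^ 2)) * (qq s)⁻¹ +
    (1 - st (s / (16 * S ^ 2))) * (-(1/4) * (qq s ^ 5)⁻¹)

lemma Hs_der {S s : ℝ} (hs : 0 ≤ s) : HasDerivAt (Hs S) (Hd S s) s := by
  have h1 : HasDerivAt (fun s : ℝ => s / (16 * S ^ 2)) (1 / (16 * S ^ 2)) s :=
    (hasDerivAt_id s).div_const _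
  have h2 : HasDerivAt (fun s : ℝ => st (s / (16 * S ^ 2)))
      (sd (s / (16 * S ^ 2)) * (1 / (16 * S ^ 2))) s := (st_der _).comp s h1
  have h3 := (h2.const_sub 1).mul (Ho_der hs)
  refine h3.congr_deriv ?_
  unfold Hd
  have : Ho s = (qq s)⁻¹ := qq_inv hs
  rw [this]
  ring

/-- the weight -/
noncomputable def om (x : E3) : ℝ := Ho (‖x‖ ^ 2)
/-- the test function -/
noncomputable def ch (S : ℝ) (x : E3) : ℝ := Hs S (‖x‖ ^ 2)

lemma om_smooth : ContDiff ℝ ∞ om := by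
  unfold om Ho
  refine ContDiff.rpow_const_of_ne (contDiff_const.add (contDiff_norm_sq ℝ)) fun x => ?_
  positivity

lemma ch_smooth (S : ℝ) : ContDiff ℝ ∞ (ch S) := by
  have h1 : ContDiff ℝ ∞ (fun x : E3 => 1 - st (‖x‖ ^ 2 / (16 * S ^ 2))) :=
    contDiff_const.sub (st_smooth.comp ((contDiff_norm_sq ℝ).div_const _))
  exact h1.mul om_smooth

lemma om_pos (x : E3) : 0 < om x := by
  unfold om Ho
  exact Real.rpow_pos_of_pos (by positivity) _

lemma om_le_one (x : E3) : om x ≤ 1 := by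
  unfold om Ho
  rw [qq_inv (by positivity)]
  exact inv_le_one_of_one_le₀ (qq_one (by positivity))

lemma ch_eq {S : ℝ} (hS : 1 ≤ S) {x : E3} (hx : ‖x‖ ≤ 2 * S) : ch S x = om x := by
  unfold ch om Hs
  rw [st_zero, sub_zero, one_mul]
  rw [div_le_iff₀ (by positivity)]
  have := norm_nonneg x
  nlinarith

lemma ch_zero {S : ℝ} (hS : 1 ≤ S) {x : E3} (hx : 4 * S ≤ ‖x‖) : ch S x = 0 := by
  unfold ch Hs
  rw [st_one, sub_self, zero_mul]
  rw [le_div_iff₀ (by positivity)]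
  have := norm_nonneg x
  nlinarith

lemma ch_supp {S : ℝ} (hS : 1 ≤ S) : HasCompactSupport (ch S) := by
  refine HasCompactSupport.of_support_subset_isCompact (isCompact_closedBall (0:E3) (4 * S)) ?_
  intro x hx
  rw [Function.mem_support] at hx
  rw [mem_closedBall_zero_iff]
  by_contra h
  push Not at h
  exact hx (ch_zero hS h.le)

lemma ch_grad (S : ℝ) (x : E3) : gradient (ch S) x = (2 * Hd S (‖x‖ ^ 2)) • x :=
  radial_grad (Hs_der (by positivity))

lemma om_grad (x : E3) : gradient om x = (2 * (-(1/4) * (qq (‖x‖ ^ 2) ^ 5)⁻¹)) • x :=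
  radial_grad (Ho_der (by positivity))

lemma grad_eq {S : ℝ} (hS : 1 ≤ S) {x : E3} (hx : ‖x‖ ≤ 2 * S) :
    gradient (ch S) x = gradient om x := by
  rw [ch_grad, om_grad]
  unfold Hd
  have h : ‖x‖ ^ 2 / (16 * S ^ 2) ≤ 1/4 := by
    rw [div_le_iff₀ (by positivity)]
    have := norm_nonneg x
    nlinarith
  rw [sd_zero h, st_zero h]
  simp

end Pool.Agent.Run7.h828.TFW
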