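import Pool.Agent.Run7.h828.TFW.E1

/-!
# Radial estimates
-/

set_option autoImplicit false

open MeasureTheory Filter Topology Set
open scoped ENNReal NNReal ContDiff

namespace Pool.Agent.Run7.h828.TFW

open Pool.Agent.TH791.Cl Pool.Agent.TH791.Nw Pool.Agent.R999.Pot Pool.Agent.R999.MinP
open Pool.Agent.R999.Newton Pool.Agent.R999 Pool.Agent.R999.Ex

/-- comparison function -/
noncomputable def MM (T a b c d e : ℝ) (t : ℝ) : ℝ :=
  (Ioc (0:ℝ) 1).indicator (fun _ => a) t + (Ioc (1:ℝ) T).indicator (fun t => b / t) t +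
    (Ioc (0:ℝ) T).indicator (fun t => c * t ^ 2 + d * t + e) t

lemma MM_int {T : ℝ} (hT : 1 ≤ T) (a b c d e : ℝ) : IntegrableOn (MM T a b c d e) (Ioi 0) ∧
    ∫ t in Ioi (0:ℝ), MM T a b c d e t =
      a + b * Real.log T + (c * T ^ 3 / 3 + d * T ^ 2 / 2 + e * T) := by
  have hT0 : 0 < T := by linarith
  have i1 : IntegrableOn (fun _ : ℝ => a) (Ioc (0:ℝ) 1) := by
    exact (continuousOn_const.integrableOn_Icc).mono_set Ioc_subset_Icc_self
  have i2 : IntegrableOn (fun t : ℝ => b / t) (Ioc (1:ℝ) T) := by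
    refine (ContinuousOn.integrableOn_Icc ?_).mono_set Ioc_subset_Icc_self
    exact continuousOn_const.div continuousOn_id fun x hx => by
      have := hx.1
      show x ≠ 0
      linarith
  have i3 : IntegrableOn (fun t : ℝ => c * t ^ 2 + d * t + e) (Ioc (0:ℝ) T) := by
    have : Continuous (fun t : ℝ => c * t ^ 2 + d * t + e) := by fun_prop
    exact (this.continuousOn.integrableOn_Icc).mono_set Ioc_subset_Icc_self
  have j1 : IntegrableOn ((Ioc (0:ℝ) 1).indicator (fun _ : ℝ => a)) (Ioi 0) :=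
    ((integrable_indicator_iff measurableSet_Ioc).2 i1).integrableOn
  have j2 : IntegrableOn ((Ioc (1:ℝ) T).indicator (fun t : ℝ => b / t)) (Ioi 0) :=
    ((integrable_indicator_iff measurableSet_Ioc).2 i2).integrableOn
  have j3 : IntegrableOn ((Ioc (0:ℝ) T).indicator (fun t : ℝ => c * t ^ 2 + d * t + e)) (Ioi 0) :=
    ((integrable_indicator_iff measurableSet_Ioc).2 i3).integrableOn
  have s1 : Ioi (0:ℝ) ∩ Ioc 0 1 = Ioc 0 1 := inter_eq_right.2 fun x hx => hx.1
  have s2 : Ioi (0:ℝ) ∩ Ioc 1 T = Ioc 1 T := inter_eq_right.2 fun x hx => by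
    have := hx.1
    show 0 < x
    linarith
  have s3 : Ioi (0:ℝ) ∩ Ioc 0 T = Ioc 0 T := inter_eq_right.2 fun x hx => hx.1
  have v1 : ∫ t in Ioi (0:ℝ), (Ioc (0:ℝ) 1).indicator (fun _ : ℝ => a) t = a := by
    rw [setIntegral_indicator measurableSet_Ioc, s1]
    simp
  have v2 : ∫ t in Ioi (0:ℝ), (Ioc (1:ℝ) T).indicator (fun t : ℝ => b / t) t =
      b * Real.log T := by
    rw [setIntegral_indicator measurableSet_Ioc, s2, ← intervalIntegral.integral_of_le hT]
    have : (fun t : ℝ => b / t) = fun t => b * (1 / t) := by funext t; ring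
    rw [this, intervalIntegral.integral_const_mul, integral_one_div_of_pos one_pos hT0, div_one]
  have v3 : ∫ t in Ioi (0:ℝ), (Ioc (0:ℝ) T).indicator (fun t : ℝ => c * t ^ 2 + d * t + e) t =
      c * T ^ 3 / 3 + d * T ^ 2 / 2 + e * T := by
    rw [setIntegral_indicator measurableSet_Ioc, s3, ← intervalIntegral.integral_of_le hT0.le]
    have k1 : IntervalIntegrable (fun t : ℝ => c * t ^ 2) volume 0 T :=
      Continuous.intervalIntegrable (by fun_prop) _ _
    have k2 : IntervalIntegrable (fun t : ℝ => d * t) volume 0 T :=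
      Continuous.intervalIntegrable (by fun_prop) _ _
    have k3 : IntervalIntegrable (fun _ : ℝ => e) volume 0 T :=
      Continuous.intervalIntegrable (by fun_prop) _ _
    rw [intervalIntegral.integral_add (k1.add k2) k3, intervalIntegral.integral_add k1 k2,
      intervalIntegral.integral_const_mul, intervalIntegral.integral_const_mul, integral_pow,
      integral_id, intervalIntegral.integral_const]
    simp
    ring
  refine ⟨(j1.add j2).add j3, ?_⟩
  unfold MM
  have j12 : IntegrableOn (fun t => (Ioc (0:ℝ) 1).indicator (fun _ => a) t +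
    (Ioc (1:ℝ) T).indicator (fun t => b / t) t) (Ioi 0) := j1.add j2
  rw [integral_add j12 j3, integral_add j1 j2, v1, v2, v3]

/-- bound of a one-dimensional integral -/
lemma ioiB {f : ℝ → ℝ} {T : ℝ} (a b c d e : ℝ) (hT : 1 ≤ T)
    (h0 : ∀ t, 0 < t → 0 ≤ f t)
    (h1 : ∀ t, 0 < t → t ≤ 1 → f t ≤ a + (c * t ^ 2 + d * t + e))
    (h2 : ∀ t, 1 < t → t ≤ T → f t ≤ b / t + (c * t ^ 2 + d * t + e))
    (h3 : ∀ t, T < t → f t = 0) :
    (∀ t, 0 < t → f t ≤ MM T a b c d e t) ∧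
    ∫ t in Ioi (0:ℝ), f t ≤ a + b * Real.log T + (c * T ^ 3 / 3 + d * T ^ 2 / 2 + e * T) := by
  have hT0 : 0 < T := by linarith
  have hpt : ∀ t, 0 < t → f t ≤ MM T a b c d e t := by
    intro t ht
    unfold MM
    rcases le_or_gt t 1 with h | h
    · have m1 : t ∈ Ioc (0:ℝ) 1 := ⟨ht, h⟩
      have m2 : t ∉ Ioc (1:ℝ) T := fun hh => absurd hh.1 (not_lt.2 h)
      have m3 : t ∈ Ioc (0:ℝ) T := ⟨ht, h.trans hT⟩
      rw [indicator_of_mem m1, indicator_of_notMem m2, indicator_of_mem m3, add_zero]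
      exact h1 t ht h
    · have m1 : t ∉ Ioc (0:ℝ) 1 := fun hh => absurd hh.2 (not_le.2 h)
      rcases le_or_gt t T with h' | h'
      · have m2 : t ∈ Ioc (1:ℝ) T := ⟨h, h'⟩
        have m3 : t ∈ Ioc (0:ℝ) T := ⟨ht, h'⟩
        rw [indicator_of_notMem m1, indicator_of_mem m2, indicator_of_mem m3, zero_add]
        exact h2 t h h'
      · have m2 : t ∉ Ioc (1:ℝ) T := fun hh => absurd hh.2 (not_le.2 h')
        have m3 : t ∉ Ioc (0:ℝ) T := fun hh => absurd hh.2 (not_le.2 h')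
        rw [indicator_of_notMem m1, indicator_of_notMem m2, indicator_of_notMem m3, h3 t h']
        simp
  refine ⟨hpt, ?_⟩
  obtain ⟨i, v⟩ := MM_int hT a b c d e
  rw [← v]
  refine integral_mono_of_nonneg ?_ i ?_
  · filter_upwards [ae_restrict_mem measurableSet_Ioi] with t ht
    exact h0 t ht
  · filter_upwards [ae_restrict_mem measurableSet_Ioi] with t ht
    exact hpt t ht

/-! ### pointwise bounds for the profile -/

/-- the profile of `χ²` -/
noncomputable def pp (S t : ℝ) : ℝ := Hs S (t ^ 2) ^ 2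

lemma Hs_nonneg (S t : ℝ) : 0 ≤ Hs S (t ^ 2) := by
  unfold Hs Ho
  have := st_le_one (t ^ 2 / (16 * S ^ 2))
  have h2 : (0:ℝ) ≤ (1 + t ^ 2) ^ (-(1/4) : ℝ) := by positivity
  exact mul_nonneg (by linarith) h2

lemma Hs_le (S t : ℝ) : Hs S (t ^ 2) ≤ (qq (t ^ 2))⁻¹ := by
  unfold Hs Ho
  rw [qq_inv (sq_nonneg t)]
  have := st_nonneg (t ^ 2 / (16 * S ^ 2))
  exact mul_le_of_le_one_left (inv_nonneg.2 (qq_pos (sq_nonneg t)).le) (by linarith)

lemma Hs_far {S t : ℝ} (hS : 1 ≤ S) (ht : 4 * S < t) : Hs S (t ^ 2) = 0 := by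
  unfold Hs
  rw [st_one, sub_self, zero_mul]
  rw [le_div_iff₀ (by positivity)]
  nlinarith

lemma pp_nonneg (S t : ℝ) : 0 ≤ pp S t := sq_nonneg _
lemma pp_le_one (S t : ℝ) : pp S t ≤ 1 := by
  unfold pp
  have h1 := Hs_nonneg S t
  have h2 := (Hs_le S t).trans (inv_le_one_of_one_le₀ (qq_one (sq_nonneg t)))
  nlinarith

lemma pp_le {S t : ℝ} (ht : 0 < t) : pp S t ≤ 1 / t := by
  unfold pp
  have h1 := Hs_nonneg S t
  have h2 := Hs_le S t
  have hq := qq_pos (sq_nonneg t)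
  have h3 : Hs S (t ^ 2) ^ 2 ≤ ((qq (t ^ 2))⁻¹) ^ 2 := pow_le_pow_left₀ h1 h2 2
  refine h3.trans ?_
  rw [inv_pow, one_div]
  exact inv_anti₀ ht (le_qq ht.le)

lemma pp_far {S t : ℝ} (hS : 1 ≤ S) (ht : 4 * S < t) : pp S t = 0 := by
  unfold pp; rw [Hs_far hS ht]; norm_num

lemma pp_meas (S : ℝ) : Measurable (pp S) := by
  have h1 : Continuous (fun t : ℝ => st (t ^ 2 / (16 * S ^ 2))) :=
    st_smooth.continuous.comp ((continuous_id.pow 2).div_const _)
  have h2 : Continuous (fun t : ℝ => (1 + t ^ 2) ^ (-(1/4) : ℝ)) :=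
    (continuous_const.add (continuous_id.pow 2)).rpow_const fun t => Or.inl (by
      show (1:ℝ) + t ^ 2 ≠ 0
      positivity)
  exact (((continuous_const.sub h1).mul h2).pow 2).measurable

lemma ch_sq (S : ℝ) (x : E3) : ch S x ^ 2 = pp S ‖x‖ := rfl

/-- `∫ χ² ≤ 32 π S²` -/
lemma int_sq {S : ℝ} (hS : 1 ≤ S) : ∫ x, ch S x ^ 2 ≤ 32 * Real.pi * S ^ 2 := by
  have hpi := Real.pi_pos
  simp only [ch_sq]
  rw [int_radial (pp S)]
  have h := (ioiB (f := fun t => t ^ 2 * pp S t) (T := 4 * S) 0 0 0 1 0 (by linarith)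
    (fun t ht => mul_nonneg (sq_nonneg _) (pp_nonneg S t))
    (fun t ht _ => ?_) (fun t ht _ => ?_) (fun t ht => ?_)).2
  · have h2 := mul_le_mul_of_nonneg_left h (show 0 ≤ 4 * Real.pi by positivity)
    refine h2.trans (le_of_eq ?_)
    ring
  · have := mul_le_mul_of_nonneg_left (pp_le (S := S) ht) (sq_nonneg t)
    have e : t ^ 2 * (1 / t) = t := by field_simp
    rw [e] at this
    linarith
  · have ht' : 0 < t := by linarith
    have := mul_le_mul_of_nonneg_left (pp_le (S := S) ht') (sq_nonneg t)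
    have e : t ^ 2 * (1 / t) = t := by field_simp
    rw [e] at this
    rw [zero_div]
    linarith
  · rw [pp_far hS ht, mul_zero]

/-- `∫ χ⁶ ≤ 4π (1 + log (4S))` -/
lemma int_six {S : ℝ} (hS : 1 ≤ S) :
    ∫ x, (ch S x ^ 2) ^ 3 ≤ 4 * Real.pi * (1 + Real.log (4 * S)) := by
  have hpi := Real.pi_pos
  simp only [ch_sq]
  rw [int_radial (fun t => pp S t ^ 3)]
  have h := (ioiB (f := fun t => t ^ 2 * pp S t ^ 3) (T := 4 * S) 1 1 0 0 0 (by linarith)
    (fun t ht => mul_nonneg (sq_nonneg _) (pow_nonneg (pp_nonneg S t) 3))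
    (fun t ht ht1 => ?_) (fun t ht _ => ?_) (fun t ht => ?_)).2
  · have h2 := mul_le_mul_of_nonneg_left h (show 0 ≤ 4 * Real.pi by positivity)
    refine h2.trans (le_of_eq ?_)
    ring
  · have h3 : pp S t ^ 3 ≤ 1 := pow_le_one₀ (pp_nonneg S t) (pp_le_one S t)
    have h4 : t ^ 2 ≤ 1 := by nlinarith
    have h5 : t ^ 2 * pp S t ^ 3 ≤ 1 * 1 :=
      mul_le_mul h4 h3 (pow_nonneg (pp_nonneg S t) 3) zero_le_one
    linarith
  · have ht' : 0 < t := by linarith
    have h3 : pp S t ^ 3 ≤ (1 / t) ^ 3 := pow_le_pow_left₀ (pp_nonneg S t) (pp_le ht') 3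
    have h4 := mul_le_mul_of_nonneg_left h3 (sq_nonneg t)
    have e : t ^ 2 * (1 / t) ^ 3 = 1 / t := by field_simp
    rw [e] at h4
    linarith
  · rw [pp_far hS ht]; ring

/-! ### the potential -/

/-- `∫ χ²/|y|` -/
noncomputable def AA (S : ℝ) : ℝ := ∫ t in Ioi (0:ℝ), 4 * Real.pi * t * pp S t

lemma pot_ch (S : ℝ) (x : E3) :
    pot (fun x => ch S x ^ 2) x = ∫ t in Ioi (0:ℝ), kx ‖x‖ t * pp S t := by
  unfold pot
  simp only [ch_sq]
  exact pot_radial (pp_meas S) x

lemma AA_int {S : ℝ} (hS : 1 ≤ S) : IntegrableOn (fun t => 4 * Real.pi * t * pp S t) (Ioi 0) ∧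
    AA S ≤ 16 * Real.pi * S := by
  have hpi := Real.pi_pos
  have h := ioiB (f := fun t => 4 * Real.pi * t * pp S t) (T := 4 * S) 0 0 0 0 (4 * Real.pi)
    (by linarith) (fun t ht => mul_nonneg (by positivity) (pp_nonneg S t))
    (fun t ht ht1 => ?_) (fun t ht _ => ?_) (fun t ht => ?_)
  · refine ⟨?_, ?_⟩
    · refine (MM_int (T := 4 * S) (by linarith) 0 0 0 0 (4 * Real.pi)).1.mono'
        (((measurable_const.mul measurable_id).mul (pp_meas S)).aestronglyMeasurable) ?_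
      filter_upwards [ae_restrict_mem measurableSet_Ioi] with t ht
      rw [Real.norm_of_nonneg (mul_nonneg (mul_nonneg (by positivity) (le_of_lt ht))
        (pp_nonneg S t))]
      exact h.1 t ht
    · refine h.2.trans (le_of_eq ?_)
      ring
  · have := mul_le_mul_of_nonneg_left (pp_le (S := S) ht) (show 0 ≤ 4 * Real.pi * t by positivity)
    have e : 4 * Real.pi * t * (1 / t) = 4 * Real.pi := by field_simp
    rw [e] at this
    linarith
  · have ht' : 0 < t := by linarith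
    have := mul_le_mul_of_nonneg_left (pp_le (S := S) ht') (show 0 ≤ 4 * Real.pi * t by positivity)
    have e : 4 * Real.pi * t * (1 / t) = 4 * Real.pi := by field_simp
    rw [e] at this
    rw [zero_div]
    linarith
  · rw [pp_far hS ht]; ring

lemma kx_le {r t : ℝ} (ht : 0 < t) : kx r t ≤ 4 * Real.pi * t := by
  have hpi := Real.pi_pos
  unfold kx
  have hm : t ≤ max r t := le_max_right _ _
  rw [div_le_iff₀ (lt_of_lt_of_le ht hm)]
  have := mul_le_mul_of_nonneg_left hm (show 0 ≤ 4 * Real.pi * t by positivity)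
  nlinarith

lemma kx_pp_int {S : ℝ} (hS : 1 ≤ S) {r : ℝ} (hr : 0 ≤ r) :
    IntegrableOn (fun t => kx r t * pp S t) (Ioi 0) := by
  refine (AA_int hS).1.mono' (((kx_meas r).mul (pp_meas S)).aestronglyMeasurable) ?_
  filter_upwards [ae_restrict_mem measurableSet_Ioi] with t ht
  rw [Real.norm_of_nonneg (mul_nonneg (kx_nonneg hr) (pp_nonneg S t))]
  exact mul_le_mul_of_nonneg_right (kx_le ht) (pp_nonneg S t)

lemma pot_ch_le {S : ℝ} (hS : 1 ≤ S) (x : E3) : pot (fun x => ch S x ^ 2) x ≤ AA S := by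
  rw [pot_ch]
  unfold AA
  refine setIntegral_mono_on (kx_pp_int hS (norm_nonneg x)) (AA_int hS).1 measurableSet_Ioi
    fun t ht => mul_le_mul_of_nonneg_right (kx_le ht) (pp_nonneg S t)

lemma pot_ch_ge {S : ℝ} (hS : 1 ≤ S) (x : E3) :
    AA S - 4 * Real.pi * ‖x‖ ≤ pot (fun x => ch S x ^ 2) x := by
  have hpi := Real.pi_pos
  rw [pot_ch]
  unfold AA
  have h1 : IntegrableOn ((Ioc (0:ℝ) ‖x‖).indicator (fun _ : ℝ => 4 * Real.pi)) (Ioi 0) := by
    refine ((integrable_indicator_iff measurableSet_Ioc).2 ?_).integrableOn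
    exact (continuousOn_const.integrableOn_Icc).mono_set Ioc_subset_Icc_self
  have v1 : ∫ t in Ioi (0:ℝ), (Ioc (0:ℝ) ‖x‖).indicator (fun _ : ℝ => 4 * Real.pi) t =
      4 * Real.pi * ‖x‖ := by
    have s1 : Ioi (0:ℝ) ∩ Ioc 0 ‖x‖ = Ioc 0 ‖x‖ := inter_eq_right.2 fun x hx => hx.1
    rw [setIntegral_indicator measurableSet_Ioc, s1]
    simp
    ring
  have h2 : ∫ t in Ioi (0:ℝ), 4 * Real.pi * t * pp S t ≤
      ∫ t in Ioi (0:ℝ), (kx ‖x‖ t * pp S t + (Ioc (0:ℝ) ‖x‖).indicator (fun _ => 4 * Real.pi) t) := by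
    refine setIntegral_mono_on (AA_int hS).1 ((kx_pp_int hS (norm_nonneg x)).add h1)
      measurableSet_Ioi fun t ht => ?_
    have ht' : 0 < t := ht
    by_cases h : t ≤ ‖x‖
    · rw [indicator_of_mem (show t ∈ Ioc (0:ℝ) ‖x‖ from ⟨ht', h⟩)]
      have h3 := mul_le_mul_of_nonneg_left (pp_le (S := S) ht')
        (show 0 ≤ 4 * Real.pi * t by positivity)
      have e : 4 * Real.pi * t * (1 / t) = 4 * Real.pi := by field_simp
      rw [e] at h3
      have h4 := mul_nonneg (kx_nonneg (r := ‖x‖) (t := t) (norm_nonneg x)) (pp_nonneg S t)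
      linarith
    · rw [indicator_of_notMem (fun hh => h hh.2), add_zero]
      push Not at h
      unfold kx
      rw [max_eq_right h.le]
      refine le_of_eq ?_
      field_simp
  rw [integral_add (kx_pp_int hS (norm_nonneg x)) h1, v1] at h2
  linarith

lemma AA_ge {S : ℝ} (hS : 1 ≤ S) : 2 * Real.pi * S ≤ AA S := by
  have hpi := Real.pi_pos
  unfold AA
  have h1 : IntegrableOn ((Ioc (1:ℝ) (2 * S)).indicator (fun _ : ℝ => 2 * Real.pi)) (Ioi 0) := by
    refine ((integrable_indicator_iff measurableSet_Ioc).2 ?_).integrableOn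
    exact (continuousOn_const.integrableOn_Icc).mono_set Ioc_subset_Icc_self
  have v1 : ∫ t in Ioi (0:ℝ), (Ioc (1:ℝ) (2 * S)).indicator (fun _ : ℝ => 2 * Real.pi) t =
      2 * Real.pi * (2 * S - 1) := by
    have s1 : Ioi (0:ℝ) ∩ Ioc 1 (2 * S) = Ioc 1 (2 * S) := inter_eq_right.2 fun x hx => by
      have := hx.1
      show 0 < x
      linarith
    rw [setIntegral_indicator measurableSet_Ioc, s1]
    simp only [integral_const, MeasurableSet.univ, measureReal_restrict_apply, univ_inter,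
      Real.volume_real_Ioc, smul_eq_mul]
    rw [max_eq_left (by linarith)]
    ring
  have h2 : 2 * Real.pi * S ≤ 2 * Real.pi * (2 * S - 1) :=
    mul_le_mul_of_nonneg_left (by linarith) (by positivity)
  refine h2.trans ?_
  rw [← v1]
  refine setIntegral_mono_on h1 (AA_int hS).1 measurableSet_Ioi fun t ht => ?_
  have ht' : 0 < t := ht
  by_cases h : t ∈ Ioc (1:ℝ) (2 * S)
  · rw [indicator_of_mem h]
    have h3 : pp S t = ((qq (t ^ 2))⁻¹) ^ 2 := by
      unfold pp Hs Ho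
      rw [st_zero, sub_zero, one_mul, qq_inv (sq_nonneg t)]
      rw [div_le_iff₀ (by positivity)]
      nlinarith [h.1, h.2]
    rw [h3]
    have hq := qq_pos (sq_nonneg t)
    have h4 : qq (t ^ 2) ^ 2 ≤ 2 * t := by
      have h5 := qq_four (sq_nonneg t)
      have h6 : (qq (t ^ 2) ^ 2) ^ 2 ≤ (2 * t) ^ 2 := by
        rw [← pow_mul]; norm_num
        rw [h5]
        nlinarith [h.1]
      exact (sq_le_sq₀ (by positivity) (by positivity)).1 h6
    rw [inv_pow, ← div_eq_mul_inv, le_div_iff₀ (by positivity)]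
    nlinarith
  · rw [indicator_of_notMem h]
    exact mul_nonneg (by positivity) (pp_nonneg S t)

end Pool.Agent.Run7.h828.TFW
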