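import Pool.Agent.Run7.h828.TFW.E2

/-!
# The upper bound of the dissipation
-/

set_option autoImplicit false

open MeasureTheory Filter Topology Set
open scoped ENNReal NNReal ContDiff

namespace Pool.Agent.Run7.h828.TFW

open Pool.Agent.TH791.Cl Pool.Agent.TH791.Nw Pool.Agent.R999.Pot Pool.Agent.R999.MinP
open Pool.Agent.R999.Newton Pool.Agent.R999 Pool.Agent.R999.Ex

variable {ι : Type*} [Fintype ι]

lemma pow_qq {t : ℝ} (ht : 0 ≤ t) : t ^ 5 ≤ qq (t ^ 2) ^ 10 := by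
  have h := pow_le_pow_left₀ ht (le_qq ht) 5
  rwa [← pow_mul] at h

/-- `∫ |∇χ|² ≤ π log S + C` -/
lemma int_grad {S : ℝ} (hS : 1 ≤ S) : ∫ x, ‖gradient (ch S) x‖ ^ 2 ≤
    Real.pi + Real.pi * Real.log (4 * S) + 4 * Real.pi * (K0 ^ 2 / 2 + 8) * 64 / 3 := by
  have hpi := Real.pi_pos
  have hK := K0_pos
  have hS0 : 0 < S := by linarith
  have e1 : ∀ x : E3, ‖gradient (ch S) x‖ ^ 2 = (fun t => 4 * Hd S (t ^ 2) ^ 2 * t ^ 2) ‖x‖ := by
    intro x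
    rw [ch_grad, norm_smul, mul_pow, Real.norm_eq_abs, sq_abs]
    ring
  simp only [e1]
  rw [int_radial (fun t => 4 * Hd S (t ^ 2) ^ 2 * t ^ 2)]
  have hnear : ∀ t, 0 < t → t ≤ 2 * S → t ^ 2 * (4 * Hd S (t ^ 2) ^ 2 * t ^ 2) =
      1/4 * (t ^ 4 / qq (t ^ 2) ^ 10) := by
    intro t ht h
    have h1 : t ^ 2 / (16 * S ^ 2) ≤ 1/4 := by
      rw [div_le_iff₀ (by positivity)]; nlinarith
    unfold Hd
    rw [sd_zero h1, st_zero h1]
    have hq := qq_pos (sq_nonneg t)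
    field_simp
    ring
  have hfar : ∀ t, 2 * S < t → t ≤ 4 * S → t ^ 2 * (4 * Hd S (t ^ 2) ^ 2 * t ^ 2) ≤
      (K0 ^ 2 / 2 + 8) / S ^ 3 * t ^ 2 := by
    intro t h1 h2
    have ht : 0 < t := by linarith
    have hq := qq_pos (sq_nonneg t)
    have hqS : S ≤ qq (t ^ 2) ^ 2 := by have := le_qq ht.le; linarith
    set q := qq (t ^ 2) with hqd
    have i1 : (q⁻¹) ^ 2 ≤ S⁻¹ := by
      rw [inv_pow]; exact inv_anti₀ hS0 hqS
    have i0 : 0 ≤ (q⁻¹) ^ 2 := sq_nonneg _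
    have i5 : ((q ^ 5)⁻¹) ^ 2 ≤ (S⁻¹) ^ 5 := by
      have e : ((q ^ 5)⁻¹) ^ 2 = ((q⁻¹) ^ 2) ^ 5 := by rw [← inv_pow]; ring
      rw [e]; exact pow_le_pow_left₀ i0 i1 5
    set D := sd (t ^ 2 / (16 * S ^ 2)) with hD
    have hD0 : 0 ≤ D := sd_nonneg _
    have hDK : D ≤ K0 := sd_le _
    set c := 1 - st (t ^ 2 / (16 * S ^ 2)) with hc
    have hc0 : 0 ≤ c := by have := st_le_one (t ^ 2 / (16 * S ^ 2)); linarith
    have hc1 : c ≤ 1 := by have := st_nonneg (t ^ 2 / (16 * S ^ 2)); linarith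
    have hHd : Hd S (t ^ 2) ^ 2 ≤ 2 * ((D / (16 * S ^ 2)) ^ 2 * (q⁻¹) ^ 2 +
        1/16 * ((q ^ 5)⁻¹) ^ 2) := by
      unfold Hd
      rw [← hD, ← hc, ← hqd]
      set A := D / (16 * S ^ 2) * q⁻¹ with hA
      set B := c * (1/4 * (q ^ 5)⁻¹) with hB
      have hB2 : B ^ 2 ≤ 1/16 * ((q ^ 5)⁻¹) ^ 2 := by
        rw [hB, mul_pow, mul_pow]
        have : c ^ 2 ≤ 1 := by nlinarith
        have h0 : 0 ≤ (1/4 : ℝ) ^ 2 * ((q ^ 5)⁻¹) ^ 2 := by positivity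
        nlinarith
      have e : -(D / (16 * S ^ 2)) * q⁻¹ + c * (-(1/4) * (q ^ 5)⁻¹) = -(A + B) := by
        rw [hA, hB]; ring
      rw [e, neg_sq]
      have hA2 : A ^ 2 = (D / (16 * S ^ 2)) ^ 2 * (q⁻¹) ^ 2 := by rw [hA, mul_pow]
      rw [← hA2]
      nlinarith [sq_nonneg (A - B)]
    have hD2 : (D / (16 * S ^ 2)) ^ 2 ≤ K0 ^ 2 / 256 * (S⁻¹) ^ 4 := by
      have : D / (16 * S ^ 2) ≤ K0 / (16 * S ^ 2) := by gcongr
      have h0 : 0 ≤ D / (16 * S ^ 2) := by positivity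
      refine (pow_le_pow_left₀ h0 this 2).trans (le_of_eq ?_)
      field_simp
      ring
    have hfin : Hd S (t ^ 2) ^ 2 ≤ (K0 ^ 2 / 128 + 1/8) * (S⁻¹) ^ 5 := by
      have h3 : (D / (16 * S ^ 2)) ^ 2 * (q⁻¹) ^ 2 ≤ K0 ^ 2 / 256 * (S⁻¹) ^ 4 * S⁻¹ :=
        mul_le_mul hD2 i1 i0 (by positivity)
      nlinarith
    have ht2 : t ^ 2 ≤ 16 * S ^ 2 := by nlinarith
    have h4 : 4 * Hd S (t ^ 2) ^ 2 * t ^ 2 ≤
        4 * ((K0 ^ 2 / 128 + 1/8) * (S⁻¹) ^ 5) * (16 * S ^ 2) := by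
      gcongr
    have h5 : 4 * ((K0 ^ 2 / 128 + 1/8) * (S⁻¹) ^ 5) * (16 * S ^ 2) =
        (K0 ^ 2 / 2 + 8) / S ^ 3 := by
      field_simp
      ring
    rw [h5] at h4
    have := mul_le_mul_of_nonneg_left h4 (sq_nonneg t)
    linarith
  have hzero : ∀ t, 4 * S < t → t ^ 2 * (4 * Hd S (t ^ 2) ^ 2 * t ^ 2) = 0 := by
    intro t h
    have h1 : 1 ≤ t ^ 2 / (16 * S ^ 2) := by
      rw [le_div_iff₀ (by positivity)]; nlinarith
    unfold Hd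
    rw [sd_one h1, st_one h1]
    simp
  have hcc : 0 ≤ (K0 ^ 2 / 2 + 8) / S ^ 3 := by positivity
  have h := (ioiB (f := fun t => t ^ 2 * (4 * Hd S (t ^ 2) ^ 2 * t ^ 2)) (T := 4 * S) (1/4) (1/4)
    ((K0 ^ 2 / 2 + 8) / S ^ 3) 0 0 (by linarith)
    (fun t ht => by positivity)
    (fun t ht ht1 => ?_) (fun t ht ht4 => ?_) (fun t ht => hzero t ht)).2
  · have h2 := mul_le_mul_of_nonneg_left h (show 0 ≤ 4 * Real.pi by positivity)
    refine h2.trans (le_of_eq ?_)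
    field_simp
    ring
  · have hr : 0 ≤ (K0 ^ 2 / 2 + 8) / S ^ 3 * t ^ 2 := by positivity
    show t ^ 2 * (4 * Hd S (t ^ 2) ^ 2 * t ^ 2) ≤ _
    rw [hnear t ht (by linarith)]
    have hq1 : 1 ≤ qq (t ^ 2) ^ 10 := one_le_pow₀ (qq_one (sq_nonneg t))
    have ht4 : t ^ 4 ≤ 1 := pow_le_one₀ ht.le ht1
    have : t ^ 4 / qq (t ^ 2) ^ 10 ≤ 1 := (div_le_one (by linarith)).2 (by linarith)
    linarith
  · have ht' : 0 < t := by linarith
    show t ^ 2 * (4 * Hd S (t ^ 2) ^ 2 * t ^ 2) ≤ _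
    rcases le_or_gt t (2 * S) with h | h
    · rw [hnear t ht' h]
      have hr : 0 ≤ (K0 ^ 2 / 2 + 8) / S ^ 3 * t ^ 2 := by positivity
      have h5 := pow_qq ht'.le
      have h6 : t ^ 4 / qq (t ^ 2) ^ 10 ≤ 1 / t := by
        rw [div_le_div_iff₀ (by have := pow_pos ht' 5; linarith) ht']
        linarith
      have e : 1/4 / t = 1/4 * (1 / t) := by ring
      rw [e]
      linarith
    · have := hfar t h ht4
      have h6 : 0 ≤ 1/4 / t := by positivity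
      linarith

/-- the nonlinear term -/
lemma nonlin {ρ q t s : ℝ} (hρ : 0 ≤ ρ) (hq : 0 ≤ q) (hq1 : q ≤ 1) (ht : 0 < t)
    (hts : t ^ (2/3 : ℝ) ≤ s) :
    3/5 / t * ((ρ + t * q) ^ (5/3 : ℝ) - ρ ^ (5/3 : ℝ)) ≤ 8/3 * ρ + 1/48 * q ^ 3 + s * q := by
  have h1 := (TFMin.tangent_le hρ (show 0 ≤ ρ + t * q by positivity)).1
  have h2 : 3/5 * ((ρ + t * q) ^ (5/3 : ℝ) - ρ ^ (5/3 : ℝ)) ≤ (ρ + t * q) ^ (2/3 : ℝ) * (t * q) := by
    have : (ρ + t * q) ^ (2/3 : ℝ) * (ρ - (ρ + t * q)) = -((ρ + t * q) ^ (2/3 : ℝ) * (t * q)) := by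
      ring
    rw [this] at h1
    linarith
  have h3 : (ρ + t * q) ^ (2/3 : ℝ) ≤ ρ ^ (2/3 : ℝ) + s := by
    refine (Real.rpow_add_le_add_rpow hρ (by positivity) (by norm_num) (by norm_num)).trans ?_
    rw [Real.mul_rpow ht.le hq]
    have h4 : q ^ (2/3 : ℝ) ≤ 1 := Real.rpow_le_one hq hq1 (by norm_num)
    have h5 : t ^ (2/3 : ℝ) * q ^ (2/3 : ℝ) ≤ t ^ (2/3 : ℝ) * 1 :=
      mul_le_mul_of_nonneg_left h4 (by positivity)
    linarith
  have h6 : 3/5 / t * ((ρ + t * q) ^ (5/3 : ℝ) - ρ ^ (5/3 : ℝ)) ≤ (ρ ^ (2/3 : ℝ) + s) * q := by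
    have h7 : 3/5 * ((ρ + t * q) ^ (5/3 : ℝ) - ρ ^ (5/3 : ℝ)) ≤ (ρ ^ (2/3 : ℝ) + s) * (t * q) :=
      h2.trans (mul_le_mul_of_nonneg_right h3 (by positivity))
    have h8 : 3/5 / t * ((ρ + t * q) ^ (5/3 : ℝ) - ρ ^ (5/3 : ℝ)) =
        3/5 * ((ρ + t * q) ^ (5/3 : ℝ) - ρ ^ (5/3 : ℝ)) / t := by ring
    rw [h8, div_le_iff₀ ht]
    linarith
  obtain ⟨y, hy, e1, -, e2⟩ := cube_root hρ
  rw [e2] at h6
  have h9 : y ^ 2 * q ≤ 1/48 * q ^ 3 + 8/3 * y ^ 3 := by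
    nlinarith [mul_nonneg (show 0 ≤ q + 8 * y by positivity) (sq_nonneg (q - 4 * y))]
  have h10 : 8/3 * ρ = 8/3 * y ^ 3 := by rw [← e1]
  linarith

/-- **upper bound of the dissipation** -/
theorem T_bound {z : ι → ℝ} (hz : ∀ j, 0 ≤ z j) {R : ι → E3} {ρ : E3 → ℝ} {g : E3 → E3}
    (h : TP ρ g)
    (hmin : ∀ σ k, TP σ k → ∫ x, σ x ≤ (∑ j, z j) + 1 → ET z R ρ g ≤ ET z R σ k)
    (hN : ∫ x, ρ x ≤ ∑ j, z j) :
    ∃ C : ℝ, ∀ S : ℝ, 200 ≤ S → ∫ x, DD ρ g (ch S) ((S ^ 3)⁻¹) x ≤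
      13/12 * Real.pi * Real.log S + C + ((∫ x, ρ x) - ∑ j, z j) * AA S := by
  have hpi := Real.pi_pos
  have hpi4 := Real.pi_lt_four
  refine ⟨Real.pi + Real.pi * Real.log 4 + 4 * Real.pi * (K0 ^ 2 / 2 + 8) * 64 / 3 +
    (8/3 * (∫ x, ρ x) + 1/48 * (4 * Real.pi * (1 + Real.log 4)) + 32 * Real.pi) +
    (∑ j, z j * (4 * Real.pi * ‖R j‖)) + 256 * Real.pi ^ 2, fun S hS => ?_⟩
  have hS1 : 1 ≤ S := by linarith
  have hS0 : 0 < S := by linarith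
  set t : ℝ := (S ^ 3)⁻¹ with ht
  have ht0 : 0 < t := by positivity
  have hsq := int_sq hS1
  have hsq0 : 0 ≤ ∫ x, ch S x ^ 2 := integral_nonneg fun x => sq_nonneg _
  have hm : (∫ x, ρ x) + t * ∫ x, ch S x ^ 2 ≤ (∑ j, z j) + 1 := by
    have h1 : t * ∫ x, ch S x ^ 2 ≤ 1 := by
      calc t * ∫ x, ch S x ^ 2 ≤ t * (32 * Real.pi * S ^ 2) := mul_le_mul_of_nonneg_left hsq ht0.le
        _ = 32 * Real.pi / S := by rw [ht]; field_simp
        _ ≤ 1 := (div_le_one hS0).2 (by linarith)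
    linarith
  have hv := variation h hmin (χ := ch S) ((ch_smooth S).of_le (by exact_mod_cast le_top))
    (ch_supp hS1) ht0 hm
  have hcc := (ch_smooth S).continuous
  have hq := nice_sqt hcc (ch_supp hS1)
  -- gradient
  have g1 := int_grad hS1
  -- logarithm
  have hlog : Real.log (4 * S) = Real.log 4 + Real.log S := Real.log_mul (by norm_num) hS0.ne'
  have hlS : 0 ≤ Real.log S := Real.log_nonneg hS1
  -- nonlinear term
  have hts : t ^ (2/3 : ℝ) ≤ (S ^ 2)⁻¹ := by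
    rw [ht, Real.inv_rpow (by positivity), ← Real.rpow_natCast S 3, ← Real.rpow_mul hS0.le]
    norm_num
  have g2 : 3/5 / t * (∫ x, ((ρ x + t * ch S x ^ 2) ^ (5/3 : ℝ) - ρ x ^ (5/3 : ℝ))) ≤
      8/3 * (∫ x, ρ x) + 1/48 * (4 * Real.pi * (1 + Real.log (4 * S))) + 32 * Real.pi := by
    have hnew : MD (fun x => ρ x + t * ch S x ^ 2) :=
      Nice.md (nice_add h.md.nice (nice_mul t hq)) fun x => by
        have := h.md.nonneg x; positivity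
    have c6 : Continuous (fun x => (ch S x ^ 2) ^ 3) := (hcc.pow 2).pow 3
    have s6 : HasCompactSupport (fun x => (ch S x ^ 2) ^ 3) := by
      refine (ch_supp hS1).mono fun x hx => ?_
      rw [Function.mem_support] at hx ⊢
      intro h0; apply hx; rw [h0]; norm_num
    have i6 := c6.integrable_of_hasCompactSupport s6 (μ := volume)
    have iA : Integrable (fun x => 8/3 * ρ x + 1/48 * (ch S x ^ 2) ^ 3) :=
      (h.md.int.const_mul _).add (i6.const_mul _)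
    have iB : Integrable (fun x => (S ^ 2)⁻¹ * ch S x ^ 2) := hq.2.1.const_mul _
    have h1 : ∫ x, 3/5 / t * ((ρ x + t * ch S x ^ 2) ^ (5/3 : ℝ) - ρ x ^ (5/3 : ℝ)) ≤
        ∫ x, ((8/3 * ρ x + 1/48 * (ch S x ^ 2) ^ 3) + (S ^ 2)⁻¹ * ch S x ^ 2) :=
      integral_mono ((hnew.int_pow.sub h.md.int_pow).const_mul _) (iA.add iB) fun x =>
        nonlin (h.md.nonneg x) (sq_nonneg _) (pp_le_one S ‖x‖) ht0 hts
    rw [integral_add iA iB, integral_add (h.md.int.const_mul _) (i6.const_mul _)] at h1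
    simp only [integral_const_mul] at h1
    have h2 := int_six hS1
    have h3 : (S ^ 2)⁻¹ * ∫ x, ch S x ^ 2 ≤ 32 * Real.pi := by
      calc (S ^ 2)⁻¹ * ∫ x, ch S x ^ 2 ≤ (S ^ 2)⁻¹ * (32 * Real.pi * S ^ 2) :=
            mul_le_mul_of_nonneg_left hsq (by positivity)
        _ = 32 * Real.pi := by field_simp
    linarith
  -- potentials
  have g3 : ∑ j, z j * AA S - ∑ j, z j * (4 * Real.pi * ‖R j‖) ≤
      ∑ j, z j * pot (fun x => ch S x ^ 2) (R j) := by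
    rw [← Finset.sum_sub_distrib]
    refine Finset.sum_le_sum fun j _ => ?_
    have := mul_le_mul_of_nonneg_left (pot_ch_ge hS1 (R j)) (hz j)
    linarith
  rw [← Finset.sum_mul] at g3
  have g4 : ∫ x, ρ x * pot (fun x => ch S x ^ 2) x ≤ (∫ x, ρ x) * AA S := by
    rw [← integral_mul_const]
    refine integral_mono (pd_int ρ _ h.md.nice hq) (h.md.int.mul_const _) fun x =>
      mul_le_mul_of_nonneg_left (pot_ch_le hS1 x) (h.md.nonneg x)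
  have g5 : ∫ x, ch S x ^ 2 * pot (fun x => ch S x ^ 2) x ≤ 512 * Real.pi ^ 2 * S ^ 3 := by
    have h1 : ∫ x, ch S x ^ 2 * pot (fun x => ch S x ^ 2) x ≤ (∫ x, ch S x ^ 2) * AA S := by
      rw [← integral_mul_const]
      refine integral_mono (pd_int _ _ hq hq) (hq.2.1.mul_const _) fun x =>
        mul_le_mul_of_nonneg_left (pot_ch_le hS1 x) (sq_nonneg _)
    have h2 := (AA_int hS1).2
    have h3 : 0 ≤ AA S := (by positivity : 0 ≤ 2 * Real.pi * S).trans (AA_ge hS1)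
    have h4 : (∫ x, ch S x ^ 2) * AA S ≤ (32 * Real.pi * S ^ 2) * (16 * Real.pi * S) :=
      mul_le_mul hsq h2 h3 (by positivity)
    refine h1.trans (h4.trans (le_of_eq ?_))
    ring
  have g6 : t / 2 * ∫ x, ch S x ^ 2 * pot (fun x => ch S x ^ 2) x ≤ 256 * Real.pi ^ 2 := by
    calc t / 2 * ∫ x, ch S x ^ 2 * pot (fun x => ch S x ^ 2) x ≤
        t / 2 * (512 * Real.pi ^ 2 * S ^ 3) := mul_le_mul_of_nonneg_left g5 (by positivity)
      _ = 256 * Real.pi ^ 2 := by rw [ht]; field_simp; norm_num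
  rw [hlog] at g1 g2
  have e1 : ((∫ x, ρ x) - ∑ j, z j) * AA S = (∫ x, ρ x) * AA S - (∑ j, z j) * AA S := by ring
  rw [e1]
  have e2 : 13/12 * Real.pi * Real.log S = Real.pi * Real.log S +
    1/48 * (4 * Real.pi * Real.log S) := by ring
  rw [e2]
  linarith

end Pool.Agent.Run7.h828.TFW
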