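import Pool.Agent.Run7.h828.TFW.E3

/-!
# Translation of minimisers; the mass is at least `Z`; density points
-/

set_option autoImplicit false

open MeasureTheory Filter Topology Set
open scoped ENNReal NNReal ContDiff

namespace Pool.Agent.Run7.h828.TFW

open Pool.Agent.TH791.Cl Pool.Agent.TH791.Nw Pool.Agent.R999.Pot Pool.Agent.R999.MinP
open Pool.Agent.R999.Newton Pool.Agent.R999 Pool.Agent.R999.Ex

variable {ι : Type*} [Fintype ι]

lemma TP.translate {ρ : E3 → ℝ} {g : E3 → E3} (h : TP ρ g) (y : E3) :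
    TP (fun x => ρ (x + y)) (fun x => g (x + y)) := by
  refine ⟨⟨h.md.meas.comp (measurable_id.add_const y), fun x => h.md.nonneg _,
    h.md.int.comp_add_right y, h.md.int_pow.comp_add_right y⟩, ?_, h.wk.translate y⟩
  exact h.g2.comp_measurePreserving (measurePreserving_add_right volume y)

lemma pot_translate (ρ : E3 → ℝ) (x y : E3) : pot (fun x => ρ (x + y)) x = pot ρ (x + y) := by
  unfold pot
  rw [← integral_add_right_eq_self (fun u => ρ u / ‖x + y - u‖) y]
  congr 1; funext u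
  rw [add_sub_add_right_eq_sub]

lemma ET_translate (z : ι → ℝ) (R : ι → E3) (ρ : E3 → ℝ) (g : E3 → E3) (y : E3) :
    ET z (fun j => R j - y) (fun x => ρ (x + y)) (fun x => g (x + y)) = ET z R ρ g := by
  unfold ET En
  simp only [pot_translate, sub_add_cancel]
  rw [integral_add_right_eq_self (fun x => ‖g x‖ ^ 2) y,
    integral_add_right_eq_self (fun x => ρ x ^ (5/3 : ℝ)) y,
    integral_add_right_eq_self (fun x => ρ x * pot ρ x) y]

lemma min_translate {z : ι → ℝ} {R : ι → E3} {m : ℝ} {ρ : E3 → ℝ} {g : E3 → E3}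
    (hmin : ∀ σ k, TP σ k → ∫ x, σ x ≤ m → ET z R ρ g ≤ ET z R σ k) (y : E3) :
    ∀ σ k, TP σ k → ∫ x, σ x ≤ m →
      ET z (fun j => R j - y) (fun x => ρ (x + y)) (fun x => g (x + y)) ≤
      ET z (fun j => R j - y) σ k := by
  intro σ k hσ hm
  rw [ET_translate]
  have h1 := hmin (fun x => σ (x + -y)) (fun x => k (x + -y)) (hσ.translate (-y)) (by
    rw [integral_add_right_eq_self σ (-y)]; exact hm)
  have h2 := ET_translate z (fun j => R j - y) σ k (-y)
  have e : (fun j => R j - y - -y) = R := by funext j; simp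
  rw [e] at h2
  rwa [h2] at h1

lemma quad_false {a b c : ℝ} (ha : 0 < a) (u0 : ℝ) (h : ∀ u : ℝ, u0 ≤ u → a * u ^ 2 ≤ b * u + c) :
    False := by
  set u := max (max u0 1) ((|b| + |c| + 1) / a) with hu
  have h1 : u0 ≤ u := (le_max_left _ _).trans (le_max_left _ _)
  have h2 : 1 ≤ u := (le_max_right _ _).trans (le_max_left _ _)
  have h3 : (|b| + |c| + 1) / a ≤ u := le_max_right _ _
  have h4 := h u h1
  rw [div_le_iff₀ ha] at h3
  have hb := le_abs_self b
  have hc := le_abs_self c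
  have hc0 := abs_nonneg c
  have h5 : (|b| + |c| + 1) * u ≤ u * a * u := mul_le_mul_of_nonneg_right h3 (by linarith)
  have h6 : b * u ≤ |b| * u := mul_le_mul_of_nonneg_right hb (by linarith)
  have h7 : |c| ≤ |c| * u := le_mul_of_one_le_right hc0 h2
  nlinarith

/-- the mass cannot be smaller than `Z` -/
theorem mass_ge {z : ι → ℝ} (hz : ∀ j, 0 ≤ z j) {R : ι → E3} {ρ : E3 → ℝ} {g : E3 → E3}
    (h : TP ρ g)
    (hmin : ∀ σ k, TP σ k → ∫ x, σ x ≤ (∑ j, z j) + 1 → ET z R ρ g ≤ ET z R σ k)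
    (hN : ∫ x, ρ x ≤ ∑ j, z j) : ∑ j, z j ≤ ∫ x, ρ x := by
  by_contra hlt
  push Not at hlt
  have hpi := Real.pi_pos
  obtain ⟨C, hC⟩ := T_bound hz h hmin hN
  have hpos : 0 < (∑ j, z j) - ∫ x, ρ x := by linarith
  refine quad_false (a := ((∑ j, z j) - ∫ x, ρ x) * (2 * Real.pi)) (b := 13/12 * Real.pi * 2)
    (c := C) (by positivity) 200 fun u hu => ?_
  have hu1 : 1 ≤ u := by linarith
  have hS : 200 ≤ u ^ 2 := by nlinarith
  have h1 := hC (u ^ 2) hS
  have h2 : 0 ≤ ∫ x, DD ρ g (ch (u ^ 2)) (((u ^ 2) ^ 3)⁻¹) x :=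
    integral_nonneg fun x => DD_nonneg h.md.nonneg g _ (by positivity) x
  have h3 := AA_ge (show 1 ≤ u ^ 2 by nlinarith)
  have h4 : Real.log (u ^ 2) ≤ 2 * u := by
    rw [Real.log_pow]
    have := Real.log_le_sub_one_of_pos (show 0 < u by linarith)
    push_cast
    linarith
  have h5 := mul_le_mul_of_nonneg_left h3 hpos.le
  have h6 := mul_le_mul_of_nonneg_left h4 (show 0 ≤ 13/12 * Real.pi by positivity)
  linarith

/-- existence of a density point of a superlevel set -/
theorem density {ρ : E3 → ℝ} (hm : Measurable ρ) (h0 : ∀ x, 0 ≤ ρ x) (hpos : 0 < ∫ x, ρ x)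
    {θ : ℝ} (hθ : 0 < θ) : ∃ (δ : ℝ) (y : E3) (ε : ℝ), 0 < δ ∧ 0 < ε ∧ ε ≤ 1 ∧
      volume.real (Metric.closedBall y ε \ {x | δ ≤ ρ x}) ≤
        θ * volume.real (Metric.closedBall y ε) := by
  -- a superlevel set of positive measure
  have hex : ∃ δ : ℝ, 0 < δ ∧ volume {x | δ ≤ ρ x} ≠ 0 := by
    by_contra hcon
    push Not at hcon
    have hae : ∀ᵐ x, ρ x = 0 := by
      have h1 : ∀ n : ℕ, ∀ᵐ x, ρ x < 1 / ((n:ℝ) + 1) := by
        intro n
        have := hcon (1 / ((n:ℝ) + 1)) (by positivity)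
        rw [ae_iff]
        simpa only [not_lt] using this
      filter_upwards [ae_all_iff.2 h1] with x hx
      by_contra hne
      have hp : 0 < ρ x := lt_of_le_of_ne (h0 x) (Ne.symm hne)
      obtain ⟨n, hn⟩ := exists_nat_one_div_lt hp
      exact absurd (hx n) (not_lt.2 hn.le)
    have : ∫ x, ρ x = 0 := by rw [integral_congr_ae hae]; simp
    linarith
  obtain ⟨δ, hδ, hv⟩ := hex
  set s := {x | δ ≤ ρ x} with hs
  have hsm : MeasurableSet s := measurableSet_le measurable_const hm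
  have hd := Besicovitch.ae_tendsto_measure_inter_div (volume : Measure E3) s
  have hne : (volume.restrict s : Measure E3) ≠ 0 := by
    intro h; rw [Measure.restrict_eq_zero] at h; exact hv h
  haveI : NeBot (ae (volume.restrict s : Measure E3)) := ae_neBot.2 hne
  obtain ⟨y, hy⟩ := hd.exists
  -- real version
  have hlt : (ENNReal.ofReal (1 - θ)) < 1 := by
    rw [← ENNReal.ofReal_one]
    exact (ENNReal.ofReal_lt_ofReal_iff one_pos).2 (by linarith)
  have h1 := hy.eventually_const_lt hlt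
  have h2 : ∀ᶠ r : ℝ in 𝓝[>] (0:ℝ), 0 < r ∧ r ≤ 1 := by
    have : Ioc (0:ℝ) 1 ∈ 𝓝[>] (0:ℝ) := Ioc_mem_nhdsGT one_pos
    filter_upwards [this] with r hr using hr
  obtain ⟨ε, hε1, hε2, hε3⟩ := (h1.and h2).exists
  refine ⟨δ, y, ε, hδ, hε2, hε3, ?_⟩
  have hB0 : volume (Metric.closedBall y ε) ≠ 0 := (Metric.measure_closedBall_pos _ y hε2).ne'
  have hBt : volume (Metric.closedBall y ε) ≠ ⊤ := measure_closedBall_lt_top.ne
  rw [ENNReal.lt_div_iff_mul_lt (Or.inl hB0) (Or.inl hBt)] at hε1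
  have h3 : (1 - θ) * volume.real (Metric.closedBall y ε) ≤
      volume.real (s ∩ Metric.closedBall y ε) := by
    have h4 : (s ∩ Metric.closedBall y ε) ⊆ Metric.closedBall y ε := inter_subset_right
    have h5 : volume (s ∩ Metric.closedBall y ε) ≠ ⊤ := measure_ne_top_of_subset h4 hBt
    have h6 := ENNReal.toReal_mono h5 hε1.le
    rw [ENNReal.toReal_mul] at h6
    refine le_trans ?_ h6
    exact mul_le_mul_of_nonneg_right (by rw [ENNReal.toReal_ofReal']; exact le_max_left _ _)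
      ENNReal.toReal_nonneg
  have h7 : volume.real (Metric.closedBall y ε \ s) =
      volume.real (Metric.closedBall y ε) - volume.real (s ∩ Metric.closedBall y ε) := by
    have := measureReal_inter_add_diff (μ := (volume : Measure E3)) (s := Metric.closedBall y ε)
      hsm hBt
    rw [inter_comm] at this
    linarith
  rw [h7]
  linarith

end Pool.Agent.Run7.h828.TFW
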