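import Pool.Agent.Run7.h828.TFW.E4

/-!
# The logarithmic test function
-/

set_option autoImplicit false

open MeasureTheory Filter Topology Set
open scoped ENNReal NNReal ContDiff

namespace Pool.Agent.Run7.h828.TFW

open Pool.Agent.TH791.Cl Pool.Agent.TH791.Nw Pool.Agent.R999.Pot Pool.Agent.R999.MinP
open Pool.Agent.R999.Newton Pool.Agent.R999 Pool.Agent.R999.Ex

lemma qq_three {s : ℝ} (hs : 0 ≤ s) : (1 + s) ^ (-(3/4) : ℝ) = (qq s ^ 3)⁻¹ := by
  unfold qq
  rw [Real.rpow_neg (by linarith), ← Real.rpow_natCast _ 3, ← Real.rpow_mul (by linarith)]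
  norm_num

lemma qq_der {s : ℝ} (hs : 0 ≤ s) : HasDerivAt qq (1/4 * (qq s ^ 3)⁻¹) s := by
  have h1 : HasDerivAt (fun s : ℝ => 1 + s) 1 s := (hasDerivAt_id s).const_add 1
  have h2 := h1.rpow_const (p := ((1/4) : ℝ)) (Or.inl (by linarith))
  refine h2.congr_deriv ?_
  rw [← qq_three hs]
  norm_num

/-- `c (1+|x|²)^{1/4}` -/
noncomputable def VV (c : ℝ) (x : E3) : ℝ := c * qq (‖x‖ ^ 2)

lemma VV_smooth (c : ℝ) : ContDiff ℝ ∞ (VV c) := by
  unfold VV qq
  refine contDiff_const.mul (ContDiff.rpow_const_of_ne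
    (contDiff_const.add (contDiff_norm_sq ℝ)) fun x => ?_)
  positivity

lemma VV_pos {c : ℝ} (hc : 0 < c) (x : E3) : 0 < VV c x := mul_pos hc (qq_pos (by positivity))

lemma VV_grad (c : ℝ) (x : E3) :
    gradient (VV c) x = (2 * (c * (1/4 * (qq (‖x‖ ^ 2) ^ 3)⁻¹))) • x :=
  radial_grad (H := fun s => c * qq s) ((qq_der (by positivity)).const_mul c)

lemma arsinh_lip (a b : ℝ) : |Real.arsinh a - Real.arsinh b| ≤ |a - b| := by
  have h := Convex.norm_image_sub_le_of_norm_deriv_le (f := Real.arsinh) (s := univ) (C := 1)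
    (x := b) (y := a) (fun x _ => Real.differentiable_arsinh x) (fun x _ => ?_) convex_univ
    (mem_univ _) (mem_univ _)
  · simpa using h
  · rw [(Real.hasDerivAt_arsinh x).deriv, norm_inv, Real.norm_of_nonneg (Real.sqrt_nonneg _)]
    exact inv_le_one_of_one_le₀ (Real.one_le_sqrt.2 (by nlinarith [sq_nonneg x]))

/-- the coefficient `1/√(1+(aV)²)` -/
noncomputable def cf (c a : ℝ) (x : E3) : ℝ := (√(1 + (a * VV c x) ^ 2))⁻¹

lemma cf_pos (c a : ℝ) (x : E3) : 0 < cf c a x :=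
  inv_pos.2 (Real.sqrt_pos.2 (by positivity))

lemma cf_le_one (c a : ℝ) (x : E3) : cf c a x ≤ 1 :=
  inv_le_one_of_one_le₀ (Real.one_le_sqrt.2 (by nlinarith [sq_nonneg (a * VV c x)]))

lemma cf_mul {c : ℝ} (hc : 0 < c) (a : ℝ) (x : E3) : cf c a x * |a| ≤ (VV c x)⁻¹ := by
  have hV := VV_pos hc x
  unfold cf
  have hs : 0 < √(1 + (a * VV c x) ^ 2) := Real.sqrt_pos.2 (by positivity)
  rw [inv_mul_eq_div, div_le_iff₀ hs, inv_mul_eq_div, le_div_iff₀ hV]
  have e : |a| * VV c x = |a * VV c x| := by rw [abs_mul, abs_of_pos hV]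
  rw [e]
  exact Real.abs_le_sqrt (by linarith)

lemma crf_log {c : ℝ} (hc : 0 < c) : CRF (fun a _ x => Real.arsinh (a * VV c x))
    (fun a _ x => cf c a x * VV c x) (fun _ _ _ => 0)
    (fun a _ x => (cf c a x * a) • gradient (VV c) x) := by
  have hVc := (VV_smooth c).continuous
  have hgc := grad_cont ((VV_smooth c).of_le (by exact_mod_cast le_top))
  have hVc' : Continuous (fun p : ℝ × ℝ × E3 => VV c p.2.2) :=
    hVc.comp (continuous_snd.comp continuous_snd)
  have hgc' : Continuous (fun p : ℝ × ℝ × E3 => gradient (VV c) p.2.2) :=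
    hgc.comp (continuous_snd.comp continuous_snd)
  have hcf : Continuous (fun p : ℝ × ℝ × E3 => cf c p.1 p.2.2) := by
    unfold cf
    refine Continuous.inv₀ (Real.continuous_sqrt.comp (continuous_const.add
      ((continuous_fst.mul hVc').pow 2))) fun p => (Real.sqrt_pos.2 ?_).ne'
    positivity
  refine ⟨Real.continuous_arsinh.comp (continuous_fst.mul hVc'), hcf.mul hVc', continuous_const,
    (hcf.mul continuous_fst).smul hgc', ?_, ?_⟩
  · intro w₁ w₂ x h1 _
    have hV : HasFDerivAt (VV c) (fderiv ℝ (VV c) x) x :=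
      ((VV_smooth c).differentiable (by simp) x).hasFDerivAt
    have hd := (h1.hasFDerivAt.mul hV).arsinh
    refine hd.congr_fderiv (ContinuousLinearMap.ext fun v => ?_)
    have hi : inner ℝ (gradient (VV c) x) v = fderiv ℝ (VV c) x v := inner_gradient_left
    simp only [Pi.mul_apply, add_apply, smul_apply, smul_eq_mul, innerSL_apply_apply,
      real_inner_smul_left, hi, cf]
    ring
  · intro K hK
    obtain ⟨C1, hC1⟩ := hK.exists_bound_of_continuousOn hVc.continuousOn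
    obtain ⟨C2, hC2⟩ := hK.exists_bound_of_continuousOn
      (f := fun x => (VV c x)⁻¹ * ‖gradient (VV c) x‖)
      ((hVc.inv₀ fun x => (VV_pos hc x).ne').mul hgc.norm).continuousOn
    refine ⟨max C1 0 + max C2 0, by positivity, fun x hx a b a' b' => ⟨?_, ?_, ?_, ?_⟩⟩
    · have hV := VV_pos hc x
      have h1 := hC1 x hx
      rw [Real.norm_of_nonneg hV.le] at h1
      refine (arsinh_lip _ _).trans ?_
      rw [← sub_mul, abs_mul, abs_of_pos hV, mul_comm]
      have h2 : VV c x ≤ max C1 0 + max C2 0 :=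
        h1.trans ((le_max_left _ _).trans (le_add_of_nonneg_right (le_max_right _ _)))
      refine mul_le_mul h2 (le_add_of_nonneg_right (abs_nonneg _)) (abs_nonneg _) (by positivity)
    · have hV := VV_pos hc x
      have h1 := hC1 x hx
      rw [Real.norm_of_nonneg hV.le] at h1
      show |cf c a x * VV c x| ≤ _
      rw [abs_of_pos (mul_pos (cf_pos c a x) hV)]
      have h2 : cf c a x * VV c x ≤ VV c x := mul_le_of_le_one_left hV.le (cf_le_one c a x)
      exact h2.trans (h1.trans ((le_max_left _ _).trans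
        (le_add_of_nonneg_right (le_max_right _ _))))
    · simp only [abs_zero]; positivity
    · have h1 := hC2 x hx
      rw [Real.norm_of_nonneg (mul_nonneg (inv_nonneg.2 (VV_pos hc x).le) (norm_nonneg _))] at h1
      show ‖(cf c a x * a) • gradient (VV c) x‖ ≤ _
      rw [norm_smul, Real.norm_eq_abs, abs_mul, abs_of_pos (cf_pos c a x)]
      have h2 := mul_le_mul_of_nonneg_right (cf_mul hc a x) (norm_nonneg (gradient (VV c) x))
      exact h2.trans (h1.trans ((le_max_left _ _).trans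
        (le_add_of_nonneg_left (le_max_right _ _))))

/-- the logarithmic function -/
noncomputable def GG (c : ℝ) (ρ : E3 → ℝ) (x : E3) : ℝ := Real.arsinh (√(ρ x) * VV c x)

/-- its gradient -/
noncomputable def gG (c : ℝ) (ρ : E3 → ℝ) (g : E3 → E3) (x : E3) : E3 :=
  (cf c (√(ρ x)) x * VV c x) • g x + (cf c (√(ρ x)) x * √(ρ x)) • gradient (VV c) x

theorem GG_wg {ρ : E3 → ℝ} {g : E3 → E3} (h : TP ρ g) {c : ℝ} (hc : 0 < c) :
    WG (GG c ρ) (gG c ρ g) := by
  have hz : WG (fun _ : E3 => (0:ℝ)) (fun _ => (0:E3)) := by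
    intro φ _ _ v; simp
  have h1 := chain (crf_log hc) h.sq h.g2 h.wk (MemLp.zero (p := 2)) (MemLp.zero (p := 2)) hz
  have e : gG c ρ g = fun x => (cf c (√(ρ x)) x * VV c x) • g x + (0:ℝ) • (0:E3) +
      (cf c (√(ρ x)) x * √(ρ x)) • gradient (VV c) x := by
    funext x; simp [gG]
  rw [e]
  exact h1

lemma GG_nonneg {ρ : E3 → ℝ} {c : ℝ} (hc : 0 < c) (x : E3) : 0 ≤ GG c ρ x :=
  Real.arsinh_nonneg_iff.2 (mul_nonneg (Real.sqrt_nonneg _) (VV_pos hc x).le)

lemma arsinh_log {u : ℝ} (hu : 0 < u) : Real.log (2 * u) ≤ Real.arsinh u := by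
  unfold Real.arsinh
  refine Real.log_le_log (by positivity) ?_
  have : u ≤ √(1 + u ^ 2) := Real.le_sqrt_of_sq_le (by linarith)
  linarith

lemma arsinh_up {u l : ℝ} (hu : 0 ≤ u) (hl : 0 < l) :
    Real.arsinh u ≤ Real.log l + (1 + 2 * u) / l := by
  unfold Real.arsinh
  have h1 : √(1 + u ^ 2) ≤ 1 + u := Real.sqrt_le_iff.2 ⟨by positivity, by nlinarith⟩
  have h2 : 0 < u + √(1 + u ^ 2) := by
    have : 0 < √(1 + u ^ 2) := Real.sqrt_pos.2 (by positivity)
    linarith
  have h3 : Real.log (u + √(1 + u ^ 2)) ≤ Real.log (1 + 2 * u) :=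
    Real.log_le_log h2 (by linarith)
  have h4 : Real.log (1 + 2 * u) = Real.log l + Real.log ((1 + 2 * u) / l) := by
    rw [← Real.log_mul hl.ne' (by positivity)]
    congr 1
    field_simp
  have h5 : Real.log ((1 + 2 * u) / l) ≤ (1 + 2 * u) / l - 1 :=
    Real.log_le_sub_one_of_pos (by positivity)
  linarith

lemma GG_meas {ρ : E3 → ℝ} (hm : Measurable ρ) (c : ℝ) : Measurable (GG c ρ) := by
  unfold GG
  exact Real.continuous_arsinh.measurable.comp (hm.sqrt.mul (VV_smooth c).continuous.measurable)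

lemma arsinh_le_self {u : ℝ} (hu : 0 ≤ u) : Real.arsinh u ≤ u := by
  have := arsinh_lip u 0
  rw [Real.arsinh_zero, sub_zero, sub_zero, abs_of_nonneg hu] at this
  exact (le_abs_self _).trans this

/-- local integrability -/
lemma GG_int {ρ : E3 → ℝ} {g : E3 → E3} (h : TP ρ g) {c : ℝ} (hc : 0 < c) {φ : E3 → ℝ}
    (hφ : Continuous φ) (hs : HasCompactSupport φ) : Integrable (fun x => GG c ρ x * φ x) := by
  have hVc := (VV_smooth c).continuous
  have h1 := mul_int2 h.sq (cc_memLp (hVc.mul hφ) hs.mul_left)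
  refine h1.norm.mono' ((GG_meas h.md.meas c).aestronglyMeasurable.mul hφ.aestronglyMeasurable)
    (ae_of_all _ fun x => ?_)
  show ‖GG c ρ x * φ x‖ ≤ ‖√(ρ x) * (VV c x * φ x)‖
  rw [norm_mul, Real.norm_of_nonneg (GG_nonneg hc x), norm_mul, norm_mul,
    Real.norm_of_nonneg (Real.sqrt_nonneg _), Real.norm_of_nonneg (VV_pos hc x).le, ← mul_assoc]
  exact mul_le_mul_of_nonneg_right (arsinh_le_self
    (mul_nonneg (Real.sqrt_nonneg _) (VV_pos hc x).le)) (norm_nonneg _)

lemma gG_meas {ρ : E3 → ℝ} {g : E3 → E3} (h : TP ρ g) (c : ℝ) :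
    AEStronglyMeasurable (gG c ρ g) volume := by
  have hVm := (VV_smooth c).continuous.measurable
  have hgc := grad_cont ((VV_smooth c).of_le (by exact_mod_cast le_top))
  have hcf : Measurable (fun x => cf c (√(ρ x)) x) := by
    unfold cf
    exact (((h.md.meas.sqrt.mul hVm).pow_const 2).const_add 1).sqrt.inv
  exact ((hcf.mul hVm).aestronglyMeasurable.smul h.g2.1).add
    ((hcf.mul h.md.meas.sqrt).aestronglyMeasurable.smul hgc.aestronglyMeasurable)

lemma gG_int {ρ : E3 → ℝ} {g : E3 → E3} (h : TP ρ g) {c : ℝ} (hc : 0 < c) {F : E3 → E3}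
    (hF : Continuous F) (hs : HasCompactSupport F) :
    Integrable (fun x => (inner ℝ (gG c ρ g x) (F x) : ℝ)) := by
  have hVc := (VV_smooth c).continuous
  have hgc := grad_cont ((VV_smooth c).of_le (by exact_mod_cast le_top))
  have m1 : MemLp (fun x => VV c x * ‖F x‖) 2 volume :=
    cc_memLp (hVc.mul hF.norm) hs.norm.mul_left
  have m2 : MemLp (fun x => ‖gradient (VV c) x‖ * ‖F x‖) 2 volume :=
    cc_memLp (hgc.norm.mul hF.norm) hs.norm.mul_left
  have h1 := (mul_int2 h.g2.norm m1).add (mul_int2 h.sq m2)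
  refine h1.mono' ((gG_meas h c).inner hF.aestronglyMeasurable) (ae_of_all _ fun x => ?_)
  refine (norm_inner_le_norm _ _).trans ?_
  show ‖gG c ρ g x‖ * ‖F x‖ ≤ ‖g x‖ * (VV c x * ‖F x‖) +
    √(ρ x) * (‖gradient (VV c) x‖ * ‖F x‖)
  have hV := VV_pos hc x
  have hcf0 := cf_pos c (√(ρ x)) x
  have hcf1 := cf_le_one c (√(ρ x)) x
  have h2 : ‖gG c ρ g x‖ ≤ VV c x * ‖g x‖ + √(ρ x) * ‖gradient (VV c) x‖ := by
    unfold gG
    refine (norm_add_le _ _).trans ?_
    rw [norm_smul, norm_smul, Real.norm_of_nonneg (by positivity),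
      Real.norm_of_nonneg (by positivity)]
    refine add_le_add (mul_le_mul_of_nonneg_right (mul_le_of_le_one_left hV.le hcf1)
      (norm_nonneg _)) (mul_le_mul_of_nonneg_right
      (mul_le_of_le_one_left (Real.sqrt_nonneg _) hcf1) (norm_nonneg _))
  have h3 := mul_le_mul_of_nonneg_right h2 (norm_nonneg (F x))
  linarith

/-- the relation between `∇G` and the dissipation -/
lemma DD_gG {ρ : E3 → ℝ} (h0 : ∀ x, 0 ≤ ρ x) (g : E3 → E3) {S t c : ℝ} (hS : 1 ≤ S) (ht : 0 < t)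
    (hc : 0 < c) (hct : c ^ 2 * t = 1) {x : E3} (hx : ‖x‖ ≤ 2 * S) :
    DD ρ g (ch S) t x = (qq (‖x‖ ^ 2) ^ 2)⁻¹ * ‖gG c ρ g x‖ ^ 2 := by
  have hq := qq_pos (show 0 ≤ ‖x‖ ^ 2 by positivity)
  set q := qq (‖x‖ ^ 2) with hqd
  have hom : om x = q⁻¹ := qq_inv (by positivity)
  set W : E3 := g x + (√(ρ x) * (1/2 * (q ^ 4)⁻¹)) • x with hW
  have e1 : om x • g x - √(ρ x) • gradient om x = q⁻¹ • W := by
    rw [om_grad, hom, ← hqd, hW, smul_add, smul_smul, smul_smul, sub_eq_add_neg, ← neg_smul]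
    congr 2
    field_simp
    ring
  have e2 : gG c ρ g x = (cf c (√(ρ x)) x * (c * q)) • W := by
    unfold gG
    rw [VV_grad, hW, smul_add, smul_smul, smul_smul]
    unfold VV
    rw [← hqd]
    congr 2
    field_simp
    ring
  have hcf : cf c (√(ρ x)) x ^ 2 = (1 + ρ x * (c * q) ^ 2)⁻¹ := by
    unfold cf VV
    rw [inv_pow, Real.sq_sqrt (by positivity), mul_pow, Real.sq_sqrt (h0 x)]
  unfold DD
  rw [ch_eq hS hx, grad_eq hS hx, e1, e2, norm_smul, norm_smul, mul_pow, mul_pow,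
    Real.norm_eq_abs, Real.norm_eq_abs, sq_abs, sq_abs, mul_pow, hcf, hom]
  have hρ := h0 x
  have hc2 : c ^ 2 = t⁻¹ := by field_simp; linarith
  have hd1 : 0 < ρ x + t * q⁻¹ ^ 2 := by positivity
  have hd2 : 0 < 1 + ρ x * (c * q) ^ 2 := by positivity
  rw [mul_pow c q 2, hc2]
  have hd3 : 0 < 1 + ρ x * (t⁻¹ * q ^ 2) := by positivity
  field_simp
  ring

end Pool.Agent.Run7.h828.TFW
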