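import Pool.Agent.Run7.h828.TFW.E5

/-!
# The radial vector fields
-/

set_option autoImplicit false

open MeasureTheory Filter Topology Set
open scoped ENNReal NNReal ContDiff

namespace Pool.Agent.Run7.h828.TFW

open Pool.Agent.TH791.Cl Pool.Agent.TH791.Nw Pool.Agent.R999.Pot Pool.Agent.R999.MinP
open Pool.Agent.R999.Newton Pool.Agent.R999 Pool.Agent.R999.Ex

/-- profile of the field `x (4π|x|³)⁻¹ st(|x|²/δ²)` -/
noncomputable def ka (δ s : ℝ) : ℝ := (4 * Real.pi)⁻¹ * s ^ (-(3/2) : ℝ) * st (s / δ ^ 2)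

/-- its derivative -/
noncomputable def kd (δ s : ℝ) : ℝ :=
  (4 * Real.pi)⁻¹ * (-(3/2) * s ^ (-(5/2) : ℝ)) * st (s / δ ^ 2) +
    (4 * Real.pi)⁻¹ * s ^ (-(3/2) : ℝ) * (sd (s / δ ^ 2) / δ ^ 2)

/-- the divergence -/
noncomputable def al (δ r : ℝ) : ℝ := sd (r ^ 2 / δ ^ 2) / (2 * Real.pi * δ ^ 2 * r)

lemma ka_near {δ s : ℝ} (hδ : 0 < δ) (hs : s ≤ δ ^ 2 / 4) : ka δ s = 0 := by
  unfold ka
  rw [st_zero, mul_zero]
  rw [div_le_iff₀ (by positivity)]
  linarith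

lemma ka_far {δ s : ℝ} (hδ : 0 < δ) (hs : δ ^ 2 ≤ s) :
    ka δ s = (4 * Real.pi)⁻¹ * s ^ (-(3/2) : ℝ) := by
  unfold ka
  rw [st_one, mul_one]
  rw [le_div_iff₀ (by positivity)]
  linarith

lemma ka_smooth {δ : ℝ} (hδ : 0 < δ) : ContDiff ℝ ∞ (ka δ) := by
  rw [contDiff_iff_contDiffAt]
  intro s
  rcases lt_or_ge s (δ ^ 2 / 4) with h | h
  · have : ka δ =ᶠ[𝓝 s] fun _ => 0 := by
      filter_upwards [Iio_mem_nhds h] with y hy
      exact ka_near hδ (le_of_lt hy)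
    exact contDiffAt_const.congr_of_eventuallyEq this
  · have hs : 0 < s := lt_of_lt_of_le (by positivity) h
    unfold ka
    refine ContDiffAt.mul (contDiffAt_const.mul (contDiffAt_id.rpow_const_of_ne hs.ne')) ?_
    exact (st_smooth.comp (contDiff_id.div_const _)).contDiffAt

lemma ka_der (δ : ℝ) {s : ℝ} (hs : 0 < s) : HasDerivAt (ka δ) (kd δ s) s := by
  have h1 : HasDerivAt (fun s : ℝ => s ^ (-(3/2) : ℝ)) (-(3/2) * s ^ (-(5/2) : ℝ)) s := by
    have := Real.hasDerivAt_rpow_const (p := (-(3/2) : ℝ)) (x := s) (Or.inl hs.ne')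
    refine this.congr_deriv ?_
    norm_num
  have h2 : HasDerivAt (fun s : ℝ => st (s / δ ^ 2)) (sd (s / δ ^ 2) / δ ^ 2) s := by
    have := (st_der (s / δ ^ 2)).comp s ((hasDerivAt_id s).div_const (δ ^ 2))
    refine this.congr_deriv ?_
    ring
  exact (h1.const_mul _).mul h2

lemma ka_div (δ : ℝ) {r : ℝ} (hr : 0 < r) :
    3 * ka δ (r ^ 2) + 2 * kd δ (r ^ 2) * r ^ 2 = al δ r := by
  have hpi := Real.pi_pos
  have e3 : (r ^ 2) ^ (-(3/2) : ℝ) = (r ^ 3)⁻¹ := by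
    rw [← Real.rpow_natCast r 2, ← Real.rpow_mul hr.le, ← Real.rpow_natCast r 3,
      ← Real.rpow_neg hr.le]
    norm_num
  have e5 : (r ^ 2) ^ (-(5/2) : ℝ) = (r ^ 5)⁻¹ := by
    rw [← Real.rpow_natCast r 2, ← Real.rpow_mul hr.le, ← Real.rpow_natCast r 5,
      ← Real.rpow_neg hr.le]
    norm_num
  unfold ka kd al
  rw [e3, e5]
  rcases eq_or_ne δ 0 with h | h
  · subst h
    simp only [ne_eq, OfNat.ofNat_ne_zero, not_false_eq_true, zero_pow, div_zero, mul_zero,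
      zero_mul, add_zero]
    rw [st_zero (by norm_num)]; ring
  · field_simp
    ring

lemma al_nonneg {δ r : ℝ} (hr : 0 ≤ r) : 0 ≤ al δ r := by
  have hpi := Real.pi_pos
  unfold al
  have := sd_nonneg (r ^ 2 / δ ^ 2)
  positivity

lemma al_zero_near {δ r : ℝ} (hδ : 0 < δ) (hr : 0 ≤ r) (h : r ≤ δ / 2) : al δ r = 0 := by
  unfold al
  rw [sd_zero, zero_div]
  rw [div_le_iff₀ (by positivity)]
  nlinarith

lemma al_zero_far {δ r : ℝ} (hδ : 0 < δ) (h : δ ≤ r) : al δ r = 0 := by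
  unfold al
  rw [sd_one, zero_div]
  rw [le_div_iff₀ (by positivity)]
  nlinarith

lemma al_le {δ r : ℝ} (hδ : 0 < δ) (hr : 0 ≤ r) : al δ r ≤ K0 / (Real.pi * δ ^ 3) := by
  have hpi := Real.pi_pos
  have hK := K0_pos
  rcases le_or_gt r (δ / 2) with h | h
  · rw [al_zero_near hδ hr h]; positivity
  · unfold al
    have h1 := sd_le (r ^ 2 / δ ^ 2)
    have h2 : Real.pi * δ ^ 3 ≤ 2 * Real.pi * δ ^ 2 * r := by
      have : Real.pi * δ ^ 2 * (δ / 2) ≤ Real.pi * δ ^ 2 * r :=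
        mul_le_mul_of_nonneg_left h.le (by positivity)
      nlinarith
    exact div_le_div₀ hK.le h1 (by positivity) h2

lemma al_meas (δ : ℝ) : Measurable (al δ) := by
  unfold al
  exact (sd_cont.measurable.comp ((measurable_id.pow_const 2).div_const _)).div
    (measurable_const.mul measurable_id)

/-- the total mass is one -/
lemma al_int {δ : ℝ} (hδ : 0 < δ) : Integrable (fun x : E3 => al δ ‖x‖) ∧
    ∫ x : E3, al δ ‖x‖ = 1 := by
  have hpi := Real.pi_pos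
  have hK := K0_pos
  constructor
  · have hb : Integrable ((Metric.closedBall (0:E3) δ).indicator
        (fun _ => K0 / (Real.pi * δ ^ 3))) := by
      refine (integrable_indicator_iff Metric.isClosed_closedBall.measurableSet).2 ?_
      exact integrableOn_const (measure_closedBall_lt_top.ne)
    refine hb.mono' ((al_meas δ).comp measurable_norm).aestronglyMeasurable
      (ae_of_all _ fun x => ?_)
    rw [Real.norm_of_nonneg (al_nonneg (norm_nonneg x))]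
    by_cases hx : x ∈ Metric.closedBall (0:E3) δ
    · rw [indicator_of_mem hx]; exact al_le hδ (norm_nonneg x)
    · rw [indicator_of_notMem hx]
      rw [mem_closedBall_zero_iff] at hx
      push Not at hx
      rw [al_zero_far hδ hx.le]
  · rw [int_radial (al δ)]
    have e1 : ∀ t : ℝ, t ∈ Ioi (0:ℝ) → t ^ 2 * al δ t =
        (4 * Real.pi)⁻¹ * (sd (t ^ 2 / δ ^ 2) * (2 * t / δ ^ 2)) := by
      intro t ht
      have ht' : 0 < t := ht
      unfold al
      field_simp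
      ring
    rw [setIntegral_congr_fun measurableSet_Ioi e1, integral_const_mul]
    have hsub : Ioc (0:ℝ) δ ⊆ Ioi 0 := fun x hx => hx.1
    rw [setIntegral_eq_of_subset_of_forall_sdiff_eq_zero measurableSet_Ioi hsub,
      ← intervalIntegral.integral_of_le hδ.le]
    · have hd : ∀ t ∈ uIcc (0:ℝ) δ, HasDerivAt (fun t => st (t ^ 2 / δ ^ 2))
          (sd (t ^ 2 / δ ^ 2) * (2 * t / δ ^ 2)) t := by
        intro t _
        have h1 : HasDerivAt (fun t : ℝ => t ^ 2 / δ ^ 2) (2 * t / δ ^ 2) t := by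
          have := (hasDerivAt_pow 2 t).div_const (δ ^ 2)
          refine this.congr_deriv ?_
          norm_num
        exact (st_der _).comp t h1
      have hc : Continuous (fun t : ℝ => sd (t ^ 2 / δ ^ 2) * (2 * t / δ ^ 2)) :=
        (sd_cont.comp ((continuous_id.pow 2).div_const _)).mul
          ((continuous_const.mul continuous_id).div_const _)
      rw [intervalIntegral.integral_eq_sub_of_hasDerivAt hd (hc.intervalIntegrable _ _)]
      rw [st_one (by rw [div_self (by positivity)]), st_zero (by simp)]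
      field_simp
      norm_num
    · intro t ht
      have h1 : 0 < t := ht.1
      have h2 : δ < t := by
        by_contra h
        exact ht.2 ⟨h1, not_lt.1 h⟩
      rw [sd_one, zero_mul]
      rw [le_div_iff₀ (by positivity)]
      nlinarith

/-! ### the vector field -/

/-- the profile -/
noncomputable def kk (ε T s : ℝ) : ℝ := ka ε s - ka T s

/-- the vector field -/
noncomputable def FF (ε T : ℝ) (x : E3) : E3 := kk ε T (‖x‖ ^ 2) • x

variable {ε T : ℝ}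

lemma kk_smooth (hε : 0 < ε) (hT : 0 < T) : ContDiff ℝ ∞ (fun x : E3 => kk ε T (‖x‖ ^ 2)) :=
  ((ka_smooth hε).sub (ka_smooth hT)).comp (contDiff_norm_sq ℝ)

lemma kk_far (hε : 0 < ε) (hεT : ε ≤ T) {s : ℝ} (hs : T ^ 2 ≤ s) : kk ε T s = 0 := by
  unfold kk
  rw [ka_far hε (by nlinarith), ka_far (by linarith) hs, sub_self]

lemma FF_cont (hε : 0 < ε) (hT : 0 < T) : Continuous (FF ε T) :=
  (kk_smooth hε hT).continuous.smul continuous_id

lemma kk_supp (hε : 0 < ε) (hεT : ε ≤ T) : HasCompactSupport (fun x : E3 => kk ε T (‖x‖ ^ 2)) := by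
  refine HasCompactSupport.of_support_subset_isCompact (isCompact_closedBall (0:E3) T) ?_
  intro x hx
  rw [Function.mem_support] at hx
  rw [mem_closedBall_zero_iff]
  by_contra h
  push Not at h
  exact hx (kk_far hε hεT (by nlinarith))

lemma FF_supp (hε : 0 < ε) (hεT : ε ≤ T) : HasCompactSupport (FF ε T) :=
  (kk_supp hε hεT).smul_right

/-- the coordinates of the field -/
noncomputable def fi (ε T : ℝ) (i : Fin 3) (x : E3) : ℝ := kk ε T (‖x‖ ^ 2) * x i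

lemma fi_smooth (hε : 0 < ε) (hT : 0 < T) (i : Fin 3) : ContDiff ℝ ∞ (fi ε T i) :=
  (kk_smooth hε hT).mul (EuclideanSpace.proj i : E3 →L[ℝ] ℝ).contDiff

lemma fi_supp (hε : 0 < ε) (hεT : ε ≤ T) (i : Fin 3) : HasCompactSupport (fi ε T i) :=
  (kk_supp hε hεT).mul_right

lemma fi_der {x : E3} (hx : x ≠ 0) (i : Fin 3) :
    fderiv ℝ (fi ε T i) x (EuclideanSpace.single i (1:ℝ)) =
      kk ε T (‖x‖ ^ 2) + 2 * (kd ε (‖x‖ ^ 2) - kd T (‖x‖ ^ 2)) * (x i) ^ 2 := by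
  have hs : 0 < ‖x‖ ^ 2 := by have := norm_pos_iff.2 hx; positivity
  have h1 : HasFDerivAt (fun y : E3 => kk ε T (‖y‖ ^ 2))
      ((2 * (kd ε (‖x‖ ^ 2) - kd T (‖x‖ ^ 2))) • innerSL ℝ x) x :=
    radial_fderiv (H := kk ε T) ((ka_der ε hs).sub (ka_der T hs))
  have h2 : HasFDerivAt (fun y : E3 => y i) (EuclideanSpace.proj i : E3 →L[ℝ] ℝ) x :=
    (EuclideanSpace.proj i : E3 →L[ℝ] ℝ).hasFDerivAt
  have h3 : HasFDerivAt (fi ε T i) _ x := h1.mul h2
  rw [h3.fderiv]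
  simp only [add_apply, smul_apply, smul_eq_mul, innerSL_apply_apply,
    EuclideanSpace.inner_single_right]
  simp
  ring

lemma fi_sum {x : E3} (hx : x ≠ 0) :
    ∑ i, fderiv ℝ (fi ε T i) x (EuclideanSpace.single i (1:ℝ)) = al ε ‖x‖ - al T ‖x‖ := by
  have hr := norm_pos_iff.2 hx
  simp only [fi_der hx]
  rw [Finset.sum_add_distrib, ← Finset.mul_sum]
  have e : ∑ i, (x i) ^ 2 = ‖x‖ ^ 2 := by
    rw [EuclideanSpace.norm_sq_eq]
    simp
  rw [e, ← ka_div ε hr, ← ka_div T hr]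
  simp [kk]
  ring

lemma FF_inner (a x : E3) : (inner ℝ a (FF ε T x) : ℝ) =
    ∑ i, inner ℝ a (EuclideanSpace.single i (1:ℝ)) * fi ε T i x := by
  unfold FF fi
  rw [real_inner_smul_right]
  simp only [PiLp.inner_apply]
  rw [Finset.mul_sum]
  refine Finset.sum_congr rfl fun i _ => ?_
  simp
  ring

/-- **integration by parts against the radial field** -/
theorem ibp {ρ : E3 → ℝ} {g : E3 → E3} (h : TP ρ g) {c : ℝ} (hc : 0 < c) (hε : 0 < ε)
    (hεT : ε ≤ T) :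
    ∫ x, GG c ρ x * (al ε ‖x‖ - al T ‖x‖) = -∫ x, inner ℝ (gG c ρ g x) (FF ε T x) := by
  have hT : 0 < T := by linarith
  have hw := GG_wg h hc
  have h1 : ∀ i, ∫ x, GG c ρ x * fderiv ℝ (fi ε T i) x (EuclideanSpace.single i (1:ℝ)) =
      -∫ x, inner ℝ (gG c ρ g x) (EuclideanSpace.single i (1:ℝ)) * fi ε T i x := fun i =>
    hw (fi ε T i) (fi_smooth hε hT i) (fi_supp hε hεT i) (EuclideanSpace.single i 1)
  have i1 : ∀ i, Integrable (fun x => GG c ρ x *
      fderiv ℝ (fi ε T i) x (EuclideanSpace.single i (1:ℝ))) := fun i =>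
    GG_int h hc (((fi_smooth hε hT i).continuous_fderiv (by simp)).clm_apply continuous_const)
      ((fi_supp hε hεT i).fderiv_apply ℝ _)
  have i2 : ∀ i, Integrable (fun x =>
      (inner ℝ (gG c ρ g x) (EuclideanSpace.single i (1:ℝ)) : ℝ) * fi ε T i x) := by
    intro i
    have := gG_int h hc (F := fun x => fi ε T i x • EuclideanSpace.single i (1:ℝ))
      ((fi_smooth hε hT i).continuous.smul continuous_const) (fi_supp hε hεT i).smul_right
    refine this.congr (ae_of_all _ fun x => ?_)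
    simp only [real_inner_smul_right]
    ring
  have e1 : ∫ x, GG c ρ x * (al ε ‖x‖ - al T ‖x‖) =
      ∑ i, ∫ x, GG c ρ x * fderiv ℝ (fi ε T i) x (EuclideanSpace.single i (1:ℝ)) := by
    rw [← integral_finsetSum _ fun i _ => i1 i]
    refine integral_congr_ae ?_
    have hae : ∀ᵐ x : E3, x ≠ 0 := by
      rw [ae_iff]; simp
    filter_upwards [hae] with x hx
    rw [← fi_sum hx, Finset.mul_sum]
  have e2 : ∫ x, inner ℝ (gG c ρ g x) (FF ε T x) =
      ∑ i, ∫ x, inner ℝ (gG c ρ g x) (EuclideanSpace.single i (1:ℝ)) * fi ε T i x := by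
    rw [← integral_finsetSum _ fun i _ => i2 i]
    congr 1; funext x
    rw [FF_inner]
  rw [e1, e2, ← Finset.sum_neg_distrib]
  exact Finset.sum_congr rfl fun i _ => h1 i

/-- the size of the field -/
lemma kk_bd (hε : 0 < ε) (hεT : ε ≤ T) {r : ℝ} (hr : 0 < r) :
    0 ≤ kk ε T (r ^ 2) ∧ kk ε T (r ^ 2) ≤ (4 * Real.pi * r ^ 3)⁻¹ := by
  have hpi := Real.pi_pos
  have hT : 0 < T := by linarith
  have e3 : (r ^ 2) ^ (-(3/2) : ℝ) = (r ^ 3)⁻¹ := by
    rw [← Real.rpow_natCast r 2, ← Real.rpow_mul hr.le, ← Real.rpow_natCast r 3,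
      ← Real.rpow_neg hr.le]
    norm_num
  unfold kk ka
  rw [e3]
  have h1 : st (r ^ 2 / T ^ 2) ≤ st (r ^ 2 / ε ^ 2) := st_mono (by gcongr)
  have h2 := st_le_one (r ^ 2 / ε ^ 2)
  have h3 := st_nonneg (r ^ 2 / T ^ 2)
  have e : (4 * Real.pi)⁻¹ * (r ^ 3)⁻¹ * st (r ^ 2 / ε ^ 2) -
      (4 * Real.pi)⁻¹ * (r ^ 3)⁻¹ * st (r ^ 2 / T ^ 2) =
      (4 * Real.pi * r ^ 3)⁻¹ * (st (r ^ 2 / ε ^ 2) - st (r ^ 2 / T ^ 2)) := by
    rw [mul_inv]; ring
  rw [e]
  have h4 : 0 < (4 * Real.pi * r ^ 3)⁻¹ := by positivity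
  exact ⟨mul_nonneg h4.le (by linarith), mul_le_of_le_one_right h4.le (by linarith)⟩

/-- `∫ |F|²/ω²` -/
lemma FF_norm (hε : 0 < ε) (hε1 : ε ≤ 1) (hT : 1 ≤ T) :
    ∫ x : E3, qq (‖x‖ ^ 2) ^ 2 * ‖FF ε T x‖ ^ 2 ≤
      3 / (8 * Real.pi) * Real.log T + 4 / (Real.pi * ε ^ 2) := by
  have hpi := Real.pi_pos
  have hεT : ε ≤ T := by linarith
  have e1 : ∀ x : E3, qq (‖x‖ ^ 2) ^ 2 * ‖FF ε T x‖ ^ 2 =
      (fun r => qq (r ^ 2) ^ 2 * (kk ε T (r ^ 2) ^ 2 * r ^ 2)) ‖x‖ := by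
    intro x
    unfold FF
    rw [norm_smul, mul_pow, Real.norm_eq_abs, sq_abs]
  simp only [e1]
  rw [int_radial (fun r => qq (r ^ 2) ^ 2 * (kk ε T (r ^ 2) ^ 2 * r ^ 2))]
  have hq2 : ∀ r : ℝ, (qq (r ^ 2) ^ 2) ^ 2 = 1 + r ^ 2 := fun r => by
    rw [← pow_mul]; norm_num; exact qq_four (sq_nonneg r)
  have hmain : ∀ r, 0 < r → r ^ 2 * (qq (r ^ 2) ^ 2 * (kk ε T (r ^ 2) ^ 2 * r ^ 2)) ≤
      qq (r ^ 2) ^ 2 / (16 * Real.pi ^ 2 * r ^ 2) := by
    intro r hr
    obtain ⟨h1, h2⟩ := kk_bd hε hεT hr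
    have h3 := pow_le_pow_left₀ h1 h2 2
    have h4 : r ^ 2 * (qq (r ^ 2) ^ 2 * (kk ε T (r ^ 2) ^ 2 * r ^ 2)) ≤
        r ^ 2 * (qq (r ^ 2) ^ 2 * (((4 * Real.pi * r ^ 3)⁻¹) ^ 2 * r ^ 2)) := by gcongr
    refine h4.trans (le_of_eq ?_)
    field_simp
    ring
  have h := (ioiB (f := fun r => r ^ 2 * (qq (r ^ 2) ^ 2 * (kk ε T (r ^ 2) ^ 2 * r ^ 2)))
    (T := T) (1 / (Real.pi ^ 2 * ε ^ 2)) (3/2 / (16 * Real.pi ^ 2)) 0 0 0 hT
    (fun t ht => by positivity) (fun t ht ht1 => ?_) (fun t ht _ => ?_) (fun t ht => ?_)).2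
  · have h2 := mul_le_mul_of_nonneg_left h (show 0 ≤ 4 * Real.pi by positivity)
    refine h2.trans (le_of_eq ?_)
    field_simp
    ring
  · have hp : 0 < 1 / (Real.pi ^ 2 * ε ^ 2) := by positivity
    rcases le_or_gt t (ε / 2) with h | h
    · have : kk ε T (t ^ 2) = 0 := by
        unfold kk
        rw [ka_near hε (by nlinarith), ka_near (by linarith) (by nlinarith), sub_self]
      rw [this]
      simp only [ne_eq, OfNat.ofNat_ne_zero, not_false_eq_true, zero_pow, zero_mul, mul_zero,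
        add_zero]
      exact hp.le
    · have h1 := hmain t ht
      have h3 : qq (t ^ 2) ^ 2 ≤ 2 := by
        have h5 : (qq (t ^ 2) ^ 2) ^ 2 ≤ 2 ^ 2 := by rw [hq2]; nlinarith
        exact (sq_le_sq₀ (by positivity) (by norm_num)).1 h5
      have h4 : qq (t ^ 2) ^ 2 / (16 * Real.pi ^ 2 * t ^ 2) ≤ 1 / (Real.pi ^ 2 * ε ^ 2) := by
        rw [div_le_div_iff₀ (by positivity) (by positivity)]
        have h6 : ε ^ 2 ≤ 4 * t ^ 2 := by nlinarith
        have h7 : Real.pi ^ 2 * ε ^ 2 ≤ Real.pi ^ 2 * (4 * t ^ 2) :=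
          mul_le_mul_of_nonneg_left h6 (by positivity)
        have h8 : qq (t ^ 2) ^ 2 * (Real.pi ^ 2 * ε ^ 2) ≤ 2 * (Real.pi ^ 2 * (4 * t ^ 2)) :=
          mul_le_mul h3 h7 (by positivity) (by norm_num)
        nlinarith [mul_pos (pow_pos hpi 2) (pow_pos ht 2)]
      linarith
  · have ht' : 0 < t := by linarith
    have h1 := hmain t ht'
    have h3 : qq (t ^ 2) ^ 2 ≤ 3/2 * t := by
      have h5 : (qq (t ^ 2) ^ 2) ^ 2 ≤ (3/2 * t) ^ 2 := by rw [hq2]; nlinarith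
      exact (sq_le_sq₀ (by positivity) (by positivity)).1 h5
    have h4 : qq (t ^ 2) ^ 2 / (16 * Real.pi ^ 2 * t ^ 2) ≤ 3/2 / (16 * Real.pi ^ 2) / t := by
      rw [div_div, div_le_div_iff₀ (by positivity) (by positivity)]
      have h6 := mul_le_mul_of_nonneg_right h3 (show 0 ≤ 16 * Real.pi ^ 2 * t by positivity)
      nlinarith
    linarith
  · have : kk ε T (t ^ 2) = 0 := kk_far hε hεT (by nlinarith)
    rw [this]; simp

end Pool.Agent.Run7.h828.TFW
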