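import Pool.Agent.Run7.h828.TFW.E6

/-!
# No relaxed minimiser has mass at most `Z`
-/

set_option autoImplicit false

open MeasureTheory Filter Topology Set
open scoped ENNReal NNReal ContDiff

namespace Pool.Agent.Run7.h828.TFW

open Pool.Agent.TH791.Cl Pool.Agent.TH791.Nw Pool.Agent.R999.Pot Pool.Agent.R999.MinP
open Pool.Agent.R999.Newton Pool.Agent.R999 Pool.Agent.R999.Ex

variable {ι : Type*} [Fintype ι]

lemma al_cont {δ : ℝ} (hδ : 0 < δ) : Continuous (al δ) := by
  rw [continuous_iff_continuousAt]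
  intro r
  rcases lt_or_ge |r| (δ / 2) with h | h
  · have : al δ =ᶠ[𝓝 r] fun _ => 0 := by
      have h1 : ∀ᶠ y in 𝓝 r, |y| < δ / 2 := (continuous_abs.tendsto r).eventually_lt_const h
      filter_upwards [h1] with y hy
      unfold al
      rw [sd_zero, zero_div]
      rw [div_le_iff₀ (by positivity), ← sq_abs]
      nlinarith [abs_nonneg y]
    exact continuousAt_const.congr this.symm
  · have hr : r ≠ 0 := by
      intro h0; rw [h0, abs_zero] at h; linarith
    have hpi := Real.pi_pos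
    unfold al
    refine ContinuousAt.div ?_ ?_ (by positivity)
    · exact (sd_cont.comp ((continuous_id.pow 2).div_const _)).continuousAt
    · exact (continuous_const.mul continuous_id).continuousAt

lemma al_supp {δ : ℝ} (hδ : 0 < δ) : HasCompactSupport (fun x : E3 => al δ ‖x‖) := by
  refine HasCompactSupport.of_support_subset_isCompact (isCompact_closedBall (0:E3) δ) ?_
  intro x hx
  rw [Function.mem_support] at hx
  rw [mem_closedBall_zero_iff]
  by_contra h
  push Not at h
  exact hx (al_zero_far hδ h.le)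

/-- lower bound -/
lemma G_low {ρ : E3 → ℝ} {g : E3 → E3} (h : TP ρ g) {c : ℝ} (hc : 0 < c) {δ ε : ℝ} (hδ : 0 < δ)
    (hε : 0 < ε)
    (hd : K0 / (Real.pi * ε ^ 3) * volume.real (Metric.closedBall (0:E3) ε \ {x | δ ≤ ρ x}) ≤ 1/10) :
    9/10 * (Real.log (2 * √δ) + Real.log c) ≤ ∫ x, GG c ρ x * al ε ‖x‖ := by
  have hpi := Real.pi_pos
  have hK := K0_pos
  have hi : Integrable (fun x => GG c ρ x * al ε ‖x‖) :=
    GG_int h hc ((al_cont hε).comp continuous_norm) (al_supp hε)
  set Λ := Real.log (2 * √δ) + Real.log c with hΛ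
  have hsδ : 0 < √δ := Real.sqrt_pos.2 hδ
  rcases le_or_gt Λ 0 with hneg | hpos
  · have : 0 ≤ ∫ x, GG c ρ x * al ε ‖x‖ :=
      integral_nonneg fun x => mul_nonneg (GG_nonneg hc x) (al_nonneg (norm_nonneg x))
    linarith
  · set s := {x | δ ≤ ρ x} with hs
    have hsm : MeasurableSet s := measurableSet_le measurable_const h.md.meas
    set B := Metric.closedBall (0:E3) ε \ s with hB
    have hBm : MeasurableSet B := Metric.isClosed_closedBall.measurableSet.diff hsm
    have hBt : volume B ≠ ⊤ := measure_ne_top_of_subset sdiff_subset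
      (measure_closedBall_lt_top (μ := volume) (x := (0:E3)) (r := ε)).ne
    have iB : Integrable (B.indicator (fun _ => Λ * (K0 / (Real.pi * ε ^ 3)))) := by
      rw [integrable_indicator_iff hBm]
      exact integrableOn_const hBt
    have vB : ∫ x, B.indicator (fun _ => Λ * (K0 / (Real.pi * ε ^ 3))) x =
        Λ * (K0 / (Real.pi * ε ^ 3) * volume.real B) := by
      rw [integral_indicator hBm, setIntegral_const, smul_eq_mul]
      ring
    obtain ⟨ia, va⟩ := al_int hε
    have hpt : ∀ x, Λ * al ε ‖x‖ - B.indicator (fun _ => Λ * (K0 / (Real.pi * ε ^ 3))) x ≤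
        GG c ρ x * al ε ‖x‖ := by
      intro x
      have ha := al_nonneg (δ := ε) (norm_nonneg x)
      have hG := GG_nonneg (ρ := ρ) hc x
      by_cases hx : x ∈ s
      · have hxB : x ∉ B := fun hh => hh.2 hx
        rw [indicator_of_notMem hxB, sub_zero]
        refine mul_le_mul_of_nonneg_right ?_ ha
        have h1 : √δ ≤ √(ρ x) := Real.sqrt_le_sqrt hx
        have h2 : c ≤ VV c x := by
          unfold VV
          exact le_mul_of_one_le_right hc.le (qq_one (by positivity))
        have h3 : √δ * c ≤ √(ρ x) * VV c x := mul_le_mul h1 h2 hc.le (Real.sqrt_nonneg _)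
        have h4 : 0 < √(ρ x) * VV c x := lt_of_lt_of_le (by positivity) h3
        refine le_trans ?_ (arsinh_log h4)
        rw [hΛ, ← Real.log_mul (by positivity) hc.ne']
        refine Real.log_le_log (by positivity) ?_
        linarith
      · by_cases hxe : x ∈ Metric.closedBall (0:E3) ε
        · have hxB : x ∈ B := ⟨hxe, hx⟩
          rw [indicator_of_mem hxB]
          have h1 := mul_le_mul_of_nonneg_left (al_le hε (norm_nonneg x)) hpos.le
          have h2 := mul_nonneg hG ha
          linarith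
        · have hxB : x ∉ B := fun hh => hxe hh.1
          rw [indicator_of_notMem hxB, sub_zero]
          rw [mem_closedBall_zero_iff] at hxe
          push Not at hxe
          rw [al_zero_far hε hxe.le, mul_zero, mul_zero]
    have h1 := integral_mono ((ia.const_mul Λ).sub iB) hi hpt
    have e0 : ∫ x, (Λ * al ε ‖x‖ - B.indicator (fun _ => Λ * (K0 / (Real.pi * ε ^ 3))) x) =
        Λ - Λ * (K0 / (Real.pi * ε ^ 3) * volume.real B) := by
      rw [integral_sub (ia.const_mul Λ) iB, integral_const_mul, va, vB, mul_one]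
    have h2 : Λ - Λ * (K0 / (Real.pi * ε ^ 3) * volume.real B) ≤ ∫ x, GG c ρ x * al ε ‖x‖ := by
      rw [← e0]; exact h1
    have h3 := mul_le_mul_of_nonneg_left hd hpos.le
    linarith

/-- upper bound -/
lemma G_up {ρ : E3 → ℝ} {g : E3 → E3} (h : TP ρ g) {S : ℝ} (hS : 1 ≤ S) :
    ∫ x, GG (√(S ^ 3)) ρ x * al (2 * S) ‖x‖ ≤
      1/2 * Real.log S + 3 + K0 / (4 * Real.pi) * ∫ x, ρ x := by
  have hpi := Real.pi_pos
  have hK := K0_pos
  have hS0 : 0 < S := by linarith
  have hT : 0 < 2 * S := by linarith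
  have hc : 0 < √(S ^ 3) := Real.sqrt_pos.2 (by positivity)
  have hi : Integrable (fun x => GG (√(S ^ 3)) ρ x * al (2 * S) ‖x‖) :=
    GG_int h hc ((al_cont hT).comp continuous_norm) (al_supp hT)
  obtain ⟨ia, va⟩ := al_int hT
  have hpt : ∀ x, GG (√(S ^ 3)) ρ x * al (2 * S) ‖x‖ ≤
      (1/2 * Real.log S + 3) * al (2 * S) ‖x‖ + K0 / (4 * Real.pi) * ρ x := by
    intro x
    have ha := al_nonneg (δ := 2 * S) (norm_nonneg x)
    have hρ := h.md.nonneg x
    rcases le_or_gt ‖x‖ (2 * S) with hx | hx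
    · have hu0 : 0 ≤ √(ρ x) * VV (√(S ^ 3)) x :=
        mul_nonneg (Real.sqrt_nonneg _) (VV_pos hc x).le
      have hl : 0 < √S := Real.sqrt_pos.2 hS0
      have h1 := arsinh_up hu0 hl
      have h2 : Real.log (√S) = 1/2 * Real.log S := by
        rw [Real.log_sqrt hS0.le]; ring
      have hl1 : 1 ≤ √S := Real.one_le_sqrt.2 hS
      have hq : qq (‖x‖ ^ 2) ≤ 2 * √S := by
        have hq0 := qq_pos (show 0 ≤ ‖x‖ ^ 2 by positivity)
        have h4 := qq_four (show 0 ≤ ‖x‖ ^ 2 by positivity)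
        have h5 : (2 * √S) ^ 4 = 16 * S ^ 2 := by
          have : (√S) ^ 4 = S ^ 2 := by
            rw [show (√S) ^ 4 = ((√S) ^ 2) ^ 2 by ring, Real.sq_sqrt hS0.le]
          rw [mul_pow, this]; norm_num
        have h6 : qq (‖x‖ ^ 2) ^ 4 ≤ (2 * √S) ^ 4 := by
          rw [h4, h5]; nlinarith [norm_nonneg x]
        exact (pow_le_pow_iff_left₀ hq0.le (by positivity) (by norm_num)).1 h6
      have h3 : (1 + 2 * (√(ρ x) * VV (√(S ^ 3)) x)) / √S ≤ 3 + 2 * S ^ 3 * ρ x := by
        rw [div_le_iff₀ hl]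
        unfold VV
        have h7 : √(ρ x) * (√(S ^ 3) * qq (‖x‖ ^ 2)) ≤ √(ρ x) * (√(S ^ 3) * (2 * √S)) := by
          gcongr
        have h8 : 2 * (√(ρ x) * √(S ^ 3)) ≤ 1 + S ^ 3 * ρ x := by
          have a1 := Real.sq_sqrt hρ
          have a2 := Real.sq_sqrt (show 0 ≤ S ^ 3 by positivity)
          have e : (√(ρ x) * √(S ^ 3)) ^ 2 = S ^ 3 * ρ x := by rw [mul_pow, a1, a2]; ring
          nlinarith [sq_nonneg (√(ρ x) * √(S ^ 3) - 1)]
        have h9 : 2 * (√(ρ x) * √(S ^ 3)) * (2 * √S) ≤ (1 + S ^ 3 * ρ x) * (2 * √S) :=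
          mul_le_mul_of_nonneg_right h8 (by positivity)
        have h10 : (3 + 2 * S ^ 3 * ρ x) * √S = √S + (1 + S ^ 3 * ρ x) * (2 * √S) := by ring
        rw [h10]
        linarith
      have h4 : GG (√(S ^ 3)) ρ x ≤ (1/2 * Real.log S + 3) + 2 * S ^ 3 * ρ x := by
        unfold GG
        rw [h2] at h1
        linarith
      have h5 := mul_le_mul_of_nonneg_right h4 ha
      have h6 : 2 * S ^ 3 * ρ x * al (2 * S) ‖x‖ ≤ K0 / (4 * Real.pi) * ρ x := by
        have h7 := mul_le_mul_of_nonneg_left (al_le hT (norm_nonneg x))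
          (show 0 ≤ 2 * S ^ 3 * ρ x by positivity)
        refine h7.trans (le_of_eq ?_)
        field_simp
        ring
      rw [add_mul] at h5
      linarith
    · rw [al_zero_far hT hx.le]
      have : 0 ≤ K0 / (4 * Real.pi) * ρ x := by positivity
      linarith
  have h1 := integral_mono hi ((ia.const_mul (1/2 * Real.log S + 3)).add
    (h.md.int.const_mul (K0 / (4 * Real.pi)))) hpt
  refine h1.trans (le_of_eq ?_)
  have e := integral_add (ia.const_mul (1/2 * Real.log S + 3))
    (h.md.int.const_mul (K0 / (4 * Real.pi)))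
  refine Eq.trans e ?_
  rw [integral_const_mul, integral_const_mul, va, mul_one]

/-- the central estimate -/
lemma central {ρ : E3 → ℝ} {g : E3 → E3} (h : TP ρ g) {ε S : ℝ} (hε : 0 < ε) (hε1 : ε ≤ 1)
    (hS : 1 ≤ S) :
    -∫ x, inner ℝ (gG (√(S ^ 3)) ρ g x) (FF ε (2 * S) x) ≤
      1 / (4 * Real.pi) * (∫ x, DD ρ g (ch S) ((S ^ 3)⁻¹) x) +
      (3/8 * Real.log (2 * S) + 4 / ε ^ 2) := by
  have hpi := Real.pi_pos
  have hS0 : 0 < S := by linarith
  have hT : 1 ≤ 2 * S := by linarith
  have hεT : ε ≤ 2 * S := by linarith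
  have hc : 0 < √(S ^ 3) := Real.sqrt_pos.2 (by positivity)
  have hct : √(S ^ 3) ^ 2 * (S ^ 3)⁻¹ = 1 := by
    rw [Real.sq_sqrt (by positivity)]
    field_simp
  have hFc := FF_cont hε (show 0 < 2 * S by linarith)
  have hFs := FF_supp hε hεT
  have iI := gG_int h hc hFc hFs
  have iD := DD_int h ((ch_smooth S).of_le (by exact_mod_cast le_top)) (ch_supp hS)
    (show 0 < (S ^ 3)⁻¹ by positivity)
  have cq : Continuous (fun x : E3 => qq (‖x‖ ^ 2)) := by
    have := (VV_smooth 1).continuous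
    unfold VV at this
    simpa using this
  have iF : Integrable (fun x : E3 => qq (‖x‖ ^ 2) ^ 2 * ‖FF ε (2 * S) x‖ ^ 2) := by
    refine ((cq.pow 2).mul (hFc.norm.pow 2)).integrable_of_hasCompactSupport ?_
    refine hFs.mono fun x hx => ?_
    rw [Function.mem_support] at hx ⊢
    intro h0; apply hx
    show qq (‖x‖ ^ 2) ^ 2 * ‖FF ε (2 * S) x‖ ^ 2 = 0
    rw [h0]; simp
  have hpt : ∀ x, -(inner ℝ (gG (√(S ^ 3)) ρ g x) (FF ε (2 * S) x) : ℝ) ≤
      1 / (4 * Real.pi) * DD ρ g (ch S) ((S ^ 3)⁻¹) x +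
      Real.pi * (qq (‖x‖ ^ 2) ^ 2 * ‖FF ε (2 * S) x‖ ^ 2) := by
    intro x
    rcases le_or_gt ‖x‖ (2 * S) with hx | hx
    · rw [DD_gG h.md.nonneg g hS (by positivity) hc hct hx]
      have hq := qq_pos (show 0 ≤ ‖x‖ ^ 2 by positivity)
      set q := qq (‖x‖ ^ 2) with hqd
      set a := ‖gG (√(S ^ 3)) ρ g x‖ with ha
      set b := ‖FF ε (2 * S) x‖ with hb
      have h1 : -(inner ℝ (gG (√(S ^ 3)) ρ g x) (FF ε (2 * S) x) : ℝ) ≤ a * b :=
        (neg_le_abs _).trans (abs_real_inner_le_norm _ _)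
      have h2 : a * b ≤ 1 / (4 * Real.pi) * ((q ^ 2)⁻¹ * a ^ 2) + Real.pi * (q ^ 2 * b ^ 2) := by
        have e : 1 / (4 * Real.pi) * ((q ^ 2)⁻¹ * a ^ 2) + Real.pi * (q ^ 2 * b ^ 2) - a * b =
            1 / (4 * Real.pi) * (q⁻¹ * a - 2 * Real.pi * (q * b)) ^ 2 := by
          field_simp
          ring
        have : 0 ≤ 1 / (4 * Real.pi) * (q⁻¹ * a - 2 * Real.pi * (q * b)) ^ 2 := by positivity
        linarith
      linarith
    · have h0 : FF ε (2 * S) x = 0 := by
        unfold FF
        rw [kk_far hε hεT (by nlinarith), zero_smul]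
      rw [h0, inner_zero_right, norm_zero]
      have := DD_nonneg h.md.nonneg g (ch S) (show 0 < (S ^ 3)⁻¹ by positivity) x
      have h3 : 0 ≤ 1 / (4 * Real.pi) * DD ρ g (ch S) ((S ^ 3)⁻¹) x := by positivity
      simp only [neg_zero, ne_eq, OfNat.ofNat_ne_zero, not_false_eq_true, zero_pow, mul_zero,
        add_zero]
      exact h3
  rw [← integral_neg]
  have h1 := integral_mono iI.neg ((iD.const_mul (1 / (4 * Real.pi))).add
    (iF.const_mul Real.pi)) hpt
  have e := integral_add (iD.const_mul (1 / (4 * Real.pi))) (iF.const_mul Real.pi)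
  refine h1.trans ?_
  refine le_trans (le_of_eq e) ?_
  rw [integral_const_mul, integral_const_mul]
  have h2 := mul_le_mul_of_nonneg_left (FF_norm hε hε1 hT) hpi.le
  have e2 : Real.pi * (3 / (8 * Real.pi) * Real.log (2 * S) + 4 / (Real.pi * ε ^ 2)) =
      3/8 * Real.log (2 * S) + 4 / ε ^ 2 := by
    field_simp
  rw [e2] at h2
  linarith

/-- **no minimiser of the relaxed problem has mass at most `Z`** -/
theorem no_min {z : ι → ℝ} (hz : ∀ j, 0 ≤ z j) (hZ : 0 < ∑ j, z j) {R : ι → E3} {ρ : E3 → ℝ}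
    {g : E3 → E3} (h : TP ρ g)
    (hmin : ∀ σ k, TP σ k → ∫ x, σ x ≤ (∑ j, z j) + 1 → ET z R ρ g ≤ ET z R σ k)
    (hN : ∫ x, ρ x ≤ ∑ j, z j) : False := by
  have hpi := Real.pi_pos
  have hK := K0_pos
  have hge := mass_ge hz h hmin hN
  have hNZ : ∫ x, ρ x = ∑ j, z j := le_antisymm hN hge
  set θ : ℝ := 3 / (40 * K0) with hθ
  obtain ⟨δ, y, ε, hδ, hε, hε1, hd⟩ := density h.md.meas h.md.nonneg (by linarith)
    (show 0 < θ by positivity)
  -- translate
  have h' := h.translate y
  have hmin' := min_translate hmin y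
  have hN' : ∫ x, ρ (x + y) = ∑ j, z j := by
    rw [integral_add_right_eq_self ρ y, hNZ]
  obtain ⟨C, hC⟩ := T_bound hz h' hmin' hN'.le
  -- the density point
  have hvol : volume.real (Metric.closedBall (0:E3) ε \ {x | δ ≤ ρ (x + y)}) =
      volume.real (Metric.closedBall y ε \ {x | δ ≤ ρ x}) := by
    have hsm : MeasurableSet (Metric.closedBall y ε \ {x | δ ≤ ρ x}) :=
      Metric.isClosed_closedBall.measurableSet.diff
        (measurableSet_le measurable_const h.md.meas)
    have h1 := (measurePreserving_add_right (volume : Measure E3) y).measure_preimage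
      hsm.nullMeasurableSet
    rw [Measure.real, Measure.real, ← h1]
    congr 2
    ext x
    simp [dist_eq_norm]
  have hball : volume.real (Metric.closedBall y ε) = 4/3 * Real.pi * ε ^ 3 := by
    rw [Measure.real, Measure.addHaar_closedBall_eq_addHaar_ball,
      EuclideanSpace.volume_ball_fin_three, ← ENNReal.ofReal_pow hε.le,
      ← ENNReal.ofReal_mul (by positivity), ENNReal.toReal_ofReal (by positivity)]
    ring
  have hd' : K0 / (Real.pi * ε ^ 3) *
      volume.real (Metric.closedBall (0:E3) ε \ {x | δ ≤ ρ (x + y)}) ≤ 1/10 := by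
    rw [hvol]
    have h1 := mul_le_mul_of_nonneg_left hd (show 0 ≤ K0 / (Real.pi * ε ^ 3) by positivity)
    refine h1.trans (le_of_eq ?_)
    rw [hball, hθ]
    field_simp
    norm_num
  -- the inequality for all large S
  set Z := ∑ j, z j with hZd
  set D : ℝ := 3 + K0 / (4 * Real.pi) * Z + 1 / (4 * Real.pi) * C + 3/8 * Real.log 2 + 4 / ε ^ 2 -
    9/10 * Real.log (2 * √δ) with hD
  have key : ∀ S : ℝ, 200 ≤ S → 1/5 * Real.log S ≤ D := by
    intro S hS
    have hS1 : 1 ≤ S := by linarith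
    have hS0 : 0 < S := by linarith
    have hc : 0 < √(S ^ 3) := Real.sqrt_pos.2 (by positivity)
    have h1 := hC S hS
    rw [hN', sub_self, zero_mul, add_zero] at h1
    have h2 := central h' hε hε1 hS1
    have hεT : ε ≤ 2 * S := by linarith
    have h3 := ibp h' hc hε hεT
    have h4 := G_low h' hc hδ hε hd'
    have h5 := G_up h' hS1
    rw [hN'] at h5
    have iα : Integrable (fun x => GG (√(S ^ 3)) (fun x => ρ (x + y)) x * al ε ‖x‖) :=
      GG_int h' hc ((al_cont hε).comp continuous_norm) (al_supp hε)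
    have iβ : Integrable (fun x => GG (√(S ^ 3)) (fun x => ρ (x + y)) x * al (2 * S) ‖x‖) :=
      GG_int h' hc ((al_cont (by linarith)).comp continuous_norm) (al_supp (by linarith))
    have e1 : ∫ x, GG (√(S ^ 3)) (fun x => ρ (x + y)) x * (al ε ‖x‖ - al (2 * S) ‖x‖) =
        (∫ x, GG (√(S ^ 3)) (fun x => ρ (x + y)) x * al ε ‖x‖) -
        ∫ x, GG (√(S ^ 3)) (fun x => ρ (x + y)) x * al (2 * S) ‖x‖ := by
      rw [← integral_sub iα iβ]
      congr 1; funext x; ring
    rw [e1] at h3
    have hlog1 : Real.log (√(S ^ 3)) = 3/2 * Real.log S := by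
      rw [Real.log_sqrt (by positivity), Real.log_pow]
      push_cast
      ring
    have hlog2 : Real.log (2 * S) = Real.log 2 + Real.log S :=
      Real.log_mul (by norm_num) hS0.ne'
    rw [hlog1] at h4
    rw [hlog2] at h2
    have h6 := mul_le_mul_of_nonneg_left h1 (show 0 ≤ 1 / (4 * Real.pi) by positivity)
    have e2 : 1 / (4 * Real.pi) * (13/12 * Real.pi * Real.log S + C) =
        13/48 * Real.log S + 1 / (4 * Real.pi) * C := by
      field_simp
      ring
    rw [e2] at h6
    have hlS : 0 ≤ Real.log S := Real.log_nonneg hS1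
    rw [hD]
    linarith
  have h1 := key (max 200 (Real.exp (5 * D + 5))) (le_max_left _ _)
  have h2 : 5 * D + 5 ≤ Real.log (max 200 (Real.exp (5 * D + 5))) := by
    rw [Real.le_log_iff_exp_le (lt_max_of_lt_left (by norm_num))]
    exact le_max_right _ _
  linarith

end Pool.Agent.Run7.h828.TFW
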