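import Pool.Agent.Run7.h828.TFW.Weak
import Pool.Agent.R999.Ex4

/-!
# Existence of minimisers of the Thomas-Fermi-von Weizsäcker functional with `∫ρ ≤ m`
-/

set_option autoImplicit false

open MeasureTheory Filter Topology Set
open scoped ENNReal NNReal ContDiff

namespace Pool.Agent.Run7.h828.TFW

open Pool.Agent.TH791.Cl Pool.Agent.TH791.Nw Pool.Agent.R999.Pot Pool.Agent.R999.MinP
open Pool.Agent.R999.Newton Pool.Agent.R999 Pool.Agent.R999.Ex

variable {ι : Type*} [Fintype ι]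

/-- pairs density, gradient of the square root -/
structure TP (ρ : E3 → ℝ) (g : E3 → E3) : Prop where
  md : MD ρ
  g2 : MemLp g 2 volume
  wk : WG (fun x => √(ρ x)) g

/-- the functional -/
noncomputable def ET (z : ι → ℝ) (R : ι → E3) (ρ : E3 → ℝ) (g : E3 → E3) : ℝ :=
  (∫ x, ‖g x‖ ^ 2) + En 1 z R ρ

lemma TP.sq {ρ : E3 → ℝ} {g : E3 → E3} (h : TP ρ g) : MemLp (fun x => √(ρ x)) 2 volume :=
  sqrt_memLp h.md.nonneg h.md.int

lemma TP.avg {ρ σ : E3 → ℝ} {g h : E3 → E3} (h1 : TP ρ g) (h2 : TP σ h) :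
    ∃ k, TP (fun x => (ρ x + σ x) / 2) k ∧
      ∫ x, ‖k x‖ ^ 2 ≤ 1/2 * (∫ x, ‖g x‖ ^ 2) + 1/2 * ∫ x, ‖h x‖ ^ 2 := by
  set c : ℝ := √(1/2) with hc
  have hc2 : c ^ 2 = 1/2 := Real.sq_sqrt (by norm_num)
  have m1 : MemLp (fun x => c * √(ρ x)) 2 volume := h1.sq.const_mul c
  have m2 : MemLp (fun x => c * √(σ x)) 2 volume := h2.sq.const_mul c
  have n1 : MemLp (fun x => c • g x) 2 volume := h1.g2.const_smul c
  have n2 : MemLp (fun x => c • h x) 2 volume := h2.g2.const_smul c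
  have hw := WG.hyp m1 n1 (h1.wk.smul c) m2 n2 (h2.wk.smul c)
  refine ⟨_, ⟨h1.md.avg h2.md, hgr_memLp m1 n1 m2 n2, ?_⟩, ?_⟩
  · convert hw using 2 with x
    simp only [mul_pow, hc2, Real.sq_sqrt (h1.md.nonneg _), Real.sq_sqrt (h2.md.nonneg _)]
    congr 1
    ring
  · rw [← integral_const_mul, ← integral_const_mul,
      ← integral_add ((sq_int h1.g2).const_mul _) ((sq_int h2.g2).const_mul _)]
    refine integral_mono (sq_int (hgr_memLp m1 n1 m2 n2))
      (((sq_int h1.g2).const_mul _).add ((sq_int h2.g2).const_mul _)) fun x => ?_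
    have h3 := hgr_sq (fun x => c * √(ρ x)) (fun x => c * √(σ x)) (fun x => c • g x)
      (fun x => c • h x) x
    have h4 : 0 ≤ ‖(c * √(σ x)) • (c • g x) - (c * √(ρ x)) • (c • h x)‖ ^ 2 /
      ((c * √(ρ x)) ^ 2 + (c * √(σ x)) ^ 2) := by positivity
    simp only [norm_smul, mul_pow, Real.norm_eq_abs, sq_abs, hc2] at h3
    show _ ≤ 1/2 * ‖g x‖ ^ 2 + 1/2 * ‖h x‖ ^ 2
    simp only [mul_pow, hc2] at h4
    linarith

lemma sqn {g : E3 → E3} : 0 ≤ ∫ x, ‖g x‖ ^ 2 := integral_nonneg fun x => by positivity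

lemma TP.zero : TP (fun _ => (0:ℝ)) (fun _ => (0 : E3)) := by
  refine ⟨MD.zero, MemLp.zero, ?_⟩
  intro φ _ _ v
  simp

/-- values -/
def valsT (z : ι → ℝ) (R : ι → E3) (m : ℝ) : Set ℝ :=
  {e | ∃ ρ g, TP ρ g ∧ ∫ x, ρ x ≤ m ∧ ET z R ρ g = e}

lemma valsT_bdd {z : ι → ℝ} (hz : ∀ j, 0 ≤ z j) (R : ι → E3) (m : ℝ) :
    BddBelow (valsT z R m) := by
  obtain ⟨C, hC, h⟩ := coercive one_pos hz R (m := m)
  refine ⟨-C, ?_⟩
  rintro e ⟨ρ, g, h1, h2, rfl⟩
  have h3 := h ρ h1.md h2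
  have h4 : 0 ≤ 3/10 * 1 * ∫ x, ρ x ^ (5/3 : ℝ) := by
    have : 0 ≤ ∫ x, ρ x ^ (5/3 : ℝ) :=
      integral_nonneg fun x => Real.rpow_nonneg (h1.md.nonneg x) _
    positivity
  have h5 : 0 ≤ ∫ x, ‖g x‖ ^ 2 := sqn
  unfold ET
  linarith

lemma valsT_ne (z : ι → ℝ) (R : ι → E3) {m : ℝ} (hm : 0 ≤ m) : (valsT z R m).Nonempty :=
  ⟨0, fun _ => 0, fun _ => 0, TP.zero, by simpa using hm, by unfold ET; rw [en_zero]; simp⟩

/-- near-minimisers are close to each other -/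
lemma nearT {z : ι → ℝ} (hz : ∀ j, 0 ≤ z j) (R : ι → E3) {m : ℝ} {ε : ℝ}
    (hε : 0 < ε) : ∃ δ : ℝ, 0 < δ ∧ ∀ (ρ σ : E3 → ℝ) (g g' : E3 → E3), TP ρ g → TP σ g' →
      ∫ x, ρ x ≤ m → ∫ x, σ x ≤ m →
      ET z R ρ g ≤ sInf (valsT z R m) + δ → ET z R σ g' ≤ sInf (valsT z R m) + δ →
      ∫ x, |ρ x - σ x| ^ (5/3 : ℝ) ≤ ε := by
  set γ : ℝ := 1 with hγ1
  have hγ : 0 < γ := one_pos
  obtain ⟨C, hC, hco⟩ := coercive hγ hz R (m := m)
  set I := sInf (valsT z R m) with hI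
  set A : ℝ := (|I| + 1 + C) / (3/10 * γ) with hA
  have hA0 : 0 ≤ A := by positivity
  -- the tuning parameter
  set t : ℝ := (ε / (2 * (8 * A + 1))) ^ (1/5 : ℝ) with ht
  have hq0 : 0 < ε / (2 * (8 * A + 1)) := by positivity
  have ht0 : 0 < t := by positivity
  have ht5 : t ^ 5 = ε / (2 * (8 * A + 1)) := by
    rw [ht, ← Real.rpow_natCast, ← Real.rpow_mul hq0.le]; norm_num
  refine ⟨min 1 (ε / 2 * (3/5 * γ) * t / 24), by positivity, ?_⟩
  intro ρ σ g g' t1 t2 m1 m2 e1 e2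
  have h1 := t1.md
  have h2 := t2.md
  have hd1 : min 1 (ε / 2 * (3/5 * γ) * t / 24) ≤ 1 := min_le_left _ _
  have hd2 : min 1 (ε / 2 * (3/5 * γ) * t / 24) ≤ ε / 2 * (3/5 * γ) * t / 24 := min_le_right _ _
  have hbound : ∀ (τ : E3 → ℝ) (k : E3 → E3), MD τ → ∫ x, τ x ≤ m →
      ET z R τ k ≤ I + min 1 (ε / 2 * (3/5 * γ) * t / 24) → ∫ x, τ x ^ (5/3 : ℝ) ≤ A := by
    intro τ k hτ hm hE
    have h3 := hco τ hτ hm
    have hk : 0 ≤ ∫ x, ‖k x‖ ^ 2 := sqn
    unfold ET at hE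
    rw [hA, le_div_iff₀ (by positivity)]
    have := le_abs_self I
    linarith
  have b1 := hbound ρ g h1 m1 e1
  have b2 := hbound σ g' h2 m2 e2
  have hmid := mid (γ := γ) z R h1 h2
  have havg := h1.avg h2
  obtain ⟨k, hk1, hk2⟩ := t1.avg t2
  have hI2 : I ≤ ET z R (fun x => (ρ x + σ x) / 2) k := by
    refine csInf_le (valsT_bdd hz R m) ⟨_, k, hk1, ?_, rfl⟩
    have : ∫ x, (ρ x + σ x) / 2 = ((∫ x, ρ x) + ∫ x, σ x) / 2 := by
      rw [← integral_add h1.int h2.int, integral_div]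
    rw [this]; linarith
  set G : ℝ := 1/2 * (∫ x, ρ x ^ (5/3 : ℝ)) + 1/2 * (∫ x, σ x ^ (5/3 : ℝ)) -
      ∫ x, ((ρ x + σ x) / 2) ^ (5/3 : ℝ) with hG
  have hGle : 3/5 * γ * G ≤ ε / 2 * (3/5 * γ) * t / 24 := by
    unfold ET at hI2 e1 e2
    linarith
  have hGle' : 24 / t * G ≤ ε / 2 := by
    have h5 : G ≤ ε / 2 * t / 24 := by
      have : 3/5 * γ * G ≤ 3/5 * γ * (ε / 2 * t / 24) := by linarith
      exact le_of_mul_le_mul_left this (by positivity)
    have := mul_le_mul_of_nonneg_left h5 (show 0 ≤ 24 / t by positivity)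
    refine this.trans (le_of_eq ?_)
    field_simp
  -- pointwise sum bound
  have hsum : ∀ x, (ρ x + σ x) ^ (5/3 : ℝ) ≤ 4 * (ρ x ^ (5/3 : ℝ) + σ x ^ (5/3 : ℝ)) := by
    intro x
    have a := h1.nonneg x
    have b := h2.nonneg x
    have h6 : (ρ x + σ x) ^ (5/3 : ℝ) ≤ (2 * max (ρ x) (σ x)) ^ (5/3 : ℝ) := by
      refine Real.rpow_le_rpow (by positivity) ?_ (by norm_num)
      rcases le_total (ρ x) (σ x) with h | h
      · rw [max_eq_right h]; linarith
      · rw [max_eq_left h]; linarith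
    have h7 : (2 * max (ρ x) (σ x)) ^ (5/3 : ℝ) ≤ 4 * max (ρ x) (σ x) ^ (5/3 : ℝ) := by
      rw [Real.mul_rpow (by norm_num) (le_max_of_le_left a)]
      have : (2:ℝ) ^ (5/3 : ℝ) ≤ 4 := by
        calc (2:ℝ) ^ (5/3 : ℝ) ≤ 2 ^ (2:ℝ) := Real.rpow_le_rpow_of_exponent_le (by norm_num) (by norm_num)
          _ = 4 := by norm_num
      exact mul_le_mul_of_nonneg_right this (Real.rpow_nonneg (le_max_of_le_left a) _)
    have h8 : max (ρ x) (σ x) ^ (5/3 : ℝ) ≤ ρ x ^ (5/3 : ℝ) + σ x ^ (5/3 : ℝ) := by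
      rcases le_total (ρ x) (σ x) with h | h
      · rw [max_eq_right h]; have := Real.rpow_nonneg a (5/3 : ℝ); linarith
      · rw [max_eq_left h]; have := Real.rpow_nonneg b (5/3 : ℝ); linarith
    linarith
  have isum : Integrable (fun x => (ρ x + σ x) ^ (5/3 : ℝ)) :=
    (Nice.md (nice_add h1.nice h2.nice) fun x => add_nonneg (h1.nonneg x) (h2.nonneg x)).int_pow
  have hS : ∫ x, (ρ x + σ x) ^ (5/3 : ℝ) ≤ 8 * A := by
    have : ∫ x, (ρ x + σ x) ^ (5/3 : ℝ) ≤ ∫ x, 4 * (ρ x ^ (5/3 : ℝ) + σ x ^ (5/3 : ℝ)) :=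
      integral_mono isum ((h1.int_pow.add h2.int_pow).const_mul 4) hsum
    rw [integral_const_mul, integral_add h1.int_pow h2.int_pow] at this
    linarith
  have igap : Integrable (fun x => 1/2 * ρ x ^ (5/3 : ℝ) + 1/2 * σ x ^ (5/3 : ℝ) -
      ((ρ x + σ x) / 2) ^ (5/3 : ℝ)) :=
    ((h1.int_pow.const_mul _).add (h2.int_pow.const_mul _)).sub havg.int_pow
  have vgap : ∫ x, (1/2 * ρ x ^ (5/3 : ℝ) + 1/2 * σ x ^ (5/3 : ℝ) -
      ((ρ x + σ x) / 2) ^ (5/3 : ℝ)) = G := by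
    have j : Integrable (fun x => 1/2 * ρ x ^ (5/3 : ℝ) + 1/2 * σ x ^ (5/3 : ℝ)) :=
      (h1.int_pow.const_mul _).add (h2.int_pow.const_mul _)
    rw [integral_sub j havg.int_pow, integral_add (h1.int_pow.const_mul _)
      (h2.int_pow.const_mul _), integral_const_mul, integral_const_mul]
  have hfin : ∫ x, |ρ x - σ x| ^ (5/3 : ℝ) ≤ 24 / t * G + t ^ 5 * ∫ x, (ρ x + σ x) ^ (5/3 : ℝ) := by
    rw [← vgap, ← integral_const_mul, ← integral_const_mul, ← integral_add (igap.const_mul _)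
      (isum.const_mul _)]
    exact integral_mono (nice_sub h1.nice h2.nice).2.2 ((igap.const_mul _).add (isum.const_mul _))
      fun x => gap53 (h1.nonneg x) (h2.nonneg x) ht0
  have hlast : t ^ 5 * ∫ x, (ρ x + σ x) ^ (5/3 : ℝ) ≤ ε / 2 := by
    have h9 : t ^ 5 * ∫ x, (ρ x + σ x) ^ (5/3 : ℝ) ≤ t ^ 5 * (8 * A + 1) :=
      mul_le_mul_of_nonneg_left (by linarith) (by positivity)
    refine h9.trans (le_of_eq ?_)
    rw [ht5]; field_simp
  linarith

/-- **existence of minimisers** -/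
theorem exists_minT {z : ι → ℝ} (hz : ∀ j, 0 ≤ z j) (R : ι → E3) {m : ℝ}
    (hm : 0 ≤ m) : ∃ ρ g, TP ρ g ∧ ∫ x, ρ x ≤ m ∧
      ∀ σ h, TP σ h → ∫ x, σ x ≤ m → ET z R ρ g ≤ ET z R σ h := by
  set γ : ℝ := 1 with hγ1
  have hγ : 0 < γ := one_pos
  set I := sInf (valsT z R m) with hI
  have hbdd := valsT_bdd hz R m
  have hne := valsT_ne z R hm
  have hη : ∀ N : ℕ, (0:ℝ) < ((1/2 : ℝ) ^ (N + 1)) ^ (5/3 : ℝ) := fun N => by positivity
  choose δ hδ0 hδ using fun N => nearT hz R (m := m) (hη N)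
  -- decreasing thresholds
  set δ' : ℕ → ℝ := fun n => (Finset.range (n + 1)).inf' (by simp) δ with hδ'
  have hδ'0 : ∀ n, 0 < δ' n := by
    intro n
    rw [hδ', Finset.lt_inf'_iff]
    exact fun i _ => hδ0 i
  have hδ'le : ∀ N n, N ≤ n → δ' n ≤ δ N := fun N n h =>
    Finset.inf'_le δ (Finset.mem_range.2 (Nat.lt_succ_of_le h))
  have hseq : ∀ n : ℕ, ∃ ρ g, TP ρ g ∧ ∫ x, ρ x ≤ m ∧
      ET z R ρ g < I + min (δ' n) (1 / ((n:ℝ) + 1)) := by
    intro n
    have hpos : 0 < min (δ' n) (1 / ((n:ℝ) + 1)) := lt_min (hδ'0 n) (by positivity)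
    obtain ⟨e, ⟨ρ, g, h1, h2, rfl⟩, h3⟩ := exists_lt_of_csInf_lt hne
      (show sInf (valsT z R m) < I + min (δ' n) (1 / ((n:ℝ) + 1)) by rw [← hI]; linarith)
    exact ⟨ρ, g, h1, h2, h3⟩
  choose f gn hfT hfm hfE using hseq
  have hf : ∀ n, MD (f n) := fun n => (hfT n).md
  have hle : ∀ N n, N ≤ n → ET z R (f n) (gn n) ≤ I + δ N := by
    intro N n h
    have h1 := hfE n
    have h2 : min (δ' n) (1 / ((n:ℝ) + 1)) ≤ δ' n := min_le_left _ _
    have h3 := hδ'le N n h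
    linarith
  obtain ⟨g, hg, hgm, hlim⟩ := complete hf hfm (fun N n k hn hk =>
    hδ N (f n) (f k) _ _ (hfT n) (hfT k) (hfm n) (hfm k) (hle N n hn) (hle N k hk))
  -- bound for the gradients
  obtain ⟨C0, hC0, hco⟩ := coercive one_pos hz R (m := m)
  have hgB : ∀ n, ∫ x, ‖gn n x‖ ^ 2 ≤ |I| + 1 + C0 := by
    intro n
    have h1 := hfE n
    have h2 := hco (f n) (hf n) (hfm n)
    have h3 : 0 ≤ 3/10 * 1 * ∫ x, f n x ^ (5/3 : ℝ) := by
      have : 0 ≤ ∫ x, f n x ^ (5/3 : ℝ) :=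
        integral_nonneg fun x => Real.rpow_nonneg ((hf n).nonneg x) _
      positivity
    have h4 : min (δ' n) (1 / ((n:ℝ) + 1)) ≤ 1 := by
      refine (min_le_right _ _).trans ?_
      rw [div_le_one (by positivity)]
      have : (0:ℝ) ≤ n := Nat.cast_nonneg n
      linarith
    have h5 := le_abs_self I
    unfold ET at h1
    linarith
  obtain ⟨h, hh2, hhw, hlsc⟩ := grad_lsc (fun n x => (hf n).nonneg x) (fun n => (hf n).int)
    hg.nonneg hg.int (fun n => (nice_sub (hf n).nice hg.nice).2.2) hlim (fun n => (hfT n).g2)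
    (fun n => (hfT n).wk) hgB
  refine ⟨g, h, ⟨hg, hh2, hhw⟩, hgm, ?_⟩
  have hAg0 : 0 ≤ ∫ x, g x ^ (5/3 : ℝ) := integral_nonneg fun x => Real.rpow_nonneg (hg.nonneg x) _
  set A := ∫ x, g x ^ (5/3 : ℝ) with hA
  set Z : ℝ := ∑ j, z j with hZ
  have hZ0 : 0 ≤ Z := Finset.sum_nonneg fun j _ => hz j
  -- the energy of the limit
  have key : ∀ ε : ℝ, 0 < ε → ET z R g h ≤ I + ε + ε := by
    intro ε hε
    -- potentials
    obtain ⟨δ1, hδ1, hpot⟩ := small_pot (2 * m) (ε / 3 / (Z + m + 1)) (by positivity) (by positivity)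
    -- kinetic energy
    set c : ℝ := ε / 6 / (γ * (2/5 * (A + 1))) with hc
    have hc0 : 0 < c := by positivity
    set κ : ℝ := c ^ (2/5 : ℝ) with hκ
    have hκ0 : 0 < κ := by positivity
    have hκc : κ ^ (5/2 : ℝ) = c := by
      rw [hκ, ← Real.rpow_mul hc0.le]; norm_num
    set δ2 : ℝ := ε / 6 / (γ * (3/5 * κ ^ (-(5/3) : ℝ))) with hδ2
    have hδ20 : 0 < δ2 := by positivity
    have ev1 : ∀ᶠ n in atTop, ∫ x, |f n x - g x| ^ (5/3 : ℝ) < min δ1 δ2 :=
      hlim.eventually_lt_const (lt_min hδ1 hδ20)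
    have ev2 : ∀ᶠ n : ℕ in atTop, 1 / ((n:ℝ) + 1) < ε / 3 :=
      (tendsto_one_div_add_atTop_nhds_zero_nat (𝕜 := ℝ)).eventually_lt_const (by positivity)
    obtain ⟨n, ⟨h1, h2⟩, hlscn⟩ := (((ev1.and ev2).filter_mono Nat.hyperfilter_le_atTop).and
      (hlsc ε hε)).exists
    have ha1 : ∫ x, |f n x - g x| ^ (5/3 : ℝ) ≤ δ1 := h1.le.trans (min_le_left _ _)
    have ha2 : ∫ x, |f n x - g x| ^ (5/3 : ℝ) ≤ δ2 := h1.le.trans (min_le_right _ _)
    have hN := nice_sub (hf n).nice hg.nice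
    have hmass : ∫ x, |f n x - g x| ≤ 2 * m := by
      have : ∫ x, |f n x - g x| ≤ ∫ x, (f n x + g x) := by
        refine integral_mono hN.2.1.abs ((hf n).int.add hg.int) fun x => ?_
        show |f n x - g x| ≤ f n x + g x
        have a := (hf n).nonneg x
        have b := hg.nonneg x
        rw [abs_le]; constructor <;> linarith
      rw [integral_add (hf n).int hg.int] at this
      have := hfm n
      linarith
    have hsup : ∀ x, |pot (f n) x - pot g x| ≤ ε / 3 / (Z + m + 1) := by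
      intro x
      rw [← pot_sub (hf n).nice hg.nice]
      exact (pot_le_abs hN x).trans (hpot _ hN hmass ha1 x)
    set η := ε / 3 / (Z + m + 1) with hη'
    have hη0 : 0 < η := by positivity
    -- nuclear attraction
    have hnuc : ∑ j, z j * pot (f n) (R j) ≤ (∑ j, z j * pot g (R j)) + Z * η := by
      rw [hZ, Finset.sum_mul, ← Finset.sum_add_distrib]
      refine Finset.sum_le_sum fun j _ => ?_
      rw [← mul_add]
      refine mul_le_mul_of_nonneg_left ?_ (hz j)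
      have := hsup (R j)
      rw [abs_le] at this
      linarith [this.2]
    -- repulsion
    have hrep : ∫ x, g x * pot g x ≤ (∫ x, f n x * pot (f n) x) + 2 * (m * η) := by
      have i1 := pd_int g g hg.nice hg.nice
      have i2 := pd_int g (f n) hg.nice (hf n).nice
      have i3 := pd_int (f n) g (hf n).nice hg.nice
      have i4 := pd_int (f n) (f n) (hf n).nice (hf n).nice
      have s1 : ∫ x, g x * pot g x ≤ (∫ x, g x * pot (f n) x) + m * η := by
        have : ∫ x, g x * pot g x ≤ ∫ x, (g x * pot (f n) x + η * g x) := by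
          refine integral_mono i1 (i2.add (hg.int.const_mul η)) fun x => ?_
          show g x * pot g x ≤ g x * pot (f n) x + η * g x
          have h3 := hsup x
          rw [abs_le] at h3
          have := mul_le_mul_of_nonneg_left (show pot g x ≤ pot (f n) x + η by linarith [h3.1])
            (hg.nonneg x)
          linarith
        rw [integral_add i2 (hg.int.const_mul η), integral_const_mul] at this
        have h4 := mul_le_mul_of_nonneg_left hgm hη0.le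
        linarith
      have s2 : ∫ x, g x * pot (f n) x ≤ (∫ x, f n x * pot (f n) x) + m * η := by
        rw [pd_swap g (f n) hg.nice (hf n).nice]
        have : ∫ x, f n x * pot g x ≤ ∫ x, (f n x * pot (f n) x + η * f n x) := by
          refine integral_mono i3 (i4.add ((hf n).int.const_mul η)) fun x => ?_
          show f n x * pot g x ≤ f n x * pot (f n) x + η * f n x
          have h3 := hsup x
          rw [abs_le] at h3
          have := mul_le_mul_of_nonneg_left (show pot g x ≤ pot (f n) x + η by linarith [h3.1])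
            ((hf n).nonneg x)
          linarith
        rw [integral_add i4 ((hf n).int.const_mul η), integral_const_mul] at this
        have h4 := mul_le_mul_of_nonneg_left (hfm n) hη0.le
        linarith
      linarith
    -- kinetic energy
    have hkin : 3/5 * γ * A ≤ 3/5 * γ * (∫ x, f n x ^ (5/3 : ℝ)) + ε / 3 := by
      have hpt : ∀ x, 3/5 * g x ^ (5/3 : ℝ) ≤ 3/5 * f n x ^ (5/3 : ℝ) +
          (2/5 * c * g x ^ (5/3 : ℝ) + 3/5 * κ ^ (-(5/3) : ℝ) * |f n x - g x| ^ (5/3 : ℝ)) := by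
        intro x
        have h3 := (TFMin.tangent_le ((hf n).nonneg x) (hg.nonneg x)).1
        have hq : Real.HolderConjugate (5/2) (5/3) := by
          rw [Real.holderConjugate_iff]
          constructor <;> norm_num
        have hy := Real.young_inequality_of_nonneg
          (show 0 ≤ κ * g x ^ (2/3 : ℝ) by
            have := hg.nonneg x; positivity)
          (show 0 ≤ |f n x - g x| / κ by positivity) hq
        rw [Real.div_rpow (abs_nonneg _) hκ0.le, Real.mul_rpow hκ0.le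
          (Real.rpow_nonneg (hg.nonneg x) _), ← Real.rpow_mul (hg.nonneg x), hκc] at hy
        have e1 : κ * g x ^ (2/3 : ℝ) * (|f n x - g x| / κ) = g x ^ (2/3 : ℝ) * |f n x - g x| := by
          field_simp
        have e2 : κ ^ (-(5/3) : ℝ) = (κ ^ (5/3 : ℝ))⁻¹ := Real.rpow_neg hκ0.le _
        rw [e1, show (2/3 * (5/2) : ℝ) = 5/3 by norm_num] at hy
        rw [e2]
        have e3 : c * g x ^ (5/3 : ℝ) / (5/2) + |f n x - g x| ^ (5/3 : ℝ) / κ ^ (5/3 : ℝ) / (5/3) =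
            2/5 * c * g x ^ (5/3 : ℝ) + 3/5 * (κ ^ (5/3 : ℝ))⁻¹ * |f n x - g x| ^ (5/3 : ℝ) := by
          rw [div_eq_mul_inv (|f n x - g x| ^ (5/3 : ℝ))]; ring
        rw [e3] at hy
        have h4 : -(g x ^ (2/3 : ℝ) * |f n x - g x|) ≤ g x ^ (2/3 : ℝ) * (f n x - g x) := by
          rw [← mul_neg]
          exact mul_le_mul_of_nonneg_left (neg_abs_le _) (Real.rpow_nonneg (hg.nonneg x) _)
        linarith
      have i1 := (hf n).int_pow.const_mul (3/5)
      have i2 := hg.int_pow.const_mul (2/5 * c)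
      have i3 := hN.2.2.const_mul (3/5 * κ ^ (-(5/3) : ℝ))
      have i23 : Integrable (fun x => 2/5 * c * g x ^ (5/3 : ℝ) +
        3/5 * κ ^ (-(5/3) : ℝ) * |f n x - g x| ^ (5/3 : ℝ)) := i2.add i3
      have i123 : Integrable (fun x => 3/5 * f n x ^ (5/3 : ℝ) + (2/5 * c * g x ^ (5/3 : ℝ) +
        3/5 * κ ^ (-(5/3) : ℝ) * |f n x - g x| ^ (5/3 : ℝ))) := i1.add i23
      have h5 := integral_mono (hg.int_pow.const_mul (3/5)) i123 hpt
      rw [integral_const_mul, integral_add i1 i23, integral_add i2 i3, integral_const_mul,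
        integral_const_mul, integral_const_mul, ← hA] at h5
      have h6 : γ * (2/5 * c * A) ≤ ε / 6 := by
        have : γ * (2/5 * c * A) ≤ γ * (2/5 * c * (A + 1)) :=
          mul_le_mul_of_nonneg_left (mul_le_mul_of_nonneg_left (by linarith) (by positivity)) hγ.le
        refine this.trans (le_of_eq ?_)
        rw [hc]; field_simp
      have h7 : γ * (3/5 * κ ^ (-(5/3) : ℝ) * ∫ x, |f n x - g x| ^ (5/3 : ℝ)) ≤ ε / 6 := by
        have : γ * (3/5 * κ ^ (-(5/3) : ℝ) * ∫ x, |f n x - g x| ^ (5/3 : ℝ)) ≤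
            γ * (3/5 * κ ^ (-(5/3) : ℝ) * δ2) :=
          mul_le_mul_of_nonneg_left (mul_le_mul_of_nonneg_left ha2 (by positivity)) hγ.le
        refine this.trans (le_of_eq ?_)
        rw [hδ2]
        have : 0 < κ ^ (-(5/3) : ℝ) := by positivity
        field_simp
      have h8 := mul_le_mul_of_nonneg_left h5 hγ.le
      linarith
    have hZm : (Z + m) * η ≤ ε / 3 := by
      rw [hη', mul_div_assoc', div_le_iff₀ (by positivity)]
      nlinarith
    have hEn := hfE n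
    have h9 : min (δ' n) (1 / ((n:ℝ) + 1)) ≤ 1 / ((n:ℝ) + 1) := min_le_right _ _
    unfold ET En at hEn ⊢
    rw [← hA]
    linarith
  intro σ k hσ hσm
  have h1 : ET z R g h ≤ I := le_of_forall_pos_le_add fun ε hε => by
    have := key (ε / 2) (by positivity)
    linarith
  exact h1.trans (csInf_le hbdd ⟨σ, k, hσ, hσm, rfl⟩)

end Pool.Agent.Run7.h828.TFW
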