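import Pool.Agent.Run7.h828.TFW.E7

/-!
# Molecules in Thomas-Fermi-von Weizsäcker theory bind more electrons than their nuclear charge
-/

set_option autoImplicit false

open MeasureTheory Filter Topology Set
open scoped ENNReal NNReal ContDiff

namespace Pool.Agent.Run7.h828.TFW

open Pool.Agent.TH791.Cl Pool.Agent.TH791.Nw Pool.Agent.R999.Pot Pool.Agent.R999.MinP
open Pool.Agent.R999.Newton Pool.Agent.R999 Pool.Agent.R999.Ex

variable {ι : Type*} [Fintype ι]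

/-- a measurable nonnegative representative -/
lemma TP.rep {σ : E3 → ℝ} {k : E3 → E3} (h0 : ∀ x, 0 ≤ σ x) (hi : Integrable σ)
    (hp : Integrable (fun x => σ x ^ (5/3 : ℝ))) (hk : MemLp k 2 volume)
    (hw : WG (fun x => √(σ x)) k) : ∃ σ', TP σ' k ∧ σ =ᵐ[volume] σ' := by
  set σ' : E3 → ℝ := fun x => max (hi.1.mk σ x) 0 with hσ'
  have hae : σ =ᵐ[volume] σ' := by
    filter_upwards [hi.1.ae_eq_mk] with x hx
    rw [hσ']
    show σ x = max (hi.1.mk σ x) 0
    rw [← hx, max_eq_left (h0 x)]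
  refine ⟨σ', ⟨⟨?_, fun x => le_max_right _ _, hi.congr hae, ?_⟩, hk, ?_⟩, hae⟩
  · exact hi.1.stronglyMeasurable_mk.measurable.max measurable_const
  · refine hp.congr ?_
    filter_upwards [hae] with x hx
    rw [hx]
  · intro φ hφ hφs v
    rw [← hw φ hφ hφs v]
    refine integral_congr_ae ?_
    filter_upwards [hae] with x hx
    rw [hx]

lemma energy_congr {V : E3 → ℝ} {σ σ' : E3 → ℝ} (h : σ =ᵐ[volume] σ') :
    TFMin.energy 1 V σ = TFMin.energy 1 V σ' := by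
  unfold TFMin.energy
  have e1 : ∫ x, σ x ^ (5/3 : ℝ) = ∫ x, σ' x ^ (5/3 : ℝ) := by
    refine integral_congr_ae ?_
    filter_upwards [h] with x hx
    rw [hx]
  have e2 : ∫ x, V x * σ x = ∫ x, V x * σ' x := by
    refine integral_congr_ae ?_
    filter_upwards [h] with x hx
    rw [hx]
  have e3 : ∫ x, ∫ y, σ x * σ y / ‖x - y‖ = ∫ x, ∫ y, σ' x * σ' y / ‖x - y‖ := by
    refine integral_congr_ae ?_
    filter_upwards [h] with x hx
    refine integral_congr_ae ?_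
    filter_upwards [h] with y hy
    rw [hx, hy]
  rw [e1, e2, e3]

/-- **Main theorem.** -/
theorem main {z : ι → ℝ} (hz : ∀ j, 0 ≤ z j) (hZ : 0 < ∑ j, z j) (R : ι → E3) :
    ∃ N : ℝ, (∑ j, z j) < N ∧ ∃ ρ g, TP ρ g ∧ ∫ x, ρ x = N ∧
      ∀ σ k, (∀ x, 0 ≤ σ x) → Integrable σ → Integrable (fun x => σ x ^ (5/3 : ℝ)) →
        MemLp k 2 volume → WG (fun x => √(σ x)) k → ∫ x, σ x = N →
        (∫ x, ‖g x‖ ^ 2) + TFMin.energy 1 (Vn z R) ρ ≤
          (∫ x, ‖k x‖ ^ 2) + TFMin.energy 1 (Vn z R) σ := by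
  obtain ⟨ρ, g, h, hm, hmin⟩ := exists_minT hz R (show 0 ≤ (∑ j, z j) + 1 by linarith)
  have hN : ∑ j, z j < ∫ x, ρ x := by
    by_contra hcon
    push Not at hcon
    exact no_min hz hZ h hmin hcon
  refine ⟨∫ x, ρ x, hN, ρ, g, h, rfl, ?_⟩
  intro σ k h0 hi hp hk hw hσN
  obtain ⟨σ', hT, hae⟩ := TP.rep h0 hi hp hk hw
  have h1 := hmin σ' k hT (by
    rw [← integral_congr_ae hae, hσN]; exact hm)
  unfold ET at h1
  rw [← energy_eq 1 z R h.md.nice, ← energy_eq 1 z R hT.md.nice, ← energy_congr hae] at h1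
  exact h1

end Pool.Agent.Run7.h828.TFW
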