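import Pool.Agent.Run7.h828.TFW.EX

/-!
# The variation inequality
-/

set_option autoImplicit false

open MeasureTheory Filter Topology Set
open scoped ENNReal NNReal ContDiff

namespace Pool.Agent.Run7.h828.TFW

open Pool.Agent.TH791.Cl Pool.Agent.TH791.Nw Pool.Agent.R999.Pot Pool.Agent.R999.MinP
open Pool.Agent.R999.Newton Pool.Agent.R999 Pool.Agent.R999.Ex

variable {ι : Type*} [Fintype ι]

/-- squares of test functions are nice -/
lemma nice_sqt {χ : E3 → ℝ} (hχ : Continuous χ) (hs : HasCompactSupport χ) :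
    Nice (fun x => χ x ^ 2) := by
  have hc : Continuous (fun x => χ x ^ 2) := hχ.pow 2
  have hs2 : HasCompactSupport (fun x => χ x ^ 2) := by
    have : (fun x => χ x ^ 2) = fun x => χ x * χ x := by funext x; ring
    rw [this]; exact hs.mul_left
  refine ⟨hc.measurable, hc.integrable_of_hasCompactSupport hs2, ?_⟩
  have h3 : Continuous (fun x => |χ x ^ 2| ^ (5/3 : ℝ)) :=
    hc.abs.rpow_const fun x => Or.inr (by norm_num)
  refine h3.integrable_of_hasCompactSupport ?_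
  refine hs2.mono fun x hx => ?_
  rw [Function.mem_support] at hx ⊢
  intro h0
  apply hx
  rw [h0, abs_zero, Real.zero_rpow (by norm_num)]

/-- `|χ g - √ρ ∇χ|² / (ρ + t χ²)` -/
noncomputable def DD (ρ : E3 → ℝ) (g : E3 → E3) (χ : E3 → ℝ) (t : ℝ) (x : E3) : ℝ :=
  ‖χ x • g x - √(ρ x) • gradient χ x‖ ^ 2 / (ρ x + t * χ x ^ 2)

lemma DD_nonneg {ρ : E3 → ℝ} (h0 : ∀ x, 0 ≤ ρ x) (g : E3 → E3) (χ : E3 → ℝ) {t : ℝ} (ht : 0 < t)
    (x : E3) : 0 ≤ DD ρ g χ t x := by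
  unfold DD
  have := h0 x
  positivity

lemma grad_cont {χ : E3 → ℝ} (hχ : ContDiff ℝ 1 χ) : Continuous (gradient χ) :=
  (InnerProductSpace.toDual ℝ E3).symm.continuous.comp (hχ.continuous_fderiv (by simp))

lemma grad_supp {χ : E3 → ℝ} (hs : HasCompactSupport χ) : HasCompactSupport (gradient χ) := by
  refine (hs.fderiv ℝ).mono fun x hx => ?_
  rw [Function.mem_support] at hx ⊢
  intro h0
  apply hx
  show (InnerProductSpace.toDual ℝ E3).symm (fderiv ℝ χ x) = 0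
  rw [h0, map_zero]

lemma grad_memLp {χ : E3 → ℝ} (hχ : ContDiff ℝ 1 χ) (hs : HasCompactSupport χ) :
    MemLp (gradient χ) 2 volume :=
  (grad_cont hχ).memLp_of_hasCompactSupport (grad_supp hs)

lemma DD_meas {ρ : E3 → ℝ} {g : E3 → E3} (h : TP ρ g) {χ : E3 → ℝ} (hχ : ContDiff ℝ 1 χ) (t : ℝ) :
    AEStronglyMeasurable (DD ρ g χ t) volume := by
  unfold DD
  have h1 : AEStronglyMeasurable (fun x => χ x • g x - √(ρ x) • gradient χ x) volume :=
    (hχ.continuous.aestronglyMeasurable.smul h.g2.1).sub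
      (h.sq.1.smul (grad_cont hχ).aestronglyMeasurable)
  exact ((h1.norm.pow 2).aemeasurable.div (h.md.meas.aemeasurable.add
    ((hχ.continuous.pow 2).measurable.aemeasurable.const_mul t))).aestronglyMeasurable

lemma DD_id {ρ : E3 → ℝ} (h0 : ∀ x, 0 ≤ ρ x) (g : E3 → E3) (χ : E3 → ℝ) {t : ℝ} (ht : 0 < t)
    (x : E3) :
    ‖hgr (fun x => √(ρ x)) (fun x => √t * χ x) g (fun x => √t • gradient χ x) x‖ ^ 2 +
      t * DD ρ g χ t x ≤ ‖g x‖ ^ 2 + t * ‖gradient χ x‖ ^ 2 := by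
  have h1 := hgr_sq (fun x => √(ρ x)) (fun x => √t * χ x) g (fun x => √t • gradient χ x) x
  have e1 : ‖√t • gradient χ x‖ ^ 2 = t * ‖gradient χ x‖ ^ 2 := by
    rw [norm_smul, mul_pow, Real.norm_of_nonneg (Real.sqrt_nonneg _), Real.sq_sqrt ht.le]
  have e2 : ‖(√t * χ x) • g x - √(ρ x) • (√t • gradient χ x)‖ ^ 2 =
      t * ‖χ x • g x - √(ρ x) • gradient χ x‖ ^ 2 := by
    have : (√t * χ x) • g x - √(ρ x) • (√t • gradient χ x) =
        √t • (χ x • g x - √(ρ x) • gradient χ x) := by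
      module
    rw [this, norm_smul, mul_pow, Real.norm_of_nonneg (Real.sqrt_nonneg _), Real.sq_sqrt ht.le]
  simp only [e1, e2, mul_pow, Real.sq_sqrt (h0 x), Real.sq_sqrt ht.le] at h1
  unfold DD
  rw [← mul_div_assoc]
  exact h1

lemma DD_int {ρ : E3 → ℝ} {g : E3 → E3} (h : TP ρ g) {χ : E3 → ℝ} (hχ : ContDiff ℝ 1 χ)
    (hs : HasCompactSupport χ) {t : ℝ} (ht : 0 < t) : Integrable (DD ρ g χ t) := by
  have h1 := ((sq_int h.g2).add ((sq_int (grad_memLp hχ hs)).const_mul t)).const_mul (1 / t)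
  refine h1.mono' (DD_meas h hχ t) (ae_of_all _ fun x => ?_)
  rw [Real.norm_of_nonneg (DD_nonneg h.md.nonneg g χ ht x)]
  have h2 := DD_id h.md.nonneg g χ ht x
  have h3 : 0 ≤ ‖hgr (fun x => √(ρ x)) (fun x => √t * χ x) g (fun x => √t • gradient χ x) x‖ ^ 2 :=
    by positivity
  show DD ρ g χ t x ≤ 1 / t * (‖g x‖ ^ 2 + t * ‖gradient χ x‖ ^ 2)
  rw [one_div, inv_mul_eq_div, le_div_iff₀ ht]
  linarith

/-- **the variation inequality** -/
theorem variation {z : ι → ℝ} {R : ι → E3} {m : ℝ} {ρ : E3 → ℝ} {g : E3 → E3} (h : TP ρ g)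
    (hmin : ∀ σ k, TP σ k → ∫ x, σ x ≤ m → ET z R ρ g ≤ ET z R σ k)
    {χ : E3 → ℝ} (hχ : ContDiff ℝ 1 χ) (hs : HasCompactSupport χ) {t : ℝ} (ht : 0 < t)
    (hm : (∫ x, ρ x) + t * ∫ x, χ x ^ 2 ≤ m) :
    ∫ x, DD ρ g χ t x ≤ (∫ x, ‖gradient χ x‖ ^ 2) +
      3/5 / t * (∫ x, ((ρ x + t * χ x ^ 2) ^ (5/3 : ℝ) - ρ x ^ (5/3 : ℝ))) -
      (∑ j, z j * pot (fun x => χ x ^ 2) (R j)) + (∫ x, ρ x * pot (fun x => χ x ^ 2) x) +
      t / 2 * ∫ x, χ x ^ 2 * pot (fun x => χ x ^ 2) x := by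
  have hq := nice_sqt hχ.continuous hs
  have htq : Nice (fun x => t * χ x ^ 2) := nice_mul t hq
  have hnew : MD (fun x => ρ x + t * χ x ^ 2) := Nice.md (nice_add h.md.nice htq) fun x => by
    have := h.md.nonneg x; positivity
  have mχ : MemLp (fun x => √t * χ x) 2 volume := (cc_memLp hχ.continuous hs).const_mul _
  have mG : MemLp (fun x => √t • gradient χ x) 2 volume := (grad_memLp hχ hs).const_smul (√t)
  have hT : TP (fun x => ρ x + t * χ x ^ 2)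
      (hgr (fun x => √(ρ x)) (fun x => √t * χ x) g (fun x => √t • gradient χ x)) := by
    refine ⟨hnew, hgr_memLp h.sq h.g2 mχ mG, ?_⟩
    have hw := WG.hyp h.sq h.g2 h.wk mχ mG ((wg_smooth hχ).smul (√t))
    convert hw using 2 with x
    simp only [mul_pow, Real.sq_sqrt (h.md.nonneg _), Real.sq_sqrt ht.le]
  have hmass : ∫ x, (ρ x + t * χ x ^ 2) ≤ m := by
    rw [integral_add h.md.int htq.2.1, integral_const_mul]
    exact hm
  have h1 := hmin _ _ hT hmass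
  -- gradients
  have h2 : (∫ x, ‖hgr (fun x => √(ρ x)) (fun x => √t * χ x) g
      (fun x => √t • gradient χ x) x‖ ^ 2) + t * (∫ x, DD ρ g χ t x) ≤
      (∫ x, ‖g x‖ ^ 2) + t * ∫ x, ‖gradient χ x‖ ^ 2 := by
    have iD := (DD_int h hχ hs ht).const_mul t
    have iG := (sq_int (grad_memLp hχ hs)).const_mul t
    rw [← integral_const_mul, ← integral_const_mul, ← integral_add (sq_int hT.g2) iD,
      ← integral_add (sq_int h.g2) iG]
    exact integral_mono ((sq_int hT.g2).add iD) ((sq_int h.g2).add iG)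
      fun x => DD_id h.md.nonneg g χ ht x
  -- the rest
  have e1 : ∫ x, (ρ x + t * χ x ^ 2) * pot (fun x => ρ x + t * χ x ^ 2) x =
      (∫ x, ρ x * pot ρ x) + 2 * (t * ∫ x, ρ x * pot (fun x => χ x ^ 2) x) +
      t ^ 2 * ∫ x, χ x ^ 2 * pot (fun x => χ x ^ 2) x := by
    rw [coul_add h.md.nice htq, coul_mul t (fun x => χ x ^ 2)]
    congr 3
    rw [← integral_const_mul]
    congr 1; funext x
    rw [pot_mul]; ring
  have e2 : ∑ j, z j * pot (fun x => ρ x + t * χ x ^ 2) (R j) =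
      (∑ j, z j * pot ρ (R j)) + t * ∑ j, z j * pot (fun x => χ x ^ 2) (R j) := by
    rw [Finset.mul_sum, ← Finset.sum_add_distrib]
    refine Finset.sum_congr rfl fun j _ => ?_
    rw [pot_add h.md.nice htq, pot_mul]; ring
  have e3 : ∫ x, ((ρ x + t * χ x ^ 2) ^ (5/3 : ℝ) - ρ x ^ (5/3 : ℝ)) =
      (∫ x, (ρ x + t * χ x ^ 2) ^ (5/3 : ℝ)) - ∫ x, ρ x ^ (5/3 : ℝ) :=
    integral_sub hnew.int_pow h.md.int_pow
  unfold ET En at h1
  rw [e1, e2] at h1
  rw [e3]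
  have h4 : t * ((∫ x, ‖gradient χ x‖ ^ 2) +
      3/5 / t * ((∫ x, (ρ x + t * χ x ^ 2) ^ (5/3 : ℝ)) - ∫ x, ρ x ^ (5/3 : ℝ)) -
      (∑ j, z j * pot (fun x => χ x ^ 2) (R j)) + (∫ x, ρ x * pot (fun x => χ x ^ 2) x) +
      t / 2 * ∫ x, χ x ^ 2 * pot (fun x => χ x ^ 2) x) =
      t * (∫ x, ‖gradient χ x‖ ^ 2) +
      3/5 * ((∫ x, (ρ x + t * χ x ^ 2) ^ (5/3 : ℝ)) - ∫ x, ρ x ^ (5/3 : ℝ)) -
      t * (∑ j, z j * pot (fun x => χ x ^ 2) (R j)) +
      t * (∫ x, ρ x * pot (fun x => χ x ^ 2) x) +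
      t ^ 2 / 2 * ∫ x, χ x ^ 2 * pot (fun x => χ x ^ 2) x := by
    field_simp
  refine le_of_mul_le_mul_left ?_ ht
  rw [h4]
  linarith

end Pool.Agent.Run7.h828.TFW
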