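import Pool.Agent.Helper149.Mollify
import Pool.Agent.TH791.Coul

/-!
# Weak gradients: smooth approximation and chain rules
-/

set_option autoImplicit false

open MeasureTheory Filter Topology Set
open scoped ENNReal NNReal Convolution ContDiff

namespace Pool.Agent.Run7.h828.TFW

open Pool.Agent.TH791.Cl

/-- `g` is the weak gradient of `u`. -/
def WG (u : E3 → ℝ) (g : E3 → E3) : Prop :=
  ∀ φ : E3 → ℝ, ContDiff ℝ ∞ φ → HasCompactSupport φ → ∀ v : E3,
    ∫ x, u x * fderiv ℝ φ x v = -∫ x, inner ℝ (g x) v * φ x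

lemma sq_int {F : Type*} [NormedAddCommGroup F] {f : E3 → F} (hf : MemLp f 2 volume) :
    Integrable (fun x => ‖f x‖ ^ 2) := hf.integrable_norm_pow (by norm_num)

lemma strong {F : Type*} [NormedAddCommGroup F] {f : ℕ → E3 → F} {h : E3 → F}
    (hf : ∀ n, MemLp (f n) 2 volume) (hh : MemLp h 2 volume)
    (hae : ∀ᵐ x, Tendsto (fun n => f n x) atTop (𝓝 (h x)))
    (hle : ∀ n, ∫ x, ‖f n x‖ ^ 2 ≤ ∫ x, ‖h x‖ ^ 2) :
    Tendsto (fun n => ∫ x, ‖f n x - h x‖ ^ 2) atTop (𝓝 0) := by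
  set A := ∫ x, ‖h x‖ ^ 2 with hA
  have ih := sq_int hh
  have iff' := fun n => sq_int (hf n)
  have ifh : ∀ n, Integrable (fun x => ‖f n x - h x‖ ^ 2) := fun n => sq_int ((hf n).sub hh)
  have hA0 : 0 ≤ A := integral_nonneg fun x => by positivity
  have hd0 : ∀ n, 0 ≤ ∫ x, ‖f n x - h x‖ ^ 2 := fun n => integral_nonneg fun x => by positivity
  have hpt : ∀ n x, 0 ≤ 2 * ‖f n x‖ ^ 2 + 2 * ‖h x‖ ^ 2 - ‖f n x - h x‖ ^ 2 := by
    intro n x
    have := norm_sub_le (f n x) (h x)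
    nlinarith [norm_nonneg (f n x), norm_nonneg (h x), norm_nonneg (f n x - h x),
      sq_nonneg (‖f n x‖ - ‖h x‖)]
  have iD : ∀ n, Integrable (fun x => 2 * ‖f n x‖ ^ 2 + 2 * ‖h x‖ ^ 2 - ‖f n x - h x‖ ^ 2) :=
    fun n => (((iff' n).const_mul 2).add (ih.const_mul 2)).sub (ifh n)
  have vD : ∀ n, ∫ x, (2 * ‖f n x‖ ^ 2 + 2 * ‖h x‖ ^ 2 - ‖f n x - h x‖ ^ 2) ≤
      4 * A - ∫ x, ‖f n x - h x‖ ^ 2 := by
    intro n
    have i1 : Integrable (fun x => 2 * ‖f n x‖ ^ 2 + 2 * ‖h x‖ ^ 2) :=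
      ((iff' n).const_mul 2).add (ih.const_mul 2)
    rw [integral_sub i1 (ifh n), integral_add ((iff' n).const_mul 2) (ih.const_mul 2),
      integral_const_mul, integral_const_mul]
    have := hle n
    linarith
  rcases eq_or_lt_of_le hA0 with h0 | hpos
  · refine tendsto_of_tendsto_of_tendsto_of_le_of_le (tendsto_const_nhds) tendsto_const_nhds
      (fun n => hd0 n) (fun n => ?_)
    have h1 := vD n
    have h2 : 0 ≤ ∫ x, (2 * ‖f n x‖ ^ 2 + 2 * ‖h x‖ ^ 2 - ‖f n x - h x‖ ^ 2) :=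
      integral_nonneg fun x => hpt n x
    show _ ≤ (0:ℝ)
    linarith
  · rw [Metric.tendsto_atTop]
    intro ε hε
    have hF := lintegral_liminf_le' (μ := (volume : Measure E3)) (u := atTop)
      (f := fun n x => ENNReal.ofReal (2 * ‖f n x‖ ^ 2 + 2 * ‖h x‖ ^ 2 - ‖f n x - h x‖ ^ 2))
      (fun n => (iD n).aestronglyMeasurable.aemeasurable.ennreal_ofReal)
    have hL : ∫⁻ x, liminf (fun n => ENNReal.ofReal (2 * ‖f n x‖ ^ 2 + 2 * ‖h x‖ ^ 2 -
        ‖f n x - h x‖ ^ 2)) atTop = ENNReal.ofReal (4 * A) := by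
      rw [hA, ← integral_const_mul, ofReal_integral_eq_lintegral_ofReal (ih.const_mul 4)
        (ae_of_all _ fun x => by positivity)]
      refine lintegral_congr_ae ?_
      filter_upwards [hae] with x hx
      have h3 : Tendsto (fun n => ENNReal.ofReal (2 * ‖f n x‖ ^ 2 + 2 * ‖h x‖ ^ 2 -
          ‖f n x - h x‖ ^ 2)) atTop (𝓝 (ENNReal.ofReal (2 * ‖h x‖ ^ 2 + 2 * ‖h x‖ ^ 2 -
          ‖h x - h x‖ ^ 2))) := by
        refine ENNReal.tendsto_ofReal ?_
        exact ((((hx.norm.pow 2).const_mul 2).add tendsto_const_nhds)).sub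
          ((hx.sub tendsto_const_nhds).norm.pow 2)
      rw [h3.liminf_eq]
      congr 1
      simp
      ring
    rw [hL] at hF
    have h4 : ENNReal.ofReal (4 * A - ε) < ENNReal.ofReal (4 * A) :=
      (ENNReal.ofReal_lt_ofReal_iff (by positivity)).2 (by linarith)
    have h5 := eventually_lt_of_lt_liminf (h4.trans_le hF)
    obtain ⟨N, hN⟩ := eventually_atTop.1 h5
    refine ⟨N, fun n hn => ?_⟩
    have h6 := hN n hn
    rw [← ofReal_integral_eq_lintegral_ofReal (iD n) (ae_of_all _ (hpt n))] at h6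
    have h7 := lt_of_not_ge fun h => absurd h6 (not_lt.2 (ENNReal.ofReal_le_ofReal h))
    rw [Real.dist_eq, sub_zero, abs_of_nonneg (hd0 n)]
    have := vD n
    linarith

/-! ### mollification -/

/-- bumps -/
noncomputable def bmp (n : ℕ) : ContDiffBump (0 : E3) :=
    ⟨1 / (2 * ((n : ℝ) + 1)), 1 / ((n : ℝ) + 1), by positivity, by
      apply one_div_lt_one_div_of_lt <;> nlinarith [Nat.cast_nonneg (α := ℝ) n]⟩

/-- mollifiers -/
noncomputable def kn (n : ℕ) : E3 → ℝ := (bmp n).normed volume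

lemma kn_nonneg (n : ℕ) (x : E3) : 0 ≤ kn n x := (bmp n).nonneg_normed x
lemma kn_cont (n : ℕ) : Continuous (kn n) := (bmp n).continuous_normed
lemma kn_smooth (n : ℕ) : ContDiff ℝ ∞ (kn n) := (bmp n).contDiff_normed
lemma kn_supp (n : ℕ) : HasCompactSupport (kn n) := (bmp n).hasCompactSupport_normed
lemma kn_one (n : ℕ) : ∫⁻ t, ‖kn n t‖ₑ = 1 := by
  have h1 : ∫ t, kn n t = 1 := (bmp n).integral_normed
  have h2 := ofReal_integral_eq_lintegral_ofReal (bmp n).integrable_normed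
    (ae_of_all _ (kn_nonneg n))
  change ENNReal.ofReal (∫ t, kn n t) = ∫⁻ t, ENNReal.ofReal (kn n t) at h2
  rw [h1] at h2
  rw [← ENNReal.ofReal_one, h2]
  refine lintegral_congr fun t => ?_
  rw [Real.enorm_of_nonneg (kn_nonneg n t)]

section
variable {F : Type*} [NormedAddCommGroup F] [NormedSpace ℝ F] [CompleteSpace F]

/-- mollification -/
noncomputable def mo (n : ℕ) (f : E3 → F) : E3 → F :=
  (kn n) ⋆[ContinuousLinearMap.lsmul ℝ ℝ, volume] f

lemma mo_ae {f : E3 → F} (hf : LocallyIntegrable f) :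
    ∀ᵐ x, Tendsto (fun n => mo n f x) atTop (𝓝 (f x)) := by
  refine ContDiffBump.ae_convolution_tendsto_right_of_locallyIntegrable (φ := bmp) (K := 2)
    ?_ ?_ hf
  · exact tendsto_one_div_add_atTop_nhds_zero_nat
  · refine Eventually.of_forall fun n => ?_
    show 1 / ((n : ℝ) + 1) ≤ 2 * (1 / (2 * ((n : ℝ) + 1)))
    have : (0:ℝ) < (n:ℝ) + 1 := by positivity
    apply le_of_eq
    field_simp

lemma mo_lint {f : E3 → F} (hf : AEStronglyMeasurable f (volume : Measure E3)) (n : ℕ) :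
    ∫⁻ x, ‖mo n f x‖ₑ ^ (2:ℝ) ≤ ∫⁻ x, ‖f x‖ₑ ^ (2:ℝ) := by
  obtain ⟨u', hu'm, huu'⟩ := hf
  have hconv : mo n f = mo n u' := convolution_congr _ (ae_eq_refl _) huu'
  have h2 : ∫⁻ x, ‖f x‖ₑ ^ (2:ℝ) = ∫⁻ x, ‖u' x‖ₑ ^ (2:ℝ) := by
    refine lintegral_congr_ae ?_
    filter_upwards [huu'] with x hx
    rw [hx]
  rw [hconv, h2]
  refine le_trans (lintegral_mono fun x => ?_)
    (Pool.Agent.Helper149.Mollify.lintegral_conv_rpow_le (fun t => ‖kn n t‖ₑ)
      (kn_cont n).measurable.enorm (kn_one n) (fun x => ‖u' x‖ₑ)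
      hu'm.enorm 2 (by norm_num))
  refine ENNReal.rpow_le_rpow ?_ (by norm_num)
  unfold mo
  rw [convolution_def]
  refine le_trans (enorm_integral_le_lintegral_enorm _) (lintegral_mono fun t => ?_)
  simp only [ContinuousLinearMap.lsmul_apply, enorm_smul]
  exact le_rfl

lemma lint_sq {f : E3 → F} (hf : MemLp f 2 volume) :
    ∫⁻ x, ‖f x‖ₑ ^ (2:ℝ) = ENNReal.ofReal (∫ x, ‖f x‖ ^ 2) := by
  rw [ofReal_integral_eq_lintegral_ofReal (sq_int hf) (ae_of_all _ fun x => by positivity)]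
  refine lintegral_congr fun x => ?_
  rw [ENNReal.ofReal_pow (norm_nonneg _), ofReal_norm]
  exact_mod_cast ENNReal.rpow_natCast ‖f x‖ₑ 2

lemma locInt {f : E3 → F} (hf : MemLp f 2 volume) : LocallyIntegrable f :=
  hf.locallyIntegrable (by norm_num)

lemma mo_cont {f : E3 → F} (hf : MemLp f 2 volume) (n : ℕ) : Continuous (mo n f) :=
  (kn_supp n).continuous_convolution_left _ (kn_cont n) (locInt hf)

lemma mo_memLp {f : E3 → F} (hf : MemLp f 2 volume) (n : ℕ) : MemLp (mo n f) 2 volume := by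
  have hm : AEStronglyMeasurable (mo n f) (volume : Measure E3) :=
    (mo_cont hf n).aestronglyMeasurable
  refine (memLp_two_iff_integrable_sq_norm hm).2 ⟨(hm.norm.pow 2), ?_⟩
  have h1 := mo_lint hf.1 n
  rw [lint_sq hf] at h1
  refine lt_of_le_of_lt (le_trans (le_of_eq ?_) h1) ENNReal.ofReal_lt_top
  refine lintegral_congr fun x => ?_
  rw [Real.enorm_of_nonneg (by positivity), ENNReal.ofReal_pow (norm_nonneg _), ofReal_norm]
  exact_mod_cast (ENNReal.rpow_natCast ‖mo n f x‖ₑ 2).symm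

lemma mo_le {f : E3 → F} (hf : MemLp f 2 volume) (n : ℕ) :
    ∫ x, ‖mo n f x‖ ^ 2 ≤ ∫ x, ‖f x‖ ^ 2 := by
  have h1 := mo_lint hf.1 n
  rw [lint_sq hf, lint_sq (mo_memLp hf n)] at h1
  exact (ENNReal.ofReal_le_ofReal_iff (integral_nonneg fun x => by positivity)).1 h1

lemma mo_strong {f : E3 → F} (hf : MemLp f 2 volume) :
    Tendsto (fun n => ∫ x, ‖mo n f x - f x‖ ^ 2) atTop (𝓝 0) :=
  strong (mo_memLp hf) hf (mo_ae (locInt hf)) (mo_le hf)

end

lemma mo_smooth {u : E3 → ℝ} (hu : MemLp u 2 volume) (n : ℕ) : ContDiff ℝ ∞ (mo n u) :=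
  (kn_supp n).contDiff_convolution_left _ (kn_smooth n) (locInt hu)

lemma fderiv_mo {u : E3 → ℝ} {g : E3 → E3} (hu : MemLp u 2 volume) (hg : MemLp g 2 volume)
    (h : WG u g) (n : ℕ) (x v : E3) : fderiv ℝ (mo n u) x v = inner ℝ (mo n g x) v := by
  have hul := locInt hu
  have hgl := locInt hg
  have hderiv := (kn_supp n).hasFDerivAt_convolution_left (ContinuousLinearMap.lsmul ℝ ℝ)
      ((kn_smooth n).of_le (by exact_mod_cast le_top)) hul x (μ := volume)
  unfold mo
  rw [hderiv.fderiv]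
  have hexists : ConvolutionExistsAt (fderiv ℝ (kn n)) u x
      ((ContinuousLinearMap.lsmul ℝ ℝ).precompL E3) volume :=
    ((kn_supp n).fderiv ℝ).convolutionExists_left _
      ((kn_smooth n).continuous_fderiv (by simp)) hul x
  have e1 : (fderiv ℝ (kn n) ⋆[(ContinuousLinearMap.lsmul ℝ ℝ).precompL E3, volume] u) x v
      = ∫ t, fderiv ℝ (kn n) t v * u (x - t) := by
    rw [convolution_def, ContinuousLinearMap.integral_apply hexists]
    refine integral_congr_ae (ae_of_all _ fun t => ?_)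
    simp [ContinuousLinearMap.precompL_apply]
  have e2 : ∫ t, fderiv ℝ (kn n) t v * u (x - t)
      = ∫ y, fderiv ℝ (kn n) (x - y) v * u y := by
    rw [← integral_sub_left_eq_self _ _ x]
    simp
  have hφd : ContDiff ℝ ∞ (fun y => kn n (x - y)) :=
    (kn_smooth n).comp (contDiff_const.sub contDiff_id)
  have hφs : HasCompactSupport (fun y => kn n (x - y)) :=
    (kn_supp n).comp_homeomorph (Homeomorph.subLeft x)
  have hφf : ∀ y, fderiv ℝ (fun y => kn n (x - y)) y v = - fderiv ℝ (kn n) (x - y) v := by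
    intro y
    have h3 : HasFDerivAt (fun y => kn n (x - y))
        ((fderiv ℝ (kn n) (x - y)).comp (-(ContinuousLinearMap.id ℝ E3))) y := by
      have h4 : HasFDerivAt (fun y => x - y) (-(ContinuousLinearMap.id ℝ E3)) y := by
        simpa using (hasFDerivAt_id y).const_sub x
      exact HasFDerivAt.comp y
        (((kn_smooth n).differentiable (by simp)) (x - y)).hasFDerivAt h4
    rw [h3.fderiv]
    simp
  have h5 := h (fun y => kn n (x - y)) hφd hφs v
  simp only [hφf] at h5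
  have e3 : ∫ y, fderiv ℝ (kn n) (x - y) v * u y = ∫ y, inner ℝ (g y) v * kn n (x - y) := by
    calc ∫ y, fderiv ℝ (kn n) (x - y) v * u y
        = - ∫ y, u y * -(fderiv ℝ (kn n) (x - y) v) := by
          rw [← integral_neg]
          refine integral_congr_ae (ae_of_all _ fun y => ?_)
          simp; ring
      _ = ∫ y, inner ℝ (g y) v * kn n (x - y) := by
          rw [h5, neg_neg]
  have hex2 : Integrable (fun t => kn n t • g (x - t)) := by
    have := (kn_supp n).convolutionExists_left (ContinuousLinearMap.lsmul ℝ ℝ)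
      (kn_cont n) hgl x (μ := volume)
    exact this
  have e4 : inner ℝ (((kn n) ⋆[ContinuousLinearMap.lsmul ℝ ℝ, volume] g) x) v =
      ∫ y, inner ℝ (g y) v * kn n (x - y) := by
    rw [convolution_def]
    simp only [ContinuousLinearMap.lsmul_apply]
    rw [real_inner_comm, ← integral_inner hex2, ← integral_sub_left_eq_self _ _ x]
    refine integral_congr_ae (ae_of_all _ fun y => ?_)
    simp only [sub_sub_cancel]
    rw [real_inner_smul_right, real_inner_comm]
    ring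
  rw [e1, e2, e3, e4]

end Pool.Agent.Run7.h828.TFW
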