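import Pool.Agent.Run7.h828.TFW.WG

/-!
# Weak gradients: chain rule
-/

set_option autoImplicit false

open MeasureTheory Filter Topology Set
open scoped ENNReal NNReal ContDiff

namespace Pool.Agent.Run7.h828.TFW

open Pool.Agent.TH791.Cl

lemma mul_int2 {a b : E3 → ℝ} (ha : MemLp a 2 volume) (hb : MemLp b 2 volume) :
    Integrable (fun x => a x * b x) := ha.integrable_mul hb

lemma cs_abs {a b : E3 → ℝ} (ha : MemLp a 2 volume) (hb : MemLp b 2 volume) :
    ∫ x, |a x| * |b x| ≤ √(∫ x, ‖a x‖ ^ 2) * √(∫ x, ‖b x‖ ^ 2) := by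
  have h := integral_mul_le_Lp_mul_Lq_of_nonneg (μ := (volume : Measure E3))
    (Real.HolderConjugate.two_two) (f := fun x => |a x|) (g := fun x => |b x|)
    (ae_of_all _ fun x => abs_nonneg _) (ae_of_all _ fun x => abs_nonneg _)
    (by simpa using ha.norm) (by simpa using hb.norm)
  simp only [Real.rpow_two] at h
  rw [← Real.sqrt_eq_rpow, ← Real.sqrt_eq_rpow] at h
  exact h

lemma pair_zero {a : ℕ → E3 → ℝ} {b : E3 → ℝ} (ha : ∀ n, MemLp (a n) 2 volume)
    (hb : MemLp b 2 volume) (h : Tendsto (fun n => ∫ x, ‖a n x‖ ^ 2) atTop (𝓝 0)) :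
    Tendsto (fun n => ∫ x, |a n x| * |b x|) atTop (𝓝 0) := by
  refine squeeze_zero (fun n => integral_nonneg fun x => by positivity)
    (fun n => cs_abs (ha n) hb) ?_
  have := (Real.continuous_sqrt.tendsto 0).comp h
  rw [Real.sqrt_zero] at this
  have h2 := this.mul_const (√(∫ x, ‖b x‖ ^ 2))
  rw [zero_mul] at h2
  exact h2

lemma aux3 {A B D M : ℝ} (h : |A * B| ≤ M * |B|) : ‖A * B * D‖ ≤ M * ‖B * D‖ := by
  rw [Real.norm_eq_abs, Real.norm_eq_abs, abs_mul (A * B) D, abs_mul B D, ← mul_assoc]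
  exact mul_le_mul_of_nonneg_right h (abs_nonneg _)

lemma pair_lim {a : ℕ → E3 → ℝ} {a' : E3 → ℝ} {H : ℕ → E3 → ℝ} {H' b : E3 → ℝ} {M : ℝ}
    (ham : ∀ n, AEStronglyMeasurable (a n) volume) 
    (hab : ∀ n x, |a n x * b x| ≤ M * |b x|)
    (hae : ∀ᵐ x, Tendsto (fun n => a n x) atTop (𝓝 (a' x)))
    (hH : ∀ n, MemLp (H n) 2 volume) (hH' : MemLp H' 2 volume)
    (hHt : Tendsto (fun n => ∫ x, ‖H n x - H' x‖ ^ 2) atTop (𝓝 0))
    (hb : MemLp b 2 volume) :
    Tendsto (fun n => ∫ x, a n x * H n x * b x) atTop (𝓝 (∫ x, a' x * H' x * b x)) := by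
  have hd : ∀ n, MemLp (fun x => H n x - H' x) 2 volume := fun n => (hH n).sub hH'
  have i1 : ∀ n, Integrable (fun x => (a n x * b x) * (H n x - H' x)) := by
    intro n
    have hm : AEStronglyMeasurable (fun x => (a n x * b x) * (H n x - H' x)) volume :=
      ((ham n).mul hb.1).mul (hd n).1
    exact ((mul_int2 hb (hd n)).norm.const_mul M).mono' hm (ae_of_all _ fun x => aux3 (hab n x))
  have i2 : ∀ n, Integrable (fun x => (a n x * b x) * H' x) := by
    intro n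
    have hm : AEStronglyMeasurable (fun x => (a n x * b x) * H' x) volume :=
      ((ham n).mul hb.1).mul hH'.1
    exact ((mul_int2 hb hH').norm.const_mul M).mono' hm (ae_of_all _ fun x => aux3 (hab n x))
  have h1 : Tendsto (fun n => ∫ x, (a n x * b x) * (H n x - H' x)) atTop (𝓝 0) := by
    have h0 := (pair_zero hd hb hHt).const_mul M
    rw [mul_zero] at h0
    refine squeeze_zero_norm (fun n => ?_) h0
    refine (norm_integral_le_integral_norm _).trans ?_
    rw [← integral_const_mul]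
    refine integral_mono (i1 n).norm ((mul_int2 (hd n) hb).norm.congr
      (ae_of_all _ fun x => by simp [norm_mul]) |>.const_mul M) fun x => ?_
    simp only [norm_mul]
    have := hab n x
    rw [abs_mul] at this
    simp only [Real.norm_eq_abs]
    calc |a n x| * |b x| * |H n x - H' x| ≤ (M * |b x|) * |H n x - H' x| :=
          mul_le_mul_of_nonneg_right this (abs_nonneg _)
      _ = _ := by ring
  have h2 : Tendsto (fun n => ∫ x, (a n x * b x) * H' x) atTop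
      (𝓝 (∫ x, (a' x * b x) * H' x)) := by
    refine tendsto_integral_of_dominated_convergence (fun x => M * ‖b x * H' x‖)
      (fun n => (i2 n).aestronglyMeasurable) ((mul_int2 hb hH').norm.const_mul M)
      (fun n => ae_of_all _ fun x => aux3 (hab n x)) ?_
    filter_upwards [hae] with x hx
    exact (hx.mul_const _).mul_const _
  have h3 := h1.add h2
  rw [zero_add] at h3
  have e1 : ∫ x, (a' x * b x) * H' x = ∫ x, a' x * H' x * b x := by
    congr 1; funext x; ring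
  rw [e1] at h3
  refine h3.congr fun n => ?_
  rw [← integral_add (i1 n) (i2 n)]
  congr 1; funext x; ring

/-- admissible composition functions -/
structure CRF (f f₁ f₂ : ℝ → ℝ → E3 → ℝ) (f₃ : ℝ → ℝ → E3 → E3) : Prop where
  c0 : Continuous (fun p : ℝ × ℝ × E3 => f p.1 p.2.1 p.2.2)
  c1 : Continuous (fun p : ℝ × ℝ × E3 => f₁ p.1 p.2.1 p.2.2)
  c2 : Continuous (fun p : ℝ × ℝ × E3 => f₂ p.1 p.2.1 p.2.2)
  c3 : Continuous (fun p : ℝ × ℝ × E3 => f₃ p.1 p.2.1 p.2.2)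
  der : ∀ (w₁ w₂ : E3 → ℝ) (x : E3), DifferentiableAt ℝ w₁ x → DifferentiableAt ℝ w₂ x →
    HasFDerivAt (fun y => f (w₁ y) (w₂ y) y) (f₁ (w₁ x) (w₂ x) x • fderiv ℝ w₁ x +
      f₂ (w₁ x) (w₂ x) x • fderiv ℝ w₂ x + innerSL ℝ (f₃ (w₁ x) (w₂ x) x)) x
  bd : ∀ K : Set E3, IsCompact K → ∃ C : ℝ, 0 ≤ C ∧ ∀ x ∈ K, ∀ a b a' b' : ℝ,
    |f a b x - f a' b' x| ≤ C * (|a - a'| + |b - b'|) ∧ |f₁ a b x| ≤ C ∧ |f₂ a b x| ≤ C ∧
      ‖f₃ a b x‖ ≤ C

/-- a compactly supported continuous function times a continuous function -/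
lemma cc_int {a b : E3 → ℝ} (ha : Continuous a) (hb : Continuous b) (hs : HasCompactSupport b) :
    Integrable (fun x => a x * b x) :=
  (ha.mul hb).integrable_of_hasCompactSupport hs.mul_left

lemma cc_memLp {b : E3 → ℝ} (hb : Continuous b) (hs : HasCompactSupport b) :
    MemLp b 2 volume := hb.memLp_of_hasCompactSupport hs

/-- **chain rule** -/
theorem chain {f f₁ f₂ : ℝ → ℝ → E3 → ℝ} {f₃ : ℝ → ℝ → E3 → E3} (hf : CRF f f₁ f₂ f₃)
    {u₁ u₂ : E3 → ℝ} {g₁ g₂ : E3 → E3} (hu₁ : MemLp u₁ 2 volume) (hg₁ : MemLp g₁ 2 volume)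
    (h₁ : WG u₁ g₁) (hu₂ : MemLp u₂ 2 volume) (hg₂ : MemLp g₂ 2 volume) (h₂ : WG u₂ g₂) :
    WG (fun x => f (u₁ x) (u₂ x) x)
      (fun x => f₁ (u₁ x) (u₂ x) x • g₁ x + f₂ (u₁ x) (u₂ x) x • g₂ x + f₃ (u₁ x) (u₂ x) x) := by
  intro φ hφ hφs v
  obtain ⟨C, hC, hbd⟩ := hf.bd (tsupport φ) hφs
  have hφc : Continuous φ := hφ.continuous
  have hdc : Continuous (fun x => fderiv ℝ φ x v) :=
    (hφ.continuous_fderiv (by simp)).clm_apply continuous_const
  have hds : HasCompactSupport (fun x => fderiv ℝ φ x v) := hφs.fderiv_apply ℝ v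
  have hφL := cc_memLp hφc hφs
  have hdL := cc_memLp hdc hds
  have hφ0 : ∀ x, x ∉ tsupport φ → φ x = 0 := fun x hx => image_eq_zero_of_notMem_tsupport hx
  have hd0 : ∀ x, x ∉ tsupport φ → fderiv ℝ φ x v = 0 := fun x hx => by
    have : fderiv ℝ φ x = 0 := by
      by_contra hne
      exact hx (support_fderiv_subset ℝ hne)
    rw [this]; rfl
  have hw₁ := fun n => mo_smooth hu₁ n
  have hw₂ := fun n => mo_smooth hu₂ n
  have hwc₁ := fun n => (hw₁ n).continuous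
  have hwc₂ := fun n => (hw₂ n).continuous
  have hG₁ := fun n => mo_cont hg₁ n
  have hG₂ := fun n => mo_cont hg₂ n
  -- composition continuity
  have cc : ∀ {Y : Type} [TopologicalSpace Y] (k : ℝ → ℝ → E3 → Y),
      Continuous (fun p : ℝ × ℝ × E3 => k p.1 p.2.1 p.2.2) → ∀ n,
      Continuous (fun x => k (mo n u₁ x) (mo n u₂ x) x) := by
    intro Y _ k hk n
    exact hk.comp ((hwc₁ n).prodMk ((hwc₂ n).prodMk continuous_id))
  -- step 1 : integration by parts for the approximations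
  have hder : ∀ n x, fderiv ℝ (fun y => f (mo n u₁ y) (mo n u₂ y) y) x v =
      f₁ (mo n u₁ x) (mo n u₂ x) x * inner ℝ (mo n g₁ x) v +
      f₂ (mo n u₁ x) (mo n u₂ x) x * inner ℝ (mo n g₂ x) v +
      inner ℝ (f₃ (mo n u₁ x) (mo n u₂ x) x) v := by
    intro n x
    rw [(hf.der (mo n u₁) (mo n u₂) x ((hw₁ n).differentiable (by simp) x)
      ((hw₂ n).differentiable (by simp) x)).fderiv]
    simp only [add_apply, smul_apply, smul_eq_mul, innerSL_apply_apply]
    rw [fderiv_mo hu₁ hg₁ h₁, fderiv_mo hu₂ hg₂ h₂]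
  have hibp : ∀ n, ∫ x, f (mo n u₁ x) (mo n u₂ x) x * fderiv ℝ φ x v =
      -((∫ x, f₁ (mo n u₁ x) (mo n u₂ x) x * inner ℝ (mo n g₁ x) v * φ x) +
      (∫ x, f₂ (mo n u₁ x) (mo n u₂ x) x * inner ℝ (mo n g₂ x) v * φ x) +
      ∫ x, inner ℝ (f₃ (mo n u₁ x) (mo n u₂ x) x) v * φ x) := by
    intro n
    have k1 : Continuous (fun x => f₁ (mo n u₁ x) (mo n u₂ x) x * inner ℝ (mo n g₁ x) v) :=
      (cc f₁ hf.c1 n).mul ((hG₁ n).inner continuous_const)
    have k2 : Continuous (fun x => f₂ (mo n u₁ x) (mo n u₂ x) x * inner ℝ (mo n g₂ x) v) :=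
      (cc f₂ hf.c2 n).mul ((hG₂ n).inner continuous_const)
    have k3 : Continuous (fun x => (inner ℝ (f₃ (mo n u₁ x) (mo n u₂ x) x) v : ℝ)) :=
      (cc f₃ hf.c3 n).inner continuous_const
    have j1 := cc_int k1 hφc hφs
    have j2 := cc_int k2 hφc hφs
    have j3 := cc_int k3 hφc hφs
    have e : (fun x => fderiv ℝ (fun y => f (mo n u₁ y) (mo n u₂ y) y) x v * φ x) =
        fun x => (f₁ (mo n u₁ x) (mo n u₂ x) x * inner ℝ (mo n g₁ x) v * φ x +
        f₂ (mo n u₁ x) (mo n u₂ x) x * inner ℝ (mo n g₂ x) v * φ x) +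
        inner ℝ (f₃ (mo n u₁ x) (mo n u₂ x) x) v * φ x := by
      funext x; rw [hder]; ring
    have j12 : Integrable (fun x => f₁ (mo n u₁ x) (mo n u₂ x) x * inner ℝ (mo n g₁ x) v * φ x +
        f₂ (mo n u₁ x) (mo n u₂ x) x * inner ℝ (mo n g₂ x) v * φ x) := j1.add j2
    rw [integral_mul_fderiv_eq_neg_fderiv_mul_of_integrable, e, integral_add j12 j3,
      integral_add j1 j2]
    · rw [e]; exact j12.add j3
    · exact cc_int (cc f hf.c0 n) hdc hds
    · exact cc_int (cc f hf.c0 n) hφc hφs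
    · intro x _
      exact (hf.der (mo n u₁) (mo n u₂) x ((hw₁ n).differentiable (by simp) x)
        ((hw₂ n).differentiable (by simp) x)).differentiableAt
    · intro x _
      exact hφ.differentiable (by simp) x
  -- step 2 : limits
  have ha₁ := mo_ae (locInt hu₁)
  have ha₂ := mo_ae (locInt hu₂)
  have hlim : ∀ {Y : Type} [TopologicalSpace Y] (k : ℝ → ℝ → E3 → Y),
      Continuous (fun p : ℝ × ℝ × E3 => k p.1 p.2.1 p.2.2) →
      ∀ᵐ x, Tendsto (fun n => k (mo n u₁ x) (mo n u₂ x) x) atTop (𝓝 (k (u₁ x) (u₂ x) x)) := by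
    intro Y _ k hk
    filter_upwards [ha₁, ha₂] with x hx₁ hx₂
    exact (hk.tendsto (u₁ x, u₂ x, x)).comp (hx₁.prodMk_nhds (hx₂.prodMk_nhds tendsto_const_nhds))
  have hmeas : ∀ (k : ℝ → ℝ → E3 → ℝ), Continuous (fun p : ℝ × ℝ × E3 => k p.1 p.2.1 p.2.2) →
      AEStronglyMeasurable (fun x => k (u₁ x) (u₂ x) x) volume := by
    intro k hk
    exact hk.comp_aestronglyMeasurable (hu₁.1.prodMk (hu₂.1.prodMk aestronglyMeasurable_id))
  have hin : ∀ {g : E3 → E3}, MemLp g 2 volume → MemLp (fun x => (inner ℝ (g x) v : ℝ)) 2 volume :=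
    fun hg => hg.inner_const v
  have hcoef : ∀ (k : ℝ → ℝ → E3 → ℝ), (∀ x ∈ tsupport φ, ∀ a b, |k a b x| ≤ C) → ∀ n x,
      |k (mo n u₁ x) (mo n u₂ x) x * φ x| ≤ C * |φ x| := by
    intro k hk n x
    by_cases hx : x ∈ tsupport φ
    · rw [abs_mul]
      exact mul_le_mul_of_nonneg_right (hk x hx _ _) (abs_nonneg _)
    · rw [hφ0 x hx]; simp
  have hstr : ∀ {g : E3 → E3}, MemLp g 2 volume →
      Tendsto (fun n => ∫ x, ‖(inner ℝ (mo n g x) v : ℝ) - inner ℝ (g x) v‖ ^ 2) atTop (𝓝 0) := by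
    intro g hg
    have h0 := (mo_strong hg).mul_const (‖v‖ ^ 2)
    rw [zero_mul] at h0
    refine squeeze_zero (fun n => integral_nonneg fun x => by positivity) (fun n => ?_) h0
    rw [← integral_mul_const]
    refine integral_mono_of_nonneg (ae_of_all _ fun x => by positivity)
      ((sq_int ((mo_memLp hg n).sub hg)).mul_const _) (ae_of_all _ fun x => ?_)
    show ‖(inner ℝ (mo n g x) v : ℝ) - inner ℝ (g x) v‖ ^ 2 ≤ ‖mo n g x - g x‖ ^ 2 * ‖v‖ ^ 2
    rw [← inner_sub_left, ← mul_pow]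
    exact pow_le_pow_left₀ (norm_nonneg _) (norm_inner_le_norm _ _) 2
  have t1 := pair_lim (a := fun n x => f₁ (mo n u₁ x) (mo n u₂ x) x)
    (H := fun n x => inner ℝ (mo n g₁ x) v) (fun n => (cc f₁ hf.c1 n).aestronglyMeasurable)
    (hcoef f₁ fun x hx a b => (hbd x hx a b a b).2.1)
    (hlim f₁ hf.c1) (fun n => hin (mo_memLp hg₁ n)) (hin hg₁) (hstr hg₁) hφL
  have t2 := pair_lim (a := fun n x => f₂ (mo n u₁ x) (mo n u₂ x) x)
    (H := fun n x => inner ℝ (mo n g₂ x) v) (fun n => (cc f₂ hf.c2 n).aestronglyMeasurable)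
    (hcoef f₂ fun x hx a b => (hbd x hx a b a b).2.2.1)
    (hlim f₂ hf.c2) (fun n => hin (mo_memLp hg₂ n)) (hin hg₂) (hstr hg₂) hφL
  have hf3c : Continuous (fun p : ℝ × ℝ × E3 => (inner ℝ (f₃ p.1 p.2.1 p.2.2) v : ℝ)) :=
    hf.c3.inner continuous_const
  have hf3b : ∀ x ∈ tsupport φ, ∀ a b, |(inner ℝ (f₃ a b x) v : ℝ)| ≤ C * ‖v‖ := by
    intro x hx a b
    exact (abs_real_inner_le_norm _ _).trans
      (mul_le_mul_of_nonneg_right (hbd x hx a b a b).2.2.2 (norm_nonneg _))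
  have b3 : ∀ n x, ‖(inner ℝ (f₃ (mo n u₁ x) (mo n u₂ x) x) v : ℝ) * φ x‖ ≤
      (C * ‖v‖) * |φ x| := by
    intro n x
    by_cases hx : x ∈ tsupport φ
    · rw [norm_mul]
      exact mul_le_mul_of_nonneg_right (hf3b x hx _ _) (abs_nonneg _)
    · rw [hφ0 x hx]; simp
  have t3 : Tendsto (fun n => ∫ x, inner ℝ (f₃ (mo n u₁ x) (mo n u₂ x) x) v * φ x) atTop
      (𝓝 (∫ x, inner ℝ (f₃ (u₁ x) (u₂ x) x) v * φ x)) := by
    refine tendsto_integral_of_dominated_convergence (fun x => (C * ‖v‖) * |φ x|)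
      (fun n => ?_) ?_ (fun n => ae_of_all _ fun x => b3 n x) ?_
    · exact ((cc (fun a b x => inner ℝ (f₃ a b x) v) hf3c n).mul hφc).aestronglyMeasurable
    · exact ((hφc.integrable_of_hasCompactSupport hφs).abs).const_mul _
    · filter_upwards [hlim (fun a b x => (inner ℝ (f₃ a b x) v : ℝ)) hf3c] with x hx
      exact hx.mul_const _
  -- integrability of the limit terms
  have hu1d := (mul_int2 hu₁ hdL).norm
  have i0 : Integrable (fun x => f (u₁ x) (u₂ x) x * fderiv ℝ φ x v) := by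
    have q1 : Integrable (fun x => f 0 0 x * fderiv ℝ φ x v) :=
      cc_int (a := fun x => f 0 0 x) (hf.c0.comp (continuous_const.prodMk
        (continuous_const.prodMk continuous_id))) hdc hds
    have q2 := (((mul_int2 hu₁ hdL).norm.add (mul_int2 hu₂ hdL).norm).const_mul C).add q1.norm
    refine q2.mono' ((hmeas f hf.c0).mul hdL.1) (ae_of_all _ fun x => ?_)
    show ‖f (u₁ x) (u₂ x) x * fderiv ℝ φ x v‖ ≤
      C * (‖u₁ x * fderiv ℝ φ x v‖ + ‖u₂ x * fderiv ℝ φ x v‖) + ‖f 0 0 x * fderiv ℝ φ x v‖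
    simp only [norm_mul]
    by_cases hx : x ∈ tsupport φ
    · have := (hbd x hx (u₁ x) (u₂ x) 0 0).1
      simp only [sub_zero] at this
      have h5 : ‖f (u₁ x) (u₂ x) x‖ ≤ C * (‖u₁ x‖ + ‖u₂ x‖) + ‖f 0 0 x‖ := by
        have h6 : f (u₁ x) (u₂ x) x = (f (u₁ x) (u₂ x) x - f 0 0 x) + f 0 0 x := by ring
        rw [h6]
        refine (norm_add_le _ _).trans ?_
        simpa [Real.norm_eq_abs] using this
      have h7 := mul_le_mul_of_nonneg_right h5 (norm_nonneg (fderiv ℝ φ x v))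
      linarith
    · rw [hd0 x hx]; simp
  have t0 : Tendsto (fun n => ∫ x, f (mo n u₁ x) (mo n u₂ x) x * fderiv ℝ φ x v) atTop
      (𝓝 (∫ x, f (u₁ x) (u₂ x) x * fderiv ℝ φ x v)) := by
    rw [tendsto_iff_norm_sub_tendsto_zero]
    have z1 := pair_zero (fun n => (mo_memLp hu₁ n).sub hu₁) hdL (mo_strong hu₁)
    have z2 := pair_zero (fun n => (mo_memLp hu₂ n).sub hu₂) hdL (mo_strong hu₂)
    have z := (z1.add z2).const_mul C
    rw [add_zero, mul_zero] at z
    refine squeeze_zero (fun n => norm_nonneg _) (fun n => ?_) z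
    have iA : ∀ {a : E3 → ℝ}, MemLp a 2 volume → Integrable (fun x => |a x| * |fderiv ℝ φ x v|) :=
      fun ha => (mul_int2 ha hdL).norm.congr (ae_of_all _ fun x => by simp [abs_mul])
    have iB := iA ((mo_memLp hu₁ n).sub hu₁)
    have iC := iA ((mo_memLp hu₂ n).sub hu₂)
    rw [← integral_sub (cc_int (cc f hf.c0 n) hdc hds) i0]
    refine (norm_integral_le_integral_norm _).trans ?_
    rw [← integral_add iB iC, ← integral_const_mul]
    refine integral_mono_of_nonneg (ae_of_all _ fun x => norm_nonneg _)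
      ((iB.add iC).const_mul C) (ae_of_all _ fun x => ?_)
    show ‖f (mo n u₁ x) (mo n u₂ x) x * fderiv ℝ φ x v - f (u₁ x) (u₂ x) x * fderiv ℝ φ x v‖ ≤
      C * (|mo n u₁ x - u₁ x| * |fderiv ℝ φ x v| + |mo n u₂ x - u₂ x| * |fderiv ℝ φ x v|)
    rw [← sub_mul, norm_mul, ← add_mul, ← mul_assoc]
    by_cases hx : x ∈ tsupport φ
    · exact mul_le_mul_of_nonneg_right (hbd x hx _ _ _ _).1 (norm_nonneg _)
    · rw [hd0 x hx]; simp
  -- integrability of the three gradient terms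
  have hcoef' : ∀ (k : ℝ → ℝ → E3 → ℝ), Continuous (fun p : ℝ × ℝ × E3 => k p.1 p.2.1 p.2.2) →
      (∀ x ∈ tsupport φ, ∀ a b, |k a b x| ≤ C) → ∀ {g : E3 → E3}, MemLp g 2 volume →
      Integrable (fun x => k (u₁ x) (u₂ x) x * inner ℝ (g x) v * φ x) := by
    intro k hk hkb g hg
    refine ((mul_int2 (hin hg) hφL).norm.const_mul C).mono'
      (((hmeas k hk).mul (hin hg).1).mul hφL.1) (ae_of_all _ fun x => ?_)
    by_cases hx : x ∈ tsupport φ
    · rw [mul_assoc, norm_mul]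
      exact mul_le_mul_of_nonneg_right (hkb x hx _ _) (norm_nonneg _)
    · rw [hφ0 x hx]; simp
  have n1 := hcoef' f₁ hf.c1 (fun x hx a b => (hbd x hx a b a b).2.1) hg₁
  have n2 := hcoef' f₂ hf.c2 (fun x hx a b => (hbd x hx a b a b).2.2.1) hg₂
  have n3 : Integrable (fun x => inner ℝ (f₃ (u₁ x) (u₂ x) x) v * φ x) := by
    refine (((hφc.integrable_of_hasCompactSupport hφs).abs).const_mul (C * ‖v‖)).mono'
      ((hmeas (fun a b x => inner ℝ (f₃ a b x) v) hf3c).mul hφL.1) (ae_of_all _ fun x => ?_)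
    by_cases hx : x ∈ tsupport φ
    · rw [norm_mul]
      exact mul_le_mul_of_nonneg_right (hf3b x hx _ _) (abs_nonneg _)
    · rw [hφ0 x hx]; simp
  have hL : Tendsto (fun n => ∫ x, f (mo n u₁ x) (mo n u₂ x) x * fderiv ℝ φ x v) atTop
      (𝓝 (-((∫ x, f₁ (u₁ x) (u₂ x) x * inner ℝ (g₁ x) v * φ x) +
      (∫ x, f₂ (u₁ x) (u₂ x) x * inner ℝ (g₂ x) v * φ x) +
      ∫ x, inner ℝ (f₃ (u₁ x) (u₂ x) x) v * φ x))) := by
    refine (((t1.add t2).add t3).neg).congr fun n => ?_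
    exact (hibp n).symm
  rw [tendsto_nhds_unique t0 hL]
  congr 1
  have n12 : Integrable (fun x => f₁ (u₁ x) (u₂ x) x * inner ℝ (g₁ x) v * φ x +
    f₂ (u₁ x) (u₂ x) x * inner ℝ (g₂ x) v * φ x) := n1.add n2
  rw [← integral_add n1 n2, ← integral_add n12 n3]
  refine integral_congr_ae (ae_of_all _ fun x => ?_)
  simp only [inner_add_left, real_inner_smul_left]
  ring

end Pool.Agent.Run7.h828.TFW
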