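import Pool.Agent.Run7.h828.TFW.WG2

/-!
# Weak gradients: `√(u₁² + u₂²)`, smooth functions, translations
-/

set_option autoImplicit false

open MeasureTheory Filter Topology Set
open scoped ENNReal NNReal ContDiff

namespace Pool.Agent.Run7.h828.TFW

open Pool.Agent.TH791.Cl

lemma WG.smul {u : E3 → ℝ} {g : E3 → E3} (h : WG u g) (c : ℝ) :
    WG (fun x => c * u x) (fun x => c • g x) := by
  intro φ hφ hφs v
  have h1 := h φ hφ hφs v
  have e1 : ∫ x, c * u x * fderiv ℝ φ x v = c * ∫ x, u x * fderiv ℝ φ x v := by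
    rw [← integral_const_mul]; congr 1; funext x; ring
  have e2 : ∫ x, inner ℝ (c • g x) v * φ x = c * ∫ x, inner ℝ (g x) v * φ x := by
    rw [← integral_const_mul]; congr 1; funext x; rw [real_inner_smul_left]; ring
  rw [e1, e2, h1]; ring

lemma wg_smooth {χ : E3 → ℝ} (hχ : ContDiff ℝ 1 χ) : WG χ (gradient χ) := by
  intro φ hφ hφs v
  have hφc : Continuous φ := hφ.continuous
  have hdc : Continuous (fun x => fderiv ℝ φ x v) :=
    (hφ.continuous_fderiv (by simp)).clm_apply continuous_const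
  have hds : HasCompactSupport (fun x => fderiv ℝ φ x v) := hφs.fderiv_apply ℝ v
  have hxc : Continuous (fun x => fderiv ℝ χ x v) :=
    (hχ.continuous_fderiv (by simp)).clm_apply continuous_const
  rw [integral_mul_fderiv_eq_neg_fderiv_mul_of_integrable]
  · congr 1
    refine integral_congr_ae (ae_of_all _ fun x => ?_)
    simp only [inner_gradient_left]
  · exact cc_int hxc hφc hφs
  · exact cc_int hχ.continuous hdc hds
  · exact cc_int hχ.continuous hφc hφs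
  · intro x _; exact hχ.differentiable (by simp) x
  · intro x _; exact hφ.differentiable (by simp) x

lemma WG.translate {u : E3 → ℝ} {g : E3 → E3} (h : WG u g) (y : E3) :
    WG (fun x => u (x + y)) (fun x => g (x + y)) := by
  intro φ hφ hφs v
  have h1 := h (fun x => φ (x - y)) (hφ.comp (contDiff_id.sub contDiff_const))
    (hφs.comp_homeomorph (Homeomorph.subRight y)) v
  have hfd : ∀ x, fderiv ℝ (fun x => φ (x - y)) x = fderiv ℝ φ (x - y) := fun x => by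
    rw [fderiv_comp_sub]
  simp only [hfd] at h1
  rw [← integral_sub_right_eq_self (fun x => u (x + y) * fderiv ℝ φ x v) y,
    ← integral_sub_right_eq_self (fun x => inner ℝ (g (x + y)) v * φ x) y]
  simpa using h1

/-! ### the function `√(a² + b² + ε²)` -/

lemma sqrt_lip {ε a b a' b' : ℝ} (hε : 0 < ε) :
    |√(a ^ 2 + b ^ 2 + ε ^ 2) - √(a' ^ 2 + b' ^ 2 + ε ^ 2)| ≤ |a - a'| + |b - b'| := by
  set s := √(a ^ 2 + b ^ 2 + ε ^ 2) with hs
  set s' := √(a' ^ 2 + b' ^ 2 + ε ^ 2) with hs'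
  have h1 : s ^ 2 = a ^ 2 + b ^ 2 + ε ^ 2 := Real.sq_sqrt (by positivity)
  have h2 : s' ^ 2 = a' ^ 2 + b' ^ 2 + ε ^ 2 := Real.sq_sqrt (by positivity)
  have hs0 : 0 < s := Real.sqrt_pos.2 (by positivity)
  have hs0' : 0 < s' := Real.sqrt_pos.2 (by positivity)
  have ha : |a| ≤ s := by rw [← Real.sqrt_sq_eq_abs]; exact Real.sqrt_le_sqrt (by nlinarith [sq_nonneg b, sq_nonneg ε])
  have hb : |b| ≤ s := by rw [← Real.sqrt_sq_eq_abs]; exact Real.sqrt_le_sqrt (by nlinarith [sq_nonneg a, sq_nonneg ε])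
  have ha' : |a'| ≤ s' := by rw [← Real.sqrt_sq_eq_abs]; exact Real.sqrt_le_sqrt (by nlinarith [sq_nonneg b', sq_nonneg ε])
  have hb' : |b'| ≤ s' := by rw [← Real.sqrt_sq_eq_abs]; exact Real.sqrt_le_sqrt (by nlinarith [sq_nonneg a', sq_nonneg ε])
  have h3 : |s - s'| * (s + s') ≤ (|a - a'| + |b - b'|) * (s + s') := by
    have e : |s - s'| * (s + s') = |s ^ 2 - s' ^ 2| := by
      rw [show s ^ 2 - s' ^ 2 = (s - s') * (s + s') by ring, abs_mul, abs_of_pos (show 0 < s + s' by positivity)]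
    rw [e, h1, h2, show a ^ 2 + b ^ 2 + ε ^ 2 - (a' ^ 2 + b' ^ 2 + ε ^ 2) =
      (a - a') * (a + a') + (b - b') * (b + b') by ring]
    refine (abs_add_le _ _).trans ?_
    rw [abs_mul, abs_mul, add_mul]
    refine add_le_add (mul_le_mul_of_nonneg_left ?_ (abs_nonneg _))
      (mul_le_mul_of_nonneg_left ?_ (abs_nonneg _))
    · exact (abs_add_le _ _).trans (add_le_add ha ha')
    · exact (abs_add_le _ _).trans (add_le_add hb hb')
  exact le_of_mul_le_mul_right h3 (by positivity)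

lemma crf_sqrt {ε : ℝ} (hε : 0 < ε) : CRF (fun a b _ => √(a ^ 2 + b ^ 2 + ε ^ 2))
    (fun a b _ => a / √(a ^ 2 + b ^ 2 + ε ^ 2)) (fun a b _ => b / √(a ^ 2 + b ^ 2 + ε ^ 2))
    (fun _ _ _ => 0) := by
  have hpos : ∀ a b : ℝ, 0 < a ^ 2 + b ^ 2 + ε ^ 2 := fun a b => by positivity
  have hc : Continuous (fun p : ℝ × ℝ × E3 => √(p.1 ^ 2 + p.2.1 ^ 2 + ε ^ 2)) := by fun_prop
  refine ⟨hc, ?_, ?_, continuous_const, ?_, ?_⟩
  · exact continuous_fst.div hc fun p => (Real.sqrt_pos.2 (hpos _ _)).ne'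
  · exact (continuous_fst.comp continuous_snd).div hc fun p => (Real.sqrt_pos.2 (hpos _ _)).ne'
  · intro w₁ w₂ x h1 h2
    have hd := (((h1.hasFDerivAt.pow 2).add (h2.hasFDerivAt.pow 2)).add_const (ε ^ 2)).sqrt
      (hpos (w₁ x) (w₂ x)).ne'
    refine hd.congr_fderiv (ContinuousLinearMap.ext fun v => ?_)
    simp only [Pi.add_apply, add_apply, smul_apply, smul_eq_mul, innerSL_apply_apply,
      inner_zero_left, nsmul_eq_mul, Nat.cast_ofNat]
    have := (Real.sqrt_pos.2 (hpos (w₁ x) (w₂ x))).ne'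
    field_simp
    ring
  · intro K _
    refine ⟨1, zero_le_one, fun x _ a b a' b' => ⟨?_, ?_, ?_, ?_⟩⟩
    · rw [one_mul]; exact sqrt_lip hε
    · rw [abs_div, abs_of_pos (Real.sqrt_pos.2 (hpos a b)), div_le_one (Real.sqrt_pos.2 (hpos a b)),
        ← Real.sqrt_sq_eq_abs]
      exact Real.sqrt_le_sqrt (by nlinarith [sq_nonneg b, sq_nonneg ε])
    · rw [abs_div, abs_of_pos (Real.sqrt_pos.2 (hpos a b)), div_le_one (Real.sqrt_pos.2 (hpos a b)),
        ← Real.sqrt_sq_eq_abs]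
      exact Real.sqrt_le_sqrt (by nlinarith [sq_nonneg a, sq_nonneg ε])
    · simp

/-- the gradient of `√(u₁² + u₂²)` -/
noncomputable def hgr (u₁ u₂ : E3 → ℝ) (g₁ g₂ : E3 → E3) (x : E3) : E3 :=
  (√(u₁ x ^ 2 + u₂ x ^ 2))⁻¹ • (u₁ x • g₁ x + u₂ x • g₂ x)

/-- **the weak gradient of `√(u₁² + u₂²)`** -/
theorem WG.hyp {u₁ u₂ : E3 → ℝ} {g₁ g₂ : E3 → E3} (hu₁ : MemLp u₁ 2 volume)
    (hg₁ : MemLp g₁ 2 volume) (h₁ : WG u₁ g₁) (hu₂ : MemLp u₂ 2 volume)
    (hg₂ : MemLp g₂ 2 volume) (h₂ : WG u₂ g₂) :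
    WG (fun x => √(u₁ x ^ 2 + u₂ x ^ 2)) (hgr u₁ u₂ g₁ g₂) := by
  intro φ hφ hφs v
  have hφc : Continuous φ := hφ.continuous
  have hdc : Continuous (fun x => fderiv ℝ φ x v) :=
    (hφ.continuous_fderiv (by simp)).clm_apply continuous_const
  have hds : HasCompactSupport (fun x => fderiv ℝ φ x v) := hφs.fderiv_apply ℝ v
  have hφL := cc_memLp hφc hφs
  have hdL := cc_memLp hdc hds
  set e : ℕ → ℝ := fun n => 1 / ((n:ℝ) + 1) with he
  have he0 : ∀ n, 0 < e n := fun n => by rw [he]; positivity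
  have he1 : ∀ n, e n ≤ 1 := fun n => by
    rw [he]
    show 1 / ((n:ℝ) + 1) ≤ 1
    rw [div_le_one (by positivity)]
    have : (0:ℝ) ≤ n := Nat.cast_nonneg n
    linarith
  have het : Tendsto e atTop (𝓝 0) := tendsto_one_div_add_atTop_nhds_zero_nat
  have hc := fun n => chain (crf_sqrt (he0 n)) hu₁ hg₁ h₁ hu₂ hg₂ h₂ φ hφ hφs v
  simp only [add_zero] at hc
  have hsq : ∀ x, Tendsto (fun n => √(u₁ x ^ 2 + u₂ x ^ 2 + e n ^ 2)) atTop
      (𝓝 (√(u₁ x ^ 2 + u₂ x ^ 2))) := by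
    intro x
    have h3 : Tendsto (fun n => u₁ x ^ 2 + u₂ x ^ 2 + e n ^ 2) atTop
        (𝓝 (u₁ x ^ 2 + u₂ x ^ 2 + 0 ^ 2)) := tendsto_const_nhds.add (het.pow 2)
    have h4 := (Real.continuous_sqrt.tendsto _).comp h3
    simpa [Function.comp_def] using h4
  have tL : Tendsto (fun n => ∫ x, √(u₁ x ^ 2 + u₂ x ^ 2 + e n ^ 2) * fderiv ℝ φ x v) atTop
      (𝓝 (∫ x, √(u₁ x ^ 2 + u₂ x ^ 2) * fderiv ℝ φ x v)) := by
    refine tendsto_integral_of_dominated_convergence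
      (fun x => ‖u₁ x * fderiv ℝ φ x v‖ + ‖u₂ x * fderiv ℝ φ x v‖ + ‖fderiv ℝ φ x v‖)
      (fun n => ?_) ?_ (fun n => ae_of_all _ fun x => ?_) (ae_of_all _ fun x => ?_)
    · have : AEMeasurable (fun x => √(u₁ x ^ 2 + u₂ x ^ 2 + e n ^ 2)) volume :=
        (((hu₁.1.aemeasurable.pow_const 2).add (hu₂.1.aemeasurable.pow_const 2)).add_const _).sqrt
      exact this.aestronglyMeasurable.mul hdL.1
    · exact ((mul_int2 hu₁ hdL).norm.add (mul_int2 hu₂ hdL).norm).add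
        (hdc.integrable_of_hasCompactSupport hds).norm
    · simp only [norm_mul]
      rw [← add_mul]
      have h5 : ‖√(u₁ x ^ 2 + u₂ x ^ 2 + e n ^ 2)‖ ≤ ‖u₁ x‖ + ‖u₂ x‖ + 1 := by
        rw [Real.norm_of_nonneg (Real.sqrt_nonneg _)]
        refine Real.sqrt_le_iff.2 ⟨by positivity, ?_⟩
        have h6 : e n ^ 2 ≤ 1 := by
          have := he1 n; have := he0 n; nlinarith
        have h7 : u₁ x ^ 2 = ‖u₁ x‖ ^ 2 := by simp
        have h8 : u₂ x ^ 2 = ‖u₂ x‖ ^ 2 := by simp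
        rw [h7, h8]
        nlinarith [norm_nonneg (u₁ x), norm_nonneg (u₂ x),
          mul_nonneg (norm_nonneg (u₁ x)) (norm_nonneg (u₂ x))]
      have h9 := mul_le_mul_of_nonneg_right h5 (norm_nonneg (fderiv ℝ φ x v))
      linarith
    · exact (hsq x).mul_const _
  have tR : Tendsto (fun n => ∫ x, inner ℝ ((u₁ x / √(u₁ x ^ 2 + u₂ x ^ 2 + e n ^ 2)) • g₁ x +
      (u₂ x / √(u₁ x ^ 2 + u₂ x ^ 2 + e n ^ 2)) • g₂ x) v * φ x) atTop
      (𝓝 (∫ x, inner ℝ (hgr u₁ u₂ g₁ g₂ x) v * φ x)) := by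
    have hin : ∀ {g : E3 → E3}, MemLp g 2 volume →
      MemLp (fun x => (inner ℝ (g x) v : ℝ)) 2 volume := fun hg => hg.inner_const v
    have hb : ∀ n x, |u₁ x / √(u₁ x ^ 2 + u₂ x ^ 2 + e n ^ 2)| ≤ 1 ∧
        |u₂ x / √(u₁ x ^ 2 + u₂ x ^ 2 + e n ^ 2)| ≤ 1 := by
      intro n x
      have hpos : 0 < √(u₁ x ^ 2 + u₂ x ^ 2 + e n ^ 2) :=
        Real.sqrt_pos.2 (by have := he0 n; positivity)
      constructor
      · rw [abs_div, abs_of_pos hpos, div_le_one hpos, ← Real.sqrt_sq_eq_abs]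
        exact Real.sqrt_le_sqrt (by nlinarith [sq_nonneg (u₂ x), sq_nonneg (e n)])
      · rw [abs_div, abs_of_pos hpos, div_le_one hpos, ← Real.sqrt_sq_eq_abs]
        exact Real.sqrt_le_sqrt (by nlinarith [sq_nonneg (u₁ x), sq_nonneg (e n)])
    refine tendsto_integral_of_dominated_convergence
      (fun x => ‖(inner ℝ (g₁ x) v : ℝ) * φ x‖ + ‖(inner ℝ (g₂ x) v : ℝ) * φ x‖)
      (fun n => ?_) ?_ (fun n => ae_of_all _ fun x => ?_) (ae_of_all _ fun x => ?_)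
    · have hm : AEMeasurable (fun x => √(u₁ x ^ 2 + u₂ x ^ 2 + e n ^ 2)) volume :=
        (((hu₁.1.aemeasurable.pow_const 2).add (hu₂.1.aemeasurable.pow_const 2)).add_const _).sqrt
      have m1 : AEStronglyMeasurable (fun x => (u₁ x / √(u₁ x ^ 2 + u₂ x ^ 2 + e n ^ 2)) • g₁ x +
        (u₂ x / √(u₁ x ^ 2 + u₂ x ^ 2 + e n ^ 2)) • g₂ x) volume :=
        ((hu₁.1.aemeasurable.div hm).aestronglyMeasurable.smul hg₁.1).add
          ((hu₂.1.aemeasurable.div hm).aestronglyMeasurable.smul hg₂.1)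
      exact (m1.inner aestronglyMeasurable_const).mul hφL.1
    · exact (mul_int2 (hin hg₁) hφL).norm.add (mul_int2 (hin hg₂) hφL).norm
    · rw [inner_add_left, real_inner_smul_left, real_inner_smul_left, add_mul]
      refine (norm_add_le _ _).trans ?_
      have h1 := (hb n x).1
      have h2 := (hb n x).2
      rw [mul_assoc, mul_assoc, norm_mul (u₁ x / _), norm_mul (u₂ x / _)]
      exact add_le_add (mul_le_of_le_one_left (norm_nonneg _) h1)
        (mul_le_of_le_one_left (norm_nonneg _) h2)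
    · refine Tendsto.mul_const _ ?_
      refine Tendsto.inner ?_ tendsto_const_nhds
      unfold hgr
      rcases eq_or_ne (√(u₁ x ^ 2 + u₂ x ^ 2)) 0 with h0 | h0
      · have h3 : u₁ x ^ 2 + u₂ x ^ 2 ≤ 0 := by
          rwa [Real.sqrt_eq_zero'] at h0
        have h4 : u₁ x = 0 := by nlinarith [sq_nonneg (u₁ x), sq_nonneg (u₂ x)]
        have h5 : u₂ x = 0 := by nlinarith [sq_nonneg (u₁ x), sq_nonneg (u₂ x)]
        simp [h4, h5]
      · rw [smul_add, smul_smul, smul_smul]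
        refine Tendsto.add (Tendsto.smul_const ?_ _) (Tendsto.smul_const ?_ _)
        · rw [← div_eq_inv_mul]
          exact tendsto_const_nhds.div (hsq x) h0
        · rw [← div_eq_inv_mul]
          exact tendsto_const_nhds.div (hsq x) h0
  have := tR.neg
  refine tendsto_nhds_unique tL (this.congr fun n => ?_)
  exact (hc n).symm

lemma hyp_ident {V : Type*} [NormedAddCommGroup V] [InnerProductSpace ℝ V] (a b : ℝ) (g h : V) :
    ‖a • g + b • h‖ ^ 2 + ‖b • g - a • h‖ ^ 2 = (a ^ 2 + b ^ 2) * (‖g‖ ^ 2 + ‖h‖ ^ 2) := by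
  rw [norm_add_sq_real, norm_sub_sq_real, norm_smul, norm_smul, norm_smul, norm_smul,
    real_inner_smul_left, real_inner_smul_left, real_inner_smul_right, real_inner_smul_right]
  simp only [mul_pow, Real.norm_eq_abs, sq_abs]
  ring

/-- exact size of the gradient -/
lemma hgr_sq (u₁ u₂ : E3 → ℝ) (g₁ g₂ : E3 → E3) (x : E3) :
    ‖hgr u₁ u₂ g₁ g₂ x‖ ^ 2 + ‖u₂ x • g₁ x - u₁ x • g₂ x‖ ^ 2 / (u₁ x ^ 2 + u₂ x ^ 2) ≤
      ‖g₁ x‖ ^ 2 + ‖g₂ x‖ ^ 2 := by
  unfold hgr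
  rw [norm_smul, mul_pow, norm_inv, Real.norm_of_nonneg (Real.sqrt_nonneg _), inv_pow,
    Real.sq_sqrt (by positivity)]
  rcases eq_or_lt_of_le (show 0 ≤ u₁ x ^ 2 + u₂ x ^ 2 by positivity) with h0 | h0
  · rw [← h0]; simp; positivity
  · have := hyp_ident (u₁ x) (u₂ x) (g₁ x) (g₂ x)
    rw [inv_mul_eq_div, ← add_div, this, mul_div_cancel_left₀ _ h0.ne']

lemma hgr_memLp {u₁ u₂ : E3 → ℝ} {g₁ g₂ : E3 → E3} (hu₁ : MemLp u₁ 2 volume)
    (hg₁ : MemLp g₁ 2 volume) (hu₂ : MemLp u₂ 2 volume) (hg₂ : MemLp g₂ 2 volume) :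
    MemLp (hgr u₁ u₂ g₁ g₂) 2 volume := by
  have hm : AEMeasurable (fun x => √(u₁ x ^ 2 + u₂ x ^ 2)) volume :=
    ((hu₁.1.aemeasurable.pow_const 2).add (hu₂.1.aemeasurable.pow_const 2)).sqrt
  have m1 : AEStronglyMeasurable (hgr u₁ u₂ g₁ g₂) volume :=
    hm.inv.aestronglyMeasurable.smul ((hu₁.1.smul hg₁.1).add (hu₂.1.smul hg₂.1))
  refine (memLp_two_iff_integrable_sq_norm m1).2 ?_
  refine ((sq_int hg₁).add (sq_int hg₂)).mono' (m1.norm.pow 2) (ae_of_all _ fun x => ?_)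
  rw [Real.norm_of_nonneg (by positivity)]
  have h1 := hgr_sq u₁ u₂ g₁ g₂ x
  have h2 : 0 ≤ ‖u₂ x • g₁ x - u₁ x • g₂ x‖ ^ 2 / (u₁ x ^ 2 + u₂ x ^ 2) := by positivity
  show _ ≤ ‖g₁ x‖ ^ 2 + ‖g₂ x‖ ^ 2
  linarith

end Pool.Agent.Run7.h828.TFW
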