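import Pool.Agent.Run7.h828.TFW.WG3

/-!
# Weak limits of gradients
-/

set_option autoImplicit false

open MeasureTheory Filter Topology Set
open scoped ENNReal NNReal ContDiff

namespace Pool.Agent.Run7.h828.TFW

open Pool.Agent.TH791.Cl

/-- weak compactness of bounded sets of a Hilbert space along an ultrafilter -/
lemma weak_compact {H : Type*} [NormedAddCommGroup H] [InnerProductSpace ℝ H] [CompleteSpace H]
    (G : ℕ → H) (B : ℝ) (hG : ∀ n, ‖G n‖ ≤ B) :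
    ∃ g : H, ∀ w : H, Tendsto (fun n => inner ℝ (G n) w) (hyperfilter ℕ : Filter ℕ)
      (𝓝 (inner ℝ g w)) := by
  let F : ℕ → WeakDual ℝ H := fun n => StrongDual.toWeakDual (InnerProductSpace.toDual ℝ H (G n))
  have hK := WeakDual.isCompact_closedBall (𝕜 := ℝ) (E := H) 0 B
  obtain ⟨ℓ, _, hℓ⟩ := hK.ultrafilter_le_nhds' ((hyperfilter ℕ).map F) (by
    refine Filter.mem_map.2 (Filter.univ_mem' fun n => ?_)
    show F n ∈ WeakDual.toStrongDual ⁻¹' Metric.closedBall 0 B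
    rw [mem_preimage, mem_closedBall_zero_iff]
    show ‖InnerProductSpace.toDual ℝ H (G n)‖ ≤ B
    rw [LinearIsometryEquiv.norm_map]
    exact hG n)
  have hT : Tendsto F (hyperfilter ℕ : Filter ℕ) (𝓝 ℓ) := hℓ
  refine ⟨(InnerProductSpace.toDual ℝ H).symm (WeakDual.toStrongDual ℓ), fun w => ?_⟩
  have h1 := ((WeakDual.eval_continuous w).tendsto ℓ).comp hT
  rw [InnerProductSpace.toDual_symm_apply]
  exact h1

lemma sqrt_young {s η : ℝ} (hs : 0 ≤ s) (hη : 0 < η) :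
    √s ≤ η + η ^ (-(7/3) : ℝ) * s ^ (5/3 : ℝ) := by
  have h0 : 0 ≤ η ^ (-(7/3) : ℝ) * s ^ (5/3 : ℝ) := by positivity
  rcases le_or_gt (√s) η with h | h
  · linarith
  · have hs0 : 0 < s := by
      rcases eq_or_lt_of_le hs with h1 | h1
      · rw [← h1, Real.sqrt_zero] at h; linarith
      · exact h1
    have h2 : η ^ (7/3 : ℝ) ≤ (√s) ^ (7/3 : ℝ) := Real.rpow_le_rpow hη.le h.le (by norm_num)
    have h3 : s ^ (5/3 : ℝ) = √s * (√s) ^ (7/3 : ℝ) := by
      rw [Real.sqrt_eq_rpow, ← Real.rpow_mul hs, ← Real.rpow_add hs0]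
      norm_num
    have h4 : η ^ (-(7/3) : ℝ) * η ^ (7/3 : ℝ) = 1 := by
      rw [← Real.rpow_add hη]; norm_num
    have h5 : √s ≤ η ^ (-(7/3) : ℝ) * s ^ (5/3 : ℝ) := by
      rw [h3]
      calc √s = √s * (η ^ (-(7/3) : ℝ) * η ^ (7/3 : ℝ)) := by rw [h4, mul_one]
        _ ≤ √s * (η ^ (-(7/3) : ℝ) * (√s) ^ (7/3 : ℝ)) :=
            mul_le_mul_of_nonneg_left (mul_le_mul_of_nonneg_left h2 (by positivity))
              (Real.sqrt_nonneg _)
        _ = _ := by ring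
    linarith

lemma sqrt_diff {a b : ℝ} (ha : 0 ≤ a) (hb : 0 ≤ b) : |√a - √b| ≤ √|a - b| := by
  wlog h : b ≤ a generalizing a b
  · have := this hb ha (le_of_not_ge h)
    rwa [abs_sub_comm, abs_sub_comm b a] at this
  rw [abs_of_nonneg (sub_nonneg.2 (Real.sqrt_le_sqrt h)), abs_of_nonneg (sub_nonneg.2 h)]
  refine Real.le_sqrt_of_sq_le ?_
  have h1 := Real.sq_sqrt ha
  have h2 := Real.sq_sqrt hb
  have h3 := Real.sqrt_le_sqrt h
  have h4 := Real.sqrt_nonneg b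
  nlinarith

lemma sqrt_memLp {ρ : E3 → ℝ} (h0 : ∀ x, 0 ≤ ρ x) (hi : Integrable ρ) :
    MemLp (fun x => √(ρ x)) 2 volume := by
  have hm : AEStronglyMeasurable (fun x => √(ρ x)) volume :=
    hi.1.aemeasurable.sqrt.aestronglyMeasurable
  refine (memLp_two_iff_integrable_sq_norm hm).2 (hi.congr (ae_of_all _ fun x => ?_))
  show ρ x = ‖√(ρ x)‖ ^ 2
  rw [Real.norm_of_nonneg (Real.sqrt_nonneg _), Real.sq_sqrt (h0 x)]

lemma sqrt_lim {f : ℕ → E3 → ℝ} {ρ : E3 → ℝ} (hf0 : ∀ n x, 0 ≤ f n x) (hfi : ∀ n, Integrable (f n))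
    (hρ0 : ∀ x, 0 ≤ ρ x) (hρi : Integrable ρ)
    (hd : ∀ n, Integrable (fun x => |f n x - ρ x| ^ (5/3 : ℝ)))
    (hlim : Tendsto (fun n => ∫ x, |f n x - ρ x| ^ (5/3 : ℝ)) atTop (𝓝 0))
    {d : E3 → ℝ} (hdc : Continuous d) (hds : HasCompactSupport d) :
    Tendsto (fun n => ∫ x, √(f n x) * d x) atTop (𝓝 (∫ x, √(ρ x) * d x)) := by
  have hdL := cc_memLp hdc hds
  have hdi : Integrable (fun x => |d x|) volume := (hdc.integrable_of_hasCompactSupport hds).abs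
  obtain ⟨M, hM⟩ := hdc.bounded_above_of_compact_support hds
  have hM0 : 0 ≤ M := (norm_nonneg _).trans (hM 0)
  set D := ∫ x, |d x| with hD
  have hD0 : 0 ≤ D := integral_nonneg fun x => abs_nonneg _
  rw [Metric.tendsto_atTop]
  intro ε hε
  set η : ℝ := ε / (2 * (D + 1)) with hη
  have hη0 : 0 < η := by positivity
  set c : ℝ := η ^ (-(7/3) : ℝ) with hc
  have hc0 : 0 < c := by positivity
  obtain ⟨N, hN⟩ := (Metric.tendsto_atTop.1 hlim) (ε / (2 * (c * (M + 1)))) (by positivity)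
  refine ⟨N, fun n hn => ?_⟩
  have h1 := hN n hn
  have hI0 : 0 ≤ ∫ x, |f n x - ρ x| ^ (5/3 : ℝ) :=
    integral_nonneg fun x => Real.rpow_nonneg (abs_nonneg _) _
  rw [Real.dist_eq, sub_zero, abs_of_nonneg hI0] at h1
  have i1 := mul_int2 (sqrt_memLp (hf0 n) (hfi n)) hdL
  have i2 := mul_int2 (sqrt_memLp hρ0 hρi) hdL
  rw [Real.dist_eq, ← integral_sub i1 i2]
  have h2 : |∫ x, (√(f n x) * d x - √(ρ x) * d x)| ≤
      ∫ x, (η * |d x| + c * M * |f n x - ρ x| ^ (5/3 : ℝ)) := by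
    rw [← Real.norm_eq_abs]
    refine (norm_integral_le_integral_norm _).trans ?_
    refine integral_mono_of_nonneg (ae_of_all _ fun x => norm_nonneg _)
      ((hdi.const_mul η).add ((hd n).const_mul _)) (ae_of_all _ fun x => ?_)
    show ‖√(f n x) * d x - √(ρ x) * d x‖ ≤ η * |d x| + c * M * |f n x - ρ x| ^ (5/3 : ℝ)
    rw [← sub_mul, norm_mul, Real.norm_eq_abs, Real.norm_eq_abs]
    have h3 := (sqrt_diff (hf0 n x) (hρ0 x)).trans (sqrt_young (abs_nonneg (f n x - ρ x)) hη0)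
    have h4 := mul_le_mul_of_nonneg_right h3 (abs_nonneg (d x))
    have h5 : |d x| ≤ M := hM x
    have h6 : c * |f n x - ρ x| ^ (5/3 : ℝ) * |d x| ≤ c * |f n x - ρ x| ^ (5/3 : ℝ) * M :=
      mul_le_mul_of_nonneg_left h5 (by positivity)
    rw [add_mul] at h4
    linarith
  rw [integral_add (hdi.const_mul η) ((hd n).const_mul _), integral_const_mul,
    integral_const_mul] at h2
  have h7 : η * D < ε / 2 + 0 := by
    rw [hη]
    have : ε / (2 * (D + 1)) * D = ε / 2 * (D / (D + 1)) := by field_simp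
    rw [this, add_zero]
    have h8 : D / (D + 1) < 1 := (div_lt_one (by positivity)).2 (by linarith)
    nlinarith
  have h9 : c * M * ∫ x, |f n x - ρ x| ^ (5/3 : ℝ) ≤ ε / 2 := by
    have h10 : c * M * ∫ x, |f n x - ρ x| ^ (5/3 : ℝ) ≤
        c * (M + 1) * (ε / (2 * (c * (M + 1)))) :=
      mul_le_mul (by nlinarith) h1.le hI0 (by positivity)
    refine h10.trans (le_of_eq ?_)
    field_simp
  linarith

/-- **closedness and lower semicontinuity of the gradient** -/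
theorem grad_lsc {f : ℕ → E3 → ℝ} {g : ℕ → E3 → E3} {ρ : E3 → ℝ} (hf0 : ∀ n x, 0 ≤ f n x)
    (hfi : ∀ n, Integrable (f n)) (hρ0 : ∀ x, 0 ≤ ρ x) (hρi : Integrable ρ)
    (hd : ∀ n, Integrable (fun x => |f n x - ρ x| ^ (5/3 : ℝ)))
    (hlim : Tendsto (fun n => ∫ x, |f n x - ρ x| ^ (5/3 : ℝ)) atTop (𝓝 0))
    (hg : ∀ n, MemLp (g n) 2 volume) (hw : ∀ n, WG (fun x => √(f n x)) (g n)) {B : ℝ}
    (hB : ∀ n, ∫ x, ‖g n x‖ ^ 2 ≤ B) :
    ∃ h : E3 → E3, MemLp h 2 volume ∧ WG (fun x => √(ρ x)) h ∧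
      ∀ ε : ℝ, 0 < ε → ∀ᶠ n in (hyperfilter ℕ : Filter ℕ), ∫ x, ‖h x‖ ^ 2 ≤
        (∫ x, ‖g n x‖ ^ 2) + ε := by
  set G : ℕ → Lp E3 2 (volume : Measure E3) := fun n => (hg n).toLp (g n) with hG
  have inn : ∀ {a b : E3 → E3} (ha : MemLp a 2 volume) (hb : MemLp b 2 volume),
      inner ℝ (ha.toLp a) (hb.toLp b) = ∫ x, inner ℝ (a x) (b x) := by
    intro a b ha hb
    rw [L2.inner_def]
    refine integral_congr_ae ?_
    filter_upwards [ha.coeFn_toLp, hb.coeFn_toLp] with x hx hy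
    rw [hx, hy]
  have nrm : ∀ {a : E3 → E3} (ha : MemLp a 2 volume), ‖ha.toLp a‖ ^ 2 = ∫ x, ‖a x‖ ^ 2 := by
    intro a ha
    rw [← real_inner_self_eq_norm_sq, inn ha ha]
    congr 1; funext x; rw [real_inner_self_eq_norm_sq]
  have hB0 : 0 ≤ B := (integral_nonneg fun x => by positivity).trans (hB 0)
  obtain ⟨k, hk⟩ := weak_compact G (√B) (fun n => by
    refine Real.le_sqrt_of_sq_le ?_
    rw [hG, nrm]; exact hB n)
  set h : E3 → E3 := ⇑k with hh
  have hmem : MemLp h 2 volume := Lp.memLp k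
  have hto : hmem.toLp h = k := Lp.toLp_coeFn k hmem
  refine ⟨h, hmem, ?_, ?_⟩
  · intro φ hφ hφs v
    have hφc : Continuous φ := hφ.continuous
    have hdc : Continuous (fun x => fderiv ℝ φ x v) :=
      (hφ.continuous_fderiv (by simp)).clm_apply continuous_const
    have hds : HasCompactSupport (fun x => fderiv ℝ φ x v) := hφs.fderiv_apply ℝ v
    have hψ : MemLp (fun x => φ x • v) 2 volume := by
      exact (hφc.smul continuous_const).memLp_of_hasCompactSupport hφs.smul_right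
    have h1 := hk (hψ.toLp _)
    have h2 := sqrt_lim hf0 hfi hρ0 hρi hd hlim hdc hds
    have e1 : ∀ n, inner ℝ (G n) (hψ.toLp _) = -∫ x, √(f n x) * fderiv ℝ φ x v := by
      intro n
      rw [hG, inn, hw n φ hφ hφs v, neg_neg]
      congr 1; funext x; rw [real_inner_smul_right]; ring
    have e2 : inner ℝ k (hψ.toLp _) = ∫ x, inner ℝ (h x) v * φ x := by
      rw [← hto, inn]
      congr 1; funext x; rw [real_inner_smul_right]; ring
    simp only [e1] at h1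
    rw [e2] at h1
    have h3 := tendsto_nhds_unique h1 (h2.neg.mono_left Nat.hyperfilter_le_atTop)
    rw [h3, neg_neg]
  · intro ε hε
    have h1 := hk k
    have h2 : Tendsto (fun n => 2 * inner ℝ (G n) k - ‖k‖ ^ 2) (hyperfilter ℕ : Filter ℕ)
        (𝓝 (2 * inner ℝ k k - ‖k‖ ^ 2)) := (h1.const_mul 2).sub_const _
    rw [real_inner_self_eq_norm_sq] at h2
    have h3 : ∀ᶠ n in (hyperfilter ℕ : Filter ℕ), 2 * ‖k‖ ^ 2 - ‖k‖ ^ 2 - ε <
        2 * inner ℝ (G n) k - ‖k‖ ^ 2 := h2.eventually_const_lt (by linarith)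
    filter_upwards [h3] with n hn
    have h4 : 2 * inner ℝ (G n) k - ‖k‖ ^ 2 ≤ ‖G n‖ ^ 2 := by
      have := sq_nonneg ‖G n - k‖
      rw [norm_sub_sq_real] at this
      linarith
    have h5 : ‖G n‖ ^ 2 = ∫ x, ‖g n x‖ ^ 2 := by rw [hG, nrm]
    have h6 : ‖k‖ ^ 2 = ∫ x, ‖h x‖ ^ 2 := by rw [← hto, nrm]
    linarith

end Pool.Agent.Run7.h828.TFW
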